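import Mathlib

/-!
Nonacute families of vectors, and points of a kissing configuration at height at least `√2/2`.
-/

namespace Pool.Agent.Work.MP_e0d3e3_co

open Module
open scoped InnerProductSpace

universe u

/-- The component of `w` orthogonal to `v`. -/
noncomputable def orth {E : Type u} [NormedAddCommGroup E] [InnerProductSpace ℝ E] (v w : E) :
    (Submodule.span ℝ {v})ᗮ :=
  ⟨w - (⟪v, w⟫_ℝ / ⟪v, v⟫_ℝ) • v, by
    rw [Submodule.mem_orthogonal_singleton_iff_inner_right, inner_sub_right, inner_smul_right]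
    by_cases hv : ⟪v, v⟫_ℝ = 0
    · rw [inner_self_eq_zero] at hv
      simp [hv]
    · field_simp
      ring⟩

theorem orth_coe {E : Type u} [NormedAddCommGroup E] [InnerProductSpace ℝ E] (v w : E) :
    (orth v w : E) = w - (⟪v, w⟫_ℝ / ⟪v, v⟫_ℝ) • v := rfl

theorem inner_orth {E : Type u} [NormedAddCommGroup E] [InnerProductSpace ℝ E] {v : E}
    (hv : v ≠ 0) (w w' : E) :
    ⟪orth v w, orth v w'⟫_ℝ = ⟪w, w'⟫_ℝ - ⟪v, w⟫_ℝ * ⟪v, w'⟫_ℝ / ⟪v, v⟫_ℝ := by
  have h : ⟪v, v⟫_ℝ ≠ 0 := by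
    rw [Ne, inner_self_eq_zero]
    exact hv
  rw [Submodule.coe_inner, orth_coe, orth_coe, inner_sub_left, inner_sub_right, inner_sub_right,
    inner_smul_left, inner_smul_right, inner_smul_right, inner_smul_left]
  simp only [RCLike.conj_to_real]
  rw [real_inner_comm v w]
  field_simp
  ring

open Classical in
theorem card_aux {E : Type u} [NormedAddCommGroup E] [InnerProductSpace ℝ E] (S : Finset E) (n : ℕ)
    (h0 : ∀ v ∈ S, v ≠ 0) (h : ∀ v ∈ S, ∀ w ∈ S, v ≠ w → ⟪v, w⟫_ℝ ≤ 0) {v : E} (hv : v ∈ S)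
    (ih : ∀ T : Finset (Submodule.span ℝ {v})ᗮ, (∀ v ∈ T, v ≠ 0) →
      (∀ v ∈ T, ∀ w ∈ T, v ≠ w → ⟪v, w⟫_ℝ ≤ 0) → T.card ≤ 2 * n) :
    S.card ≤ 2 * n + 1 + ((S.erase v).filter fun w => ∃ c : ℝ, c < 0 ∧ w = c • v).card ∧
      ((S.erase v).filter fun w => ∃ c : ℝ, c < 0 ∧ w = c • v).card ≤ 1 := by
  have hvv : 0 < ⟪v, v⟫_ℝ := by
    rw [real_inner_self_eq_norm_sq]
    exact pow_pos (norm_pos_iff.2 (h0 v hv)) 2
  constructor
  · set T := (S.erase v).filter fun w => ¬ ∃ c : ℝ, c < 0 ∧ w = c • v with hT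
    have hTmem : ∀ w ∈ T, w ∈ S ∧ w ≠ v ∧ orth v w ≠ 0 := by
      intro w hw
      rw [hT, Finset.mem_filter, Finset.mem_erase] at hw
      refine ⟨hw.1.2, hw.1.1, fun h1 => hw.2 ?_⟩
      have h2 : w - (⟪v, w⟫_ℝ / ⟪v, v⟫_ℝ) • v = 0 := congrArg Subtype.val h1
      have h3 : w = (⟪v, w⟫_ℝ / ⟪v, v⟫_ℝ) • v := sub_eq_zero.1 h2
      refine ⟨_, ?_, h3⟩
      have h4 : ⟪v, w⟫_ℝ ≤ 0 := h v hv w hw.1.2 (Ne.symm hw.1.1)
      rcases h4.lt_or_eq with h5 | h5
      · exact div_neg_of_neg_of_pos h5 hvv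
      · exfalso
        rw [h5, zero_div, zero_smul] at h3
        exact h0 w hw.1.2 h3
    have hle : ∀ w ∈ T, ∀ w' ∈ T, w ≠ w' → ⟪orth v w, orth v w'⟫_ℝ ≤ 0 := by
      intro w hw w' hw' hne
      rw [inner_orth (h0 v hv)]
      have h1 := h w (hTmem w hw).1 w' (hTmem w' hw').1 hne
      have h2 := h v hv w (hTmem w hw).1 (Ne.symm (hTmem w hw).2.1)
      have h3 := h v hv w' (hTmem w' hw').1 (Ne.symm (hTmem w' hw').2.1)
      have h4 : 0 ≤ ⟪v, w⟫_ℝ * ⟪v, w'⟫_ℝ / ⟪v, v⟫_ℝ :=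
        div_nonneg (mul_nonneg_of_nonpos_of_nonpos h2 h3) hvv.le
      linarith
    have hinj : Set.InjOn (orth v) T := by
      intro w hw w' hw' heq
      by_contra hne
      have h1 := hle w hw w' hw' hne
      rw [← heq, real_inner_self_eq_norm_sq] at h1
      have h2 : 0 < ‖orth v w‖ := norm_pos_iff.2 (hTmem w hw).2.2
      nlinarith
    have hcard : T.card ≤ 2 * n := by
      rw [← Finset.card_image_of_injOn hinj]
      refine ih _ ?_ ?_
      · intro x hx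
        obtain ⟨w, hw, rfl⟩ := Finset.mem_image.1 hx
        exact (hTmem w hw).2.2
      · intro x hx y hy hne
        obtain ⟨w, hw, rfl⟩ := Finset.mem_image.1 hx
        obtain ⟨w', hw', rfl⟩ := Finset.mem_image.1 hy
        exact hle w hw w' hw' (fun h => hne (by rw [h]))
    have h1 : ((S.erase v).filter fun w => ∃ c : ℝ, c < 0 ∧ w = c • v).card + T.card =
        (S.erase v).card := by
      rw [hT]
      convert Finset.card_filter_add_card_filter_not (s := S.erase v)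
        (fun w => ∃ c : ℝ, c < 0 ∧ w = c • v)
    have h2 := Finset.card_erase_add_one hv
    omega
  · rw [Finset.card_le_one]
    intro w hw w' hw'
    rw [Finset.mem_filter, Finset.mem_erase] at hw hw'
    obtain ⟨⟨hwv, hwS⟩, c, hc, rfl⟩ := hw
    obtain ⟨⟨hwv', hwS'⟩, c', hc', rfl⟩ := hw'
    by_contra hne
    have h1 := h _ hwS _ hwS' hne
    rw [inner_smul_left, inner_smul_right] at h1
    simp only [RCLike.conj_to_real] at h1
    have h2 : 0 < c * (c' * ⟪v, v⟫_ℝ) := by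
      have := mul_pos_of_neg_of_neg hc hc'
      nlinarith
    linarith

theorem card_le (n : ℕ) : ∀ (E : Type u) [NormedAddCommGroup E] [InnerProductSpace ℝ E]
    [FiniteDimensional ℝ E], finrank ℝ E = n → ∀ S : Finset E, (∀ v ∈ S, v ≠ 0) →
    (∀ v ∈ S, ∀ w ∈ S, v ≠ w → ⟪v, w⟫_ℝ ≤ 0) → S.card ≤ 2 * n := by
  classical
  induction n with
  | zero =>
    intro E _ _ _ hE S h0 _
    have : Subsingleton E := finrank_zero_iff.1 hE
    rw [Finset.card_eq_zero.2]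
    rw [Finset.eq_empty_iff_forall_notMem]
    intro v hv
    exact h0 v hv (Subsingleton.elim _ _)
  | succ n ih =>
    intro E _ _ _ hE S h0 h
    rcases S.eq_empty_or_nonempty with rfl | ⟨v, hv⟩
    · simp
    · have : Fact (finrank ℝ E = n + 1) := ⟨hE⟩
      have hF := Submodule.finrank_orthogonal_span_singleton (𝕜 := ℝ) (n := n) (h0 v hv)
      obtain ⟨h1, h2⟩ := card_aux S n h0 h hv (fun T h3 h4 => ih _ hF T h3 h4)
      omega

/-- In the case of equality every vector has a negative multiple in the family and is orthogonal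
to all the others. -/
theorem eq_case {E : Type u} [NormedAddCommGroup E] [InnerProductSpace ℝ E]
    [FiniteDimensional ℝ E] (S : Finset E) (h0 : ∀ v ∈ S, v ≠ 0)
    (h : ∀ v ∈ S, ∀ w ∈ S, v ≠ w → ⟪v, w⟫_ℝ ≤ 0) (hcard : S.card = 2 * finrank ℝ E)
    {v : E} (hv : v ∈ S) : ∃ w ∈ S, ∃ c : ℝ, c < 0 ∧ w = c • v ∧
      ∀ u ∈ S, u ≠ v → u ≠ w → ⟪u, v⟫_ℝ = 0 := by
  classical
  obtain ⟨n, hn⟩ : ∃ n, finrank ℝ E = n + 1 := by
    refine Nat.exists_eq_succ_of_ne_zero ?_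
    intro h1
    have : Subsingleton E := finrank_zero_iff.1 h1
    exact h0 v hv (Subsingleton.elim _ _)
  have : Fact (finrank ℝ E = n + 1) := ⟨hn⟩
  have hF := Submodule.finrank_orthogonal_span_singleton (𝕜 := ℝ) (n := n) (h0 v hv)
  obtain ⟨h1, h2⟩ := card_aux S n h0 h hv (fun T h3 h4 => card_le n _ hF T h3 h4)
  have h3 : 0 < ((S.erase v).filter fun w => ∃ c : ℝ, c < 0 ∧ w = c • v).card := by
    rw [hcard, hn] at h1
    omega
  obtain ⟨w, hw⟩ := Finset.card_pos.1 h3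
  rw [Finset.mem_filter, Finset.mem_erase] at hw
  obtain ⟨⟨hwv, hwS⟩, c, hc, hwc⟩ := hw
  refine ⟨w, hwS, c, hc, hwc, fun u hu huv huw => ?_⟩
  have h4 := h u hu v hv huv
  have h5 := h u hu w hwS huw
  rw [hwc, inner_smul_right] at h5
  nlinarith

/-! ### One side of a kissing configuration -/

section

variable {E : Type u} [NormedAddCommGroup E] [InnerProductSpace ℝ E] [FiniteDimensional ℝ E]

omit [FiniteDimensional ℝ E] in
theorem inner_orth_unit {e : E} (he : ‖e‖ = 1) (x y : E) :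
    ⟪orth e x, orth e y⟫_ℝ = ⟪x, y⟫_ℝ - ⟪e, x⟫_ℝ * ⟪e, y⟫_ℝ := by
  have h0 : e ≠ 0 := by
    intro h
    rw [h, norm_zero] at he
    exact zero_ne_one he
  rw [inner_orth h0, real_inner_self_eq_norm_sq, he]
  ring

omit [FiniteDimensional ℝ E] in
theorem side_aux {e : E} (he : ‖e‖ = 1) (U : Finset E) (h1 : ∀ x ∈ U, ‖x‖ = 1)
    (h2 : ∀ x ∈ U, √2 / 2 ≤ ⟪e, x⟫_ℝ) (h3 : ∀ x ∈ U, ∀ y ∈ U, x ≠ y → ⟪x, y⟫_ℝ ≤ 1 / 2) :
    U.card ≤ 1 ∨ (Set.InjOn (orth e) U ∧ (∀ x ∈ U, orth e x ≠ 0) ∧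
      ∀ x ∈ U, ∀ y ∈ U, x ≠ y → ⟪orth e x, orth e y⟫_ℝ ≤ 0) := by
  have hs : (√2 / 2) * (√2 / 2) = 1 / 2 := by
    have : √2 * √2 = 2 := Real.mul_self_sqrt (by norm_num)
    nlinarith
  have hs1 : 1 / 2 < √2 / 2 := by
    have : 1 < √2 := by
      rw [Real.lt_sqrt] <;> norm_num
    linarith
  by_cases hpole : ∃ x ∈ U, orth e x = 0
  · left
    obtain ⟨x, hx, hx0⟩ := hpole
    have hx1 : x = ⟪e, x⟫_ℝ • e := by
      have h4 : x - (⟪e, x⟫_ℝ / ⟪e, e⟫_ℝ) • e = 0 := congrArg Subtype.val hx0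
      rw [real_inner_self_eq_norm_sq, he] at h4
      have h5 := sub_eq_zero.1 h4
      simpa using h5
    have hx2 : ⟪e, x⟫_ℝ = 1 := by
      have h4 : ‖x‖ = |⟪e, x⟫_ℝ| := by
        conv_lhs => rw [hx1]
        rw [norm_smul, he, mul_one, Real.norm_eq_abs]
      rw [h1 x hx, abs_of_pos (by linarith [h2 x hx])] at h4
      exact h4.symm
    rw [hx2, one_smul] at hx1
    rw [Finset.card_le_one]
    have h6 : ∀ y ∈ U, y = x := by
      intro y hy
      by_contra hne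
      have h7 := h3 x hx y hy (Ne.symm hne)
      rw [hx1] at h7
      linarith [h2 y hy]
    intro a ha b hb
    rw [h6 a ha, h6 b hb]
  · right
    push Not at hpole
    have hle : ∀ x ∈ U, ∀ y ∈ U, x ≠ y → ⟪orth e x, orth e y⟫_ℝ ≤ 0 := by
      intro x hx y hy hne
      rw [inner_orth_unit he]
      have h4 := h3 x hx y hy hne
      have h5 : 1 / 2 ≤ ⟪e, x⟫_ℝ * ⟪e, y⟫_ℝ := by
        rw [← hs]
        exact mul_le_mul (h2 x hx) (h2 y hy) (by positivity) (by linarith [h2 x hx])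
      linarith
    refine ⟨?_, hpole, hle⟩
    intro x hx y hy hxy
    by_contra hne
    have h4 := hle x hx y hy hne
    rw [← hxy, real_inner_self_eq_norm_sq] at h4
    have h5 : 0 < ‖orth e x‖ := norm_pos_iff.2 (hpole x hx)
    nlinarith

/-- At most `2 n` points on each side. -/
theorem side_card {n : ℕ} (hn : finrank ℝ E = n + 1) (hn1 : 1 ≤ n) {e : E} (he : ‖e‖ = 1)
    (U : Finset E) (h1 : ∀ x ∈ U, ‖x‖ = 1) (h2 : ∀ x ∈ U, √2 / 2 ≤ ⟪e, x⟫_ℝ)
    (h3 : ∀ x ∈ U, ∀ y ∈ U, x ≠ y → ⟪x, y⟫_ℝ ≤ 1 / 2) : U.card ≤ 2 * n := by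
  classical
  rcases side_aux he U h1 h2 h3 with h | ⟨hinj, h0, hle⟩
  · omega
  · have h0e : e ≠ 0 := by
      intro h
      rw [h, norm_zero] at he
      exact zero_ne_one he
    have : Fact (finrank ℝ E = n + 1) := ⟨hn⟩
    have hF := Submodule.finrank_orthogonal_span_singleton (𝕜 := ℝ) (n := n) h0e
    rw [← Finset.card_image_of_injOn hinj]
    refine card_le n _ hF _ ?_ ?_
    · intro x hx
      obtain ⟨w, hw, rfl⟩ := Finset.mem_image.1 hx
      exact h0 w hw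
    · intro x hx y hy hne
      obtain ⟨w, hw, rfl⟩ := Finset.mem_image.1 hx
      obtain ⟨w', hw', rfl⟩ := Finset.mem_image.1 hy
      exact hle w hw w' hw' (fun h => hne (by rw [h]))

/-- The case of equality on one side. -/
theorem side_eq {n : ℕ} (hn : finrank ℝ E = n + 1) (hn2 : 2 ≤ n) {e : E} (he : ‖e‖ = 1)
    (U : Finset E) (h1 : ∀ x ∈ U, ‖x‖ = 1) (h2 : ∀ x ∈ U, √2 / 2 ≤ ⟪e, x⟫_ℝ)
    (h3 : ∀ x ∈ U, ∀ y ∈ U, x ≠ y → ⟪x, y⟫_ℝ ≤ 1 / 2) (hcard : U.card = 2 * n) :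
    ∀ x ∈ U, ⟪e, x⟫_ℝ = √2 / 2 ∧ √2 • e - x ∈ U ∧
      ∀ y ∈ U, y = x ∨ y = √2 • e - x ∨ ⟪x, y⟫_ℝ = 1 / 2 := by
  classical
  have hs : (√2 / 2) * (√2 / 2) = 1 / 2 := by
    have : √2 * √2 = 2 := Real.mul_self_sqrt (by norm_num)
    nlinarith
  have hs0 : 0 < √2 / 2 := by positivity
  rcases side_aux he U h1 h2 h3 with h | ⟨hinj, h0, hle⟩
  · omega
  have h0e : e ≠ 0 := by
    intro h
    rw [h, norm_zero] at he
    exact zero_ne_one he
  have : Fact (finrank ℝ E = n + 1) := ⟨hn⟩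
  have hF := Submodule.finrank_orthogonal_span_singleton (𝕜 := ℝ) (n := n) h0e
  have key : ∀ x ∈ U, ∃ w ∈ U, ∃ c : ℝ, c < 0 ∧ orth e w = c • orth e x ∧
      ∀ u ∈ U, u ≠ x → u ≠ w → ⟪orth e u, orth e x⟫_ℝ = 0 := by
    intro x hx
    obtain ⟨w, hw, c, hc, hwc, hu⟩ := eq_case (U.image (orth e)) (by
      intro x hx
      obtain ⟨w, hw, rfl⟩ := Finset.mem_image.1 hx
      exact h0 w hw) (by
      intro x hx y hy hne
      obtain ⟨w, hw, rfl⟩ := Finset.mem_image.1 hx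
      obtain ⟨w', hw', rfl⟩ := Finset.mem_image.1 hy
      exact hle w hw w' hw' (fun h => hne (by rw [h]))) (by
      rw [Finset.card_image_of_injOn hinj, hcard, hF]) (Finset.mem_image_of_mem _ hx)
    obtain ⟨w, hwU, rfl⟩ := Finset.mem_image.1 hw
    refine ⟨w, hwU, c, hc, hwc, fun u huU hux huw => ?_⟩
    exact hu _ (Finset.mem_image_of_mem _ huU) (fun h => hux (hinj huU hx h))
      (fun h => huw (hinj huU hwU h))
  have hheight : ∀ x ∈ U, ⟪e, x⟫_ℝ = √2 / 2 := by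
    intro x hx
    obtain ⟨w, hw, c, hc, hwc, hu⟩ := key x hx
    obtain ⟨u, huU, hux, huw⟩ : ∃ u ∈ U, u ≠ x ∧ u ≠ w := by
      by_contra hne
      push Not at hne
      have h4 : U ⊆ {x, w} := by
        intro u hu
        by_cases h5 : u = x
        · simp [h5]
        · simp [hne u hu h5]
      have h5 := Finset.card_le_card h4
      have h6 := Finset.card_le_two (a := x) (b := w)
      omega
    have h4 := hu u huU hux huw
    rw [inner_orth_unit he] at h4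
    have h5 := h3 u huU x hx hux
    have h6 := h2 u huU
    have h7 := h2 x hx
    nlinarith
  intro x hx
  obtain ⟨w, hw, c, hc, hwc, hu⟩ := key x hx
  have hnorm : ∀ y ∈ U, ‖orth e y‖ ^ 2 = 1 / 2 := by
    intro y hy
    rw [← real_inner_self_eq_norm_sq, inner_orth_unit he, real_inner_self_eq_norm_sq, h1 y hy,
      hheight y hy, hs]
    norm_num
  have hc1 : c = -1 := by
    have h4 := hnorm w hw
    rw [hwc, norm_smul, mul_pow, hnorm x hx, Real.norm_eq_abs, sq_abs] at h4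
    have h5 : c ^ 2 = 1 := by linarith
    nlinarith
  have hw' : w = √2 • e - x := by
    have h4 : w - (⟪e, w⟫_ℝ / ⟪e, e⟫_ℝ) • e = c • (x - (⟪e, x⟫_ℝ / ⟪e, e⟫_ℝ) • e) :=
      congrArg Subtype.val hwc
    rw [real_inner_self_eq_norm_sq, he, hheight w hw, hheight x hx, hc1] at h4
    have h5 : w = (√2 / 2 / 1 ^ 2) • e + (-1 : ℝ) • (x - (√2 / 2 / 1 ^ 2) • e) := by
      rw [← h4]
      abel
    rw [h5]
    module
  refine ⟨hheight x hx, hw' ▸ hw, fun y hy => ?_⟩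
  by_cases hyx : y = x
  · exact Or.inl hyx
  · by_cases hyw : y = w
    · exact Or.inr (Or.inl (hyw.trans hw'))
    · right; right
      have h4 := hu y hy hyx hyw
      rw [inner_orth_unit he, hheight y hy, hheight x hx, hs] at h4
      rw [real_inner_comm]
      linarith

end

end Pool.Agent.Work.MP_e0d3e3_co
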