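import Pool.Agent.Work.MP_e0d3e3_co.Lev

/-!
Kissing configurations with a hyperplane section that is a covering: general covering radius.
-/

namespace Pool.Agent.Work.MP_e0d3e3_co.Lev

open Module Finset
open scoped InnerProductSpace

/-- The inequality behind the comparison of points at different heights. -/
theorem chord {s A B C D : ℝ} (hs : s ≤ 1 / 3) (hA : 0 ≤ A) (hB : 0 ≤ B)
    (hC : 0 ≤ C) (hD : 0 ≤ D) (hAC : A ^ 2 + C ^ 2 = 1) (hBD : B ^ 2 + D ^ 2 = 1)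
    (hC' : 2 * (1 - s) * C ^ 2 ≤ 1) (hD' : 2 * (1 - s) * D ^ 2 ≤ 1) :
    1 / 2 ≤ A * B + s * (C * D) := by
  by_contra hcon
  push Not at hcon
  set k : ℝ := 2 * (1 - s) with hk
  set P : ℝ := C * D with hP
  have hk0 : 0 < k := by rw [hk]; linarith
  have hP0 : 0 ≤ P := mul_nonneg hC hD
  have hkP : k * P ≤ 1 := by
    have e1 : (k * P) ^ 2 ≤ 1 := by
      have e2 : (k * P) ^ 2 = (k * C ^ 2) * (k * D ^ 2) := by rw [hP]; ring
      rw [e2]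
      have : 0 ≤ k * D ^ 2 := by positivity
      nlinarith
    nlinarith
  have hAB : 0 ≤ A * B := mul_nonneg hA hB
  have h1 : (A * B) ^ 2 < (1 / 2 - s * P) ^ 2 := by
    have : A * B < 1 / 2 - s * P := by linarith
    nlinarith
  have h2 : (A * B) ^ 2 = 1 - C ^ 2 - D ^ 2 + P ^ 2 := by
    have e1 : A ^ 2 = 1 - C ^ 2 := by linarith
    have e2 : B ^ 2 = 1 - D ^ 2 := by linarith
    rw [mul_pow, e1, e2, hP]
    ring
  have h3 : k * C ^ 2 + k * D ^ 2 ≤ 1 + k ^ 2 * P ^ 2 := by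
    have e1 : 0 ≤ (1 - k * C ^ 2) * (1 - k * D ^ 2) :=
      mul_nonneg (by linarith) (by linarith)
    have e2 : (1 - k * C ^ 2) * (1 - k * D ^ 2)
        = 1 + k ^ 2 * P ^ 2 - (k * C ^ 2 + k * D ^ 2) := by rw [hP]; ring
    linarith
  have h4 : 0 ≤ (1 - k * P) * ((3 * k / 4 - 1) + (1 - s) ^ 2 * P) := by
    refine mul_nonneg (by linarith) (add_nonneg ?_ (by positivity))
    rw [hk]
    linarith
  have h5 : (1 - k * P) * ((3 * k / 4 - 1) + (1 - s) ^ 2 * P)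
      = k * (3 / 4 + s * P + (1 - s ^ 2) * P ^ 2) - (1 + k ^ 2 * P ^ 2) := by
    rw [hk]
    ring
  have h6 : k * (1 - C ^ 2 - D ^ 2 + P ^ 2) < k * (1 / 2 - s * P) ^ 2 := by
    rw [← h2]
    exact mul_lt_mul_of_pos_left h1 hk0
  nlinarith

variable {E : Type*} [NormedAddCommGroup E] [InnerProductSpace ℝ E]

/-- The component orthogonal to a unit vector. -/
noncomputable def pr (e x : E) : E := x - ⟪e, x⟫_ℝ • e

theorem inner_e_pr {e : E} (he : ‖e‖ = 1) (x : E) : ⟪e, pr e x⟫_ℝ = 0 := by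
  rw [pr, inner_sub_right, inner_smul_right, real_inner_self_eq_norm_sq, he]
  ring

theorem inner_pr_pr {e : E} (he : ‖e‖ = 1) (x y : E) :
    ⟪pr e x, pr e y⟫_ℝ = ⟪x, y⟫_ℝ - ⟪e, x⟫_ℝ * ⟪e, y⟫_ℝ := by
  have h : ⟪pr e x, pr e y⟫_ℝ = ⟪x, pr e y⟫_ℝ := by
    conv_lhs => rw [pr]
    rw [inner_sub_left, inner_smul_left, inner_e_pr he]
    simp
  rw [h, pr, inner_sub_right, inner_smul_right, real_inner_comm e x]
  ring

theorem norm_pr {e : E} (he : ‖e‖ = 1) {x : E} (hx : ‖x‖ = 1) :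
    ⟪e, x⟫_ℝ ^ 2 + ‖pr e x‖ ^ 2 = 1 := by
  rw [← real_inner_self_eq_norm_sq (pr e x), inner_pr_pr he, real_inner_self_eq_norm_sq, hx]
  ring

/-- Points off the hyperplane are near the axis. -/
theorem pr_small {s : ℝ} (hs : s ≤ 1 / 3) {X : Set E} {e : E} (he : ‖e‖ = 1)
    (h2 : ∀ x ∈ X, ∀ y ∈ X, x ≠ y → ⟪x, y⟫_ℝ ≤ 1 / 2) {C : Set E} (hCX : C ⊆ X)
    (hCe : ∀ z ∈ C, ⟪e, z⟫_ℝ = 0)
    (hcov : ∀ u : E, ‖u‖ = 1 → ⟪e, u⟫_ℝ = 0 → ∃ z ∈ C, √((1 - s) / 2) ≤ ⟪z, u⟫_ℝ)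
    {x : E} (hx : x ∈ X) (hx0 : x ∉ C) : 2 * (1 - s) * ‖pr e x‖ ^ 2 ≤ 1 := by
  by_cases hp0 : pr e x = 0
  · rw [hp0, norm_zero]
    norm_num
  · have hnp : 0 < ‖pr e x‖ := norm_pos_iff.2 hp0
    obtain ⟨z, hz, hzu⟩ := hcov (‖pr e x‖⁻¹ • pr e x) (by
      rw [norm_smul, norm_inv, norm_norm, inv_mul_cancel₀ hnp.ne']) (by
      rw [inner_smul_right, inner_e_pr he, mul_zero])
    have hzx : ⟪z, pr e x⟫_ℝ = ⟪z, x⟫_ℝ := by
      rw [pr, inner_sub_right, inner_smul_right, real_inner_comm e z, hCe z hz]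
      ring
    rw [inner_smul_right, hzx] at hzu
    have hne : z ≠ x := by
      intro h
      rw [h] at hz
      exact hx0 hz
    have h3 := h2 z (hCX hz) x hx hne
    have h4 : √((1 - s) / 2) * ‖pr e x‖ ≤ 1 / 2 := by
      have h5 := mul_le_mul_of_nonneg_right hzu hnp.le
      have h6 : ‖pr e x‖⁻¹ * ⟪z, x⟫_ℝ * ‖pr e x‖ = ⟪z, x⟫_ℝ := by
        field_simp
      linarith
    have h7 : (√((1 - s) / 2) * ‖pr e x‖) ^ 2 ≤ (1 / 2) ^ 2 :=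
      pow_le_pow_left₀ (by positivity) h4 2
    rw [mul_pow, Real.sq_sqrt (by linarith)] at h7
    linarith

variable [FiniteDimensional ℝ E]

/-- Finitely many points on one side. -/
theorem side_card {n : ℕ} (hn : finrank ℝ E = n + 1) (hn1 : 1 ≤ n) {s : ℝ} (hs0 : 0 ≤ s)
    (hs : s < 1 / 3) (hns : n * s ^ 2 < 1) {e : E} (he : ‖e‖ = 1) (T : Finset E)
    (h1 : ∀ x ∈ T, ‖x‖ = 1) (h2 : ∀ x ∈ T, ∀ y ∈ T, x ≠ y → ⟪x, y⟫_ℝ ≤ 1 / 2)
    (h3 : ∀ x ∈ T, 0 < ⟪e, x⟫_ℝ) (h4 : ∀ x ∈ T, 2 * (1 - s) * ‖pr e x‖ ^ 2 ≤ 1) :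
    (T.card : ℝ) * (1 - n * s ^ 2) ≤ n * (1 - s) * (2 + (n + 1) * s) := by
  classical
  have hn0 : (1 : ℝ) ≤ n := by exact_mod_cast hn1
  by_cases hpole : ∃ x ∈ T, pr e x = 0
  · obtain ⟨x, hx, hx0⟩ := hpole
    have hT : T = {x} := by
      refine Finset.eq_singleton_iff_unique_mem.2 ⟨hx, fun y hy => ?_⟩
      by_contra hne
      have e1 := h2 y hy x hx hne
      have e2 := inner_pr_pr he y x
      rw [hx0, inner_zero_right] at e2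
      have e3 := norm_pr he (h1 x hx)
      rw [hx0, norm_zero] at e3
      have e4 : ⟪e, x⟫_ℝ = 1 := by
        have := h3 x hx
        nlinarith
      have e5 := norm_pr he (h1 y hy)
      have e6 := h4 y hy
      have e7 := h3 y hy
      rw [e4, mul_one] at e2
      have e8 : ⟪e, y⟫_ℝ ≤ 1 / 2 := by linarith
      have e9 : ⟪e, y⟫_ℝ ^ 2 ≤ 1 / 4 := by nlinarith
      nlinarith
    rw [hT, Finset.card_singleton]
    have e1 : (1 : ℝ) ≤ n * (1 - s) * (2 + (n + 1) * s) := by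
      have f1 : 2 / 3 ≤ n * (1 - s) := by nlinarith
      have f2 : 2 ≤ 2 + (n + 1) * s := by
        have : 0 ≤ (n + 1) * s := by positivity
        linarith
      nlinarith
    have e2 : 0 ≤ n * s ^ 2 := by positivity
    push_cast
    linarith
  · push Not at hpole
    have h0e : e ≠ 0 := by
      intro h
      rw [h, norm_zero] at he
      exact zero_ne_one he
    have : Fact (finrank ℝ E = n + 1) := ⟨hn⟩
    have hF := Submodule.finrank_orthogonal_span_singleton (𝕜 := ℝ) (n := n) h0e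
    have hmem : ∀ x : E, ‖pr e x‖⁻¹ • pr e x ∈ (ℝ ∙ e)ᗮ := by
      intro x
      rw [Submodule.mem_orthogonal_singleton_iff_inner_right, inner_smul_right, inner_e_pr he,
        mul_zero]
    set u : E → (ℝ ∙ e)ᗮ := fun x => ⟨‖pr e x‖⁻¹ • pr e x, hmem x⟩ with hu
    refine lev hF hn1 hs0 (by linarith) hns T u (fun x hx => ?_) (fun x hx y hy hne => ?_)
    · have hnp : 0 < ‖pr e x‖ := norm_pos_iff.2 (hpole x hx)
      change ‖‖pr e x‖⁻¹ • pr e x‖ = 1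
      rw [norm_smul, norm_inv, norm_norm, inv_mul_cancel₀ hnp.ne']
    · have hnx : 0 < ‖pr e x‖ := norm_pos_iff.2 (hpole x hx)
      have hny : 0 < ‖pr e y‖ := norm_pos_iff.2 (hpole y hy)
      change ⟪‖pr e x‖⁻¹ • pr e x, ‖pr e y‖⁻¹ • pr e y⟫_ℝ ≤ s
      rw [inner_smul_left, inner_smul_right, inner_pr_pr he]
      have e1 := h2 x hx y hy hne
      have e2 := chord hs.le (h3 x hx).le (h3 y hy).le hnx.le hny.le (norm_pr he (h1 x hx))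
        (norm_pr he (h1 y hy)) (h4 x hx) (h4 y hy)
      have e3 : ⟪x, y⟫_ℝ - ⟪e, x⟫_ℝ * ⟪e, y⟫_ℝ ≤ s * (‖pr e x‖ * ‖pr e y‖) := by linarith
      simp only [conj_trivial]
      calc ‖pr e x‖⁻¹ * (‖pr e y‖⁻¹ * (⟪x, y⟫_ℝ - ⟪e, x⟫_ℝ * ⟪e, y⟫_ℝ))
          ≤ ‖pr e x‖⁻¹ * (‖pr e y‖⁻¹ * (s * (‖pr e x‖ * ‖pr e y‖))) := by gcongr
        _ = s := by field_simp

/-- The bound for one side, as a natural number. -/
noncomputable def L3 (n : ℕ) (s : ℝ) : ℕ :=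
  ⌊n * (1 - s) * (2 + (n + 1) * s) / (1 - n * s ^ 2)⌋₊

theorem side_encard {n : ℕ} (hn : finrank ℝ E = n + 1) (hn1 : 1 ≤ n) {s : ℝ} (hs0 : 0 ≤ s)
    (hs : s < 1 / 3) (hns : n * s ^ 2 < 1) {e : E} (he : ‖e‖ = 1) (U : Set E)
    (h1 : ∀ x ∈ U, ‖x‖ = 1) (h2 : ∀ x ∈ U, ∀ y ∈ U, x ≠ y → ⟪x, y⟫_ℝ ≤ 1 / 2)
    (h3 : ∀ x ∈ U, 0 < ⟪e, x⟫_ℝ) (h4 : ∀ x ∈ U, 2 * (1 - s) * ‖pr e x‖ ^ 2 ≤ 1) :
    U.encard ≤ L3 n s := by
  classical
  have hfinset : ∀ T : Finset E, (T : Set E) ⊆ U → T.card ≤ L3 n s := by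
    intro T hT
    have := side_card hn hn1 hs0 hs hns he T (fun x hx => h1 x (hT hx))
      (fun x hx y hy hne => h2 x (hT hx) y (hT hy) hne) (fun x hx => h3 x (hT hx))
      (fun x hx => h4 x (hT hx))
    refine Nat.le_floor ?_
    rw [le_div_iff₀ (by linarith)]
    exact this
  have hfin : U.Finite := by
    by_contra hinf
    obtain ⟨T, hT, hc⟩ := Set.Infinite.exists_subset_card_eq hinf (L3 n s + 1)
    have := hfinset T hT
    omega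
  rw [hfin.encard_eq_coe_toFinset_card]
  have := hfinset hfin.toFinset (by simp)
  exact_mod_cast this

omit [FiniteDimensional ℝ E] in
theorem height_iff {s : ℝ} (hs : s < 1 / 3) {e : E} (he : ‖e‖ = 1) {x : E} (hx : ‖x‖ = 1) :
    √((1 - 2 * s) / (2 * (1 - s))) ≤ |⟪e, x⟫_ℝ| ↔ 2 * (1 - s) * ‖pr e x‖ ^ 2 ≤ 1 := by
  have e1 := norm_pr he hx
  have e2 : 0 < 2 * (1 - s) := by linarith
  rw [Real.sqrt_le_left (abs_nonneg _), sq_abs, div_le_iff₀ e2]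
  constructor <;> intro h <;> nlinarith

/-- At most `L3 n s` points of a kissing configuration lie in a cap. -/
theorem cap_main {n : ℕ} (hn : finrank ℝ E = n + 1) (hn1 : 1 ≤ n) {s : ℝ} (hs0 : 0 ≤ s)
    (hs : s < 1 / 3) (hns : n * s ^ 2 < 1) {X : Set E} (h1 : ∀ x ∈ X, ‖x‖ = 1)
    (h2 : ∀ x ∈ X, ∀ y ∈ X, x ≠ y → ⟪x, y⟫_ℝ ≤ 1 / 2) {e : E} (he : ‖e‖ = 1) :
    {x ∈ X | √((1 - 2 * s) / (2 * (1 - s))) ≤ ⟪e, x⟫_ℝ}.encard ≤ L3 n s := by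
  have hpos : 0 < √((1 - 2 * s) / (2 * (1 - s))) :=
    Real.sqrt_pos.2 (div_pos (by linarith) (by linarith))
  refine side_encard hn hn1 hs0 hs hns he _ (fun x hx => h1 x hx.1)
    (fun x hx y hy hne => h2 x hx.1 y hy.1 hne) (fun x hx => hpos.trans_le hx.2)
    (fun x hx => ?_)
  exact (height_iff hs he (h1 x hx.1)).1 (hx.2.trans (le_abs_self _))

/-- Kissing configurations over a hyperplane section that is a covering. -/
theorem section_main {n : ℕ} (hn : finrank ℝ E = n + 1) (hn1 : 1 ≤ n) {s : ℝ} (hs0 : 0 ≤ s)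
    (hs : s < 1 / 3) (hns : n * s ^ 2 < 1) {X : Set E} (h1 : ∀ x ∈ X, ‖x‖ = 1)
    (h2 : ∀ x ∈ X, ∀ y ∈ X, x ≠ y → ⟪x, y⟫_ℝ ≤ 1 / 2) {e : E} (he : ‖e‖ = 1) {C : Set E}
    (hCX : C ⊆ X) (hCe : ∀ z ∈ C, ⟪e, z⟫_ℝ = 0)
    (hcov : ∀ u : E, ‖u‖ = 1 → ⟪e, u⟫_ℝ = 0 → ∃ z ∈ C, √((1 - s) / 2) ≤ ⟪z, u⟫_ℝ) :
    {x ∈ X | ⟪e, x⟫_ℝ = 0} = C ∧ {x ∈ X | 0 < ⟪e, x⟫_ℝ}.encard ≤ L3 n s ∧
      {x ∈ X | ⟪e, x⟫_ℝ < 0}.encard ≤ L3 n s ∧ X.encard ≤ C.encard + 2 * L3 n s := by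
  have hsmall : ∀ x ∈ X, x ∉ C → 2 * (1 - s) * ‖pr e x‖ ^ 2 ≤ 1 := fun x hx hxC =>
    pr_small hs.le he h2 hCX hCe hcov hx hxC
  have hC : {x ∈ X | ⟪e, x⟫_ℝ = 0} = C := by
    ext x
    constructor
    · rintro ⟨hx, hx0⟩
      by_contra hxC
      have e1 := hsmall x hx hxC
      have e2 := norm_pr he (h1 x hx)
      rw [hx0] at e2
      nlinarith
    · intro hx
      exact ⟨hCX hx, hCe x hx⟩
  have hU : {x ∈ X | 0 < ⟪e, x⟫_ℝ}.encard ≤ L3 n s := by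
    refine side_encard hn hn1 hs0 hs hns he _ (fun x hx => h1 x hx.1)
      (fun x hx y hy hne => h2 x hx.1 y hy.1 hne) (fun x hx => hx.2) (fun x hx => ?_)
    refine hsmall x hx.1 fun h => ?_
    have := hCe x h
    have := hx.2
    linarith
  have hL' : {x : E | -x ∈ X ∧ 0 < ⟪e, x⟫_ℝ}.encard ≤ L3 n s := by
    refine side_encard hn hn1 hs0 hs hns he _ (fun x hx => ?_) (fun x hx y hy hne => ?_)
      (fun x hx => hx.2) (fun x hx => ?_)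
    · have := h1 (-x) hx.1
      rwa [norm_neg] at this
    · have := h2 (-x) hx.1 (-y) hy.1 (fun h => hne (neg_injective h))
      rwa [inner_neg_neg] at this
    · have e1 := hsmall (-x) hx.1 fun h => by
        have e2 := hCe (-x) h
        have e3 := hx.2
        rw [inner_neg_right] at e2
        linarith
      have e2 : pr e (-x) = -pr e x := by
        rw [pr, pr, inner_neg_right, neg_smul]
        abel
      rwa [e2, norm_neg] at e1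
  have hL : {x ∈ X | ⟪e, x⟫_ℝ < 0}.encard ≤ L3 n s := by
    have e1 : {x ∈ X | ⟪e, x⟫_ℝ < 0} = (fun x => -x) '' {x : E | -x ∈ X ∧ 0 < ⟪e, x⟫_ℝ} := by
      ext x
      constructor
      · rintro ⟨hx, hx0⟩
        refine ⟨-x, ⟨by rwa [neg_neg], ?_⟩, neg_neg x⟩
        rw [inner_neg_right]
        linarith
      · rintro ⟨y, ⟨hy, h⟩, rfl⟩
        refine ⟨hy, ?_⟩
        change ⟪e, -y⟫_ℝ < 0
        rw [inner_neg_right]
        linarith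
    rw [e1, neg_injective.encard_image]
    exact hL'
  refine ⟨hC, hU, hL, ?_⟩
  have hX : X ⊆ C ∪ ({x ∈ X | 0 < ⟪e, x⟫_ℝ} ∪ {x ∈ X | ⟪e, x⟫_ℝ < 0}) := by
    intro x hx
    rcases lt_trichotomy ⟪e, x⟫_ℝ 0 with h | h | h
    · exact Or.inr (Or.inr ⟨hx, h⟩)
    · exact Or.inl (hC ▸ ⟨hx, h⟩)
    · exact Or.inr (Or.inl ⟨hx, h⟩)
  calc X.encard ≤ (C ∪ ({x ∈ X | 0 < ⟪e, x⟫_ℝ} ∪ {x ∈ X | ⟪e, x⟫_ℝ < 0})).encard :=
        Set.encard_le_encard hX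
    _ ≤ C.encard + ({x ∈ X | 0 < ⟪e, x⟫_ℝ} ∪ {x ∈ X | ⟪e, x⟫_ℝ < 0}).encard :=
        Set.encard_union_le _ _
    _ ≤ C.encard + (L3 n s + L3 n s) := by
        gcongr
        exact (Set.encard_union_le _ _).trans (add_le_add hU hL)
    _ = C.encard + 2 * L3 n s := by ring

omit [FiniteDimensional ℝ E] in
/-- Over a covering section all other points are high. -/
theorem section_high {s : ℝ} (hs : s < 1 / 3) {X : Set E} (h1 : ∀ x ∈ X, ‖x‖ = 1)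
    (h2 : ∀ x ∈ X, ∀ y ∈ X, x ≠ y → ⟪x, y⟫_ℝ ≤ 1 / 2) {e : E} (he : ‖e‖ = 1) {C : Set E}
    (hCX : C ⊆ X) (hCe : ∀ z ∈ C, ⟪e, z⟫_ℝ = 0)
    (hcov : ∀ u : E, ‖u‖ = 1 → ⟪e, u⟫_ℝ = 0 → ∃ z ∈ C, √((1 - s) / 2) ≤ ⟪z, u⟫_ℝ)
    {x : E} (hx : x ∈ X) (hxC : x ∉ C) : √((1 - 2 * s) / (2 * (1 - s))) ≤ |⟪e, x⟫_ℝ| :=
  (height_iff hs he (h1 x hx)).2 (pr_small hs.le he h2 hCX hCe hcov hx hxC)

end Pool.Agent.Work.MP_e0d3e3_co.Lev
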