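import Pool.Agent.Work.MP_e0d3e3_co.Vectors

/-!
Kissing configurations in dimension five that contain the `D4` root system.
-/

namespace Pool.Agent.Work.MP_e0d3e3_co

open Module
open scoped InnerProductSpace

/-! ### Four nonnegative numbers with small pairwise sums -/

theorem sum_sq_le {a b c d s : ℝ} (ha : 0 ≤ a) (hb : 0 ≤ b) (hc : 0 ≤ c) (hd : 0 ≤ d)
    (hab : a + b ≤ s) (hac : a + c ≤ s) (had : a + d ≤ s) (hbc : b + c ≤ s) (hbd : b + d ≤ s)
    (hcd : c + d ≤ s) : a ^ 2 + b ^ 2 + c ^ 2 + d ^ 2 ≤ s ^ 2 := by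
  have key : ∀ a b c d : ℝ, 0 ≤ b → 0 ≤ c → 0 ≤ d → a + b ≤ s → a + c ≤ s → a + d ≤ s →
      s < 2 * a → a ^ 2 + b ^ 2 + c ^ 2 + d ^ 2 ≤ s ^ 2 := by
    intro a b c d hb hc hd hab hac had h
    have h1 : b ^ 2 ≤ (s - a) ^ 2 := pow_le_pow_left₀ hb (by linarith) 2
    have h2 : c ^ 2 ≤ (s - a) ^ 2 := pow_le_pow_left₀ hc (by linarith) 2
    have h3 : d ^ 2 ≤ (s - a) ^ 2 := pow_le_pow_left₀ hd (by linarith) 2
    have h4 : 0 ≤ (s - a) * (2 * a - s) := mul_nonneg (by linarith) (by linarith)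
    nlinarith
  by_cases h1 : s < 2 * a
  · exact key a b c d hb hc hd hab hac had h1
  by_cases h2 : s < 2 * b
  · have := key b a c d ha hc hd (by linarith) hbc hbd h2
    linarith
  by_cases h3 : s < 2 * c
  · have := key c a b d ha hb hd (by linarith) (by linarith) hcd h3
    linarith
  by_cases h4 : s < 2 * d
  · have := key d a b c ha hb hc (by linarith) (by linarith) (by linarith) h4
    linarith
  have e1 : a ^ 2 ≤ (s / 2) ^ 2 := pow_le_pow_left₀ ha (by linarith) 2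
  have e2 : b ^ 2 ≤ (s / 2) ^ 2 := pow_le_pow_left₀ hb (by linarith) 2
  have e3 : c ^ 2 ≤ (s / 2) ^ 2 := pow_le_pow_left₀ hc (by linarith) 2
  have e4 : d ^ 2 ≤ (s / 2) ^ 2 := pow_le_pow_left₀ hd (by linarith) 2
  nlinarith

theorem deep_cases {a b c d s : ℝ} (hs : 0 < s) (ha : 0 ≤ a) (hb : 0 ≤ b) (hc : 0 ≤ c)
    (hd : 0 ≤ d) (hab : a + b ≤ s) (hac : a + c ≤ s) (had : a + d ≤ s) (hbc : b + c ≤ s)
    (hbd : b + d ≤ s) (hcd : c + d ≤ s) (h : a ^ 2 + b ^ 2 + c ^ 2 + d ^ 2 = s ^ 2) :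
    (a = s ∧ b = 0 ∧ c = 0 ∧ d = 0) ∨ (a = 0 ∧ b = s ∧ c = 0 ∧ d = 0) ∨
    (a = 0 ∧ b = 0 ∧ c = s ∧ d = 0) ∨ (a = 0 ∧ b = 0 ∧ c = 0 ∧ d = s) ∨
    (a = s / 2 ∧ b = s / 2 ∧ c = s / 2 ∧ d = s / 2) := by
  have key : ∀ a b c d : ℝ, 0 ≤ b → 0 ≤ c → 0 ≤ d → a + b ≤ s → a + c ≤ s → a + d ≤ s →
      s < 2 * a → a ^ 2 + b ^ 2 + c ^ 2 + d ^ 2 = s ^ 2 → a = s ∧ b = 0 ∧ c = 0 ∧ d = 0 := by
    intro a b c d hb hc hd hab hac had h h0
    have h1 : b ^ 2 ≤ (s - a) ^ 2 := pow_le_pow_left₀ hb (by linarith) 2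
    have h2 : c ^ 2 ≤ (s - a) ^ 2 := pow_le_pow_left₀ hc (by linarith) 2
    have h3 : d ^ 2 ≤ (s - a) ^ 2 := pow_le_pow_left₀ hd (by linarith) 2
    have h4 : (s - a) * (2 * a - s) ≤ 0 := by nlinarith
    have h5 : s - a ≤ 0 := by
      by_contra hne
      push Not at hne
      have := mul_pos hne (by linarith : 0 < 2 * a - s)
      linarith
    exact ⟨by linarith, by linarith, by linarith, by linarith⟩
  by_cases h1 : s < 2 * a
  · exact Or.inl (key a b c d hb hc hd hab hac had h1 h)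
  by_cases h2 : s < 2 * b
  · obtain ⟨e1, e2, e3, e4⟩ := key b a c d ha hc hd (by linarith) hbc hbd h2 (by linarith)
    exact Or.inr (Or.inl ⟨e2, e1, e3, e4⟩)
  by_cases h3 : s < 2 * c
  · obtain ⟨e1, e2, e3, e4⟩ := key c a b d ha hb hd (by linarith) (by linarith) hcd h3
      (by linarith)
    exact Or.inr (Or.inr (Or.inl ⟨e2, e3, e1, e4⟩))
  by_cases h4 : s < 2 * d
  · obtain ⟨e1, e2, e3, e4⟩ := key d a b c ha hb hc (by linarith) (by linarith) (by linarith) h4
      (by linarith)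
    exact Or.inr (Or.inr (Or.inr (Or.inl ⟨e2, e3, e4, e1⟩)))
  right; right; right; right
  push Not at h1 h2 h3 h4
  have e1 : a ^ 2 ≤ (s / 2) ^ 2 := pow_le_pow_left₀ ha (by linarith) 2
  have e2 : b ^ 2 ≤ (s / 2) ^ 2 := pow_le_pow_left₀ hb (by linarith) 2
  have e3 : c ^ 2 ≤ (s / 2) ^ 2 := pow_le_pow_left₀ hc (by linarith) 2
  have e4 : d ^ 2 ≤ (s / 2) ^ 2 := pow_le_pow_left₀ hd (by linarith) 2
  have f : ∀ t : ℝ, 0 ≤ t → 2 * t ≤ s → (s / 2) ^ 2 ≤ t ^ 2 → t = s / 2 := by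
    intro t ht ht1 ht2
    have h5 : s / 2 ≤ t := (pow_le_pow_iff_left₀ (by linarith) ht two_ne_zero).1 ht2
    linarith
  exact ⟨f a ha h1 (by linarith), f b hb h2 (by linarith), f c hc h3 (by linarith),
    f d hd h4 (by linarith)⟩

/-! ### Basic facts in coordinates -/

/-- The last basis vector. -/
noncomputable def e5 : E5 := EuclideanSpace.single 4 1

theorem norm_e5 : ‖e5‖ = 1 := by
  simp [e5]

theorem inner_e5 (x : E5) : ⟪e5, x⟫_ℝ = x 4 := by
  simp [e5, EuclideanSpace.inner_single_left]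

theorem norm_sq_eq (x : E5) :
    ‖x‖ ^ 2 = x 0 ^ 2 + x 1 ^ 2 + x 2 ^ 2 + x 3 ^ 2 + x 4 ^ 2 := by
  rw [EuclideanSpace.norm_sq_eq, Fin.sum_univ_five]
  simp only [Real.norm_eq_abs, sq_abs]

theorem inner_eq (x y : E5) :
    ⟪x, y⟫_ℝ = x 0 * y 0 + x 1 * y 1 + x 2 * y 2 + x 3 * y 3 + x 4 * y 4 := by
  rw [PiLp.inner_apply, Fin.sum_univ_five]
  simp only [RCLike.inner_apply, conj_trivial]
  ring

theorem finrank_E5 : finrank ℝ E5 = 4 + 1 := by simp

/-- Pairwise sums of coordinates of points of `X` outside the `D4` part. -/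
theorem pair_bounds {X : Set E5} (hX : IsKissing X) (hD : pts d4 ⊆ X) {x : E5} (hx : x ∈ X)
    (hxD : x ∉ pts d4) : |x 0| + |x 1| ≤ √2 / 2 ∧ |x 0| + |x 2| ≤ √2 / 2 ∧
      |x 0| + |x 3| ≤ √2 / 2 ∧ |x 1| + |x 2| ≤ √2 / 2 ∧ |x 1| + |x 3| ≤ √2 / 2 ∧
      |x 2| + |x 3| ≤ √2 / 2 := by
  have hs : √2 * √2 = 2 := Real.mul_self_sqrt (by norm_num)
  have hs0 : 0 < √2 := by positivity
  have key : ∀ v ∈ d4, (v 0 : ℝ) * x 0 + v 1 * x 1 + v 2 * x 2 + v 3 * x 3 + v 4 * x 4 ≤ √2 := by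
    intro v hv
    have h1 : vec v ∈ pts d4 := ⟨v, hv, rfl⟩
    have h2 := hX.2 (vec v) (hD h1) x hx (fun h => hxD (h ▸ h1))
    rw [inner_eq] at h2
    simp only [vec_apply] at h2
    have h3 : (√2 / 4) * ((v 0 : ℝ) * x 0 + v 1 * x 1 + v 2 * x 2 + v 3 * x 3 + v 4 * x 4) ≤
        1 / 2 := by
      linarith
    nlinarith
  have abs_aux : ∀ a b : ℝ, 2 * a + 2 * b ≤ √2 → 2 * a - 2 * b ≤ √2 → -2 * a + 2 * b ≤ √2 →
      -2 * a - 2 * b ≤ √2 → |a| + |b| ≤ √2 / 2 := by
    intro a b h1 h2 h3 h4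
    rcases abs_cases a with ⟨ha, _⟩ | ⟨ha, _⟩ <;> rcases abs_cases b with ⟨hb, _⟩ | ⟨hb, _⟩ <;>
      rw [ha, hb] <;> linarith
  refine ⟨abs_aux _ _ ?_ ?_ ?_ ?_, abs_aux _ _ ?_ ?_ ?_ ?_, abs_aux _ _ ?_ ?_ ?_ ?_,
    abs_aux _ _ ?_ ?_ ?_ ?_, abs_aux _ _ ?_ ?_ ?_ ?_, abs_aux _ _ ?_ ?_ ?_ ?_⟩
  · have := key ![2, 2, 0, 0, 0] (by decide); simp at this; linarith
  · have := key ![2, -2, 0, 0, 0] (by decide); simp at this; linarith
  · have := key ![-2, 2, 0, 0, 0] (by decide); simp at this; linarith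
  · have := key ![-2, -2, 0, 0, 0] (by decide); simp at this; linarith
  · have := key ![2, 0, 2, 0, 0] (by decide); simp at this; linarith
  · have := key ![2, 0, -2, 0, 0] (by decide); simp at this; linarith
  · have := key ![-2, 0, 2, 0, 0] (by decide); simp at this; linarith
  · have := key ![-2, 0, -2, 0, 0] (by decide); simp at this; linarith
  · have := key ![2, 0, 0, 2, 0] (by decide); simp at this; linarith
  · have := key ![2, 0, 0, -2, 0] (by decide); simp at this; linarith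
  · have := key ![-2, 0, 0, 2, 0] (by decide); simp at this; linarith
  · have := key ![-2, 0, 0, -2, 0] (by decide); simp at this; linarith
  · have := key ![0, 2, 2, 0, 0] (by decide); simp at this; linarith
  · have := key ![0, 2, -2, 0, 0] (by decide); simp at this; linarith
  · have := key ![0, -2, 2, 0, 0] (by decide); simp at this; linarith
  · have := key ![0, -2, -2, 0, 0] (by decide); simp at this; linarith
  · have := key ![0, 2, 0, 2, 0] (by decide); simp at this; linarith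
  · have := key ![0, 2, 0, -2, 0] (by decide); simp at this; linarith
  · have := key ![0, -2, 0, 2, 0] (by decide); simp at this; linarith
  · have := key ![0, -2, 0, -2, 0] (by decide); simp at this; linarith
  · have := key ![0, 0, 2, 2, 0] (by decide); simp at this; linarith
  · have := key ![0, 0, 2, -2, 0] (by decide); simp at this; linarith
  · have := key ![0, 0, -2, 2, 0] (by decide); simp at this; linarith
  · have := key ![0, 0, -2, -2, 0] (by decide); simp at this; linarith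

theorem height_sq {X : Set E5} (hX : IsKissing X) (hD : pts d4 ⊆ X) {x : E5} (hx : x ∈ X)
    (hxD : x ∉ pts d4) : 1 / 2 ≤ x 4 ^ 2 := by
  obtain ⟨h1, h2, h3, h4, h5, h6⟩ := pair_bounds hX hD hx hxD
  have h7 := sum_sq_le (abs_nonneg _) (abs_nonneg _) (abs_nonneg _) (abs_nonneg _) h1 h2 h3 h4
    h5 h6
  simp only [sq_abs] at h7
  have h8 := norm_sq_eq x
  rw [hX.1 x hx] at h8
  have h9 : (√2 / 2) ^ 2 = 1 / 2 := by
    rw [div_pow, Real.sq_sqrt (by norm_num)]
    norm_num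
  linarith

theorem d4_last {x : E5} (hx : x ∈ pts d4) : x 4 = 0 := by
  obtain ⟨v, hv, rfl⟩ := hx
  have h : ∀ v ∈ d4, v 4 = 0 := by decide +kernel
  rw [vec_apply, h v hv]
  simp

theorem height_cases {X : Set E5} (hX : IsKissing X) (hD : pts d4 ⊆ X) {x : E5} (hx : x ∈ X) :
    x ∈ pts d4 ∨ √2 / 2 ≤ x 4 ∨ x 4 ≤ -(√2 / 2) := by
  by_cases hxD : x ∈ pts d4
  · exact Or.inl hxD
  right
  have h1 := height_sq hX hD hx hxD
  have h9 : (√2 / 2) ^ 2 = 1 / 2 := by
    rw [div_pow, Real.sq_sqrt (by norm_num)]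
    norm_num
  rw [← h9] at h1
  have h2 := sq_le_sq.1 h1
  rw [abs_of_pos (by positivity)] at h2
  rcases abs_cases (x 4) with ⟨h3, _⟩ | ⟨h3, _⟩
  · left; linarith
  · right; linarith

/-! ### The upper side -/

/-- The points of `X` above the hyperplane. -/
def upper (X : Set E5) : Set E5 := {x | x ∈ X ∧ 0 < x 4}

theorem upper_height {X : Set E5} (hX : IsKissing X) (hD : pts d4 ⊆ X) {x : E5}
    (hx : x ∈ upper X) : √2 / 2 ≤ x 4 := by
  rcases height_cases hX hD hx.1 with h | h | h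
  · have := d4_last h
    have := hx.2
    linarith
  · exact h
  · have := hx.2
    have h1 : 0 < √2 := by positivity
    linarith

theorem upper_finset_card {X : Set E5} (hX : IsKissing X) (hD : pts d4 ⊆ X) (U : Finset E5)
    (hU : (U : Set E5) ⊆ upper X) : U.card ≤ 8 := by
  refine side_card (n := 4) finrank_E5 (by norm_num) norm_e5 U (fun x hx => hX.1 x (hU hx).1)
    (fun x hx => ?_) (fun x hx y hy hne => hX.2 x (hU hx).1 y (hU hy).1 hne)
  rw [inner_e5]
  exact upper_height hX hD (hU hx)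

theorem upper_finite {X : Set E5} (hX : IsKissing X) (hD : pts d4 ⊆ X) : (upper X).Finite := by
  by_contra hinf
  obtain ⟨T, hT, hc⟩ := Set.Infinite.exists_subset_card_eq hinf 9
  have := upper_finset_card hX hD T hT
  omega

theorem upper_encard {X : Set E5} (hX : IsKissing X) (hD : pts d4 ⊆ X) :
    (upper X).encard ≤ 8 := by
  have hfin := upper_finite hX hD
  rw [hfin.encard_eq_coe_toFinset_card]
  have := upper_finset_card hX hD hfin.toFinset (by simp)
  exact_mod_cast this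

/-- Integer coordinates from absolute values. -/
theorem exists_sign {t c : ℝ} (m : ℤ) (hm : 0 ≤ m) (h : |t| = m * c) (hc : 0 < c) :
    ∃ k : ℤ, (k = m ∨ k = -m) ∧ t = k * c := by
  have h0 : (0 : ℝ) ≤ m * c := mul_nonneg (by exact_mod_cast hm) hc.le
  rcases (abs_eq h0).1 h with h | h
  · exact ⟨m, Or.inl rfl, h⟩
  · exact ⟨-m, Or.inr rfl, by rw [h]; push_cast; ring⟩

/-- A point of the upper side at height `√2/2` is a deep hole direction. -/
theorem exists_frame {X : Set E5} (hX : IsKissing X) (hD : pts d4 ⊆ X) {x : E5}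
    (hx : x ∈ X) (hx4 : x 4 = √2 / 2) : ∃ k : Fin 3, ∃ v ∈ g k, x = vec v := by
  have hs0 : 0 < √2 := by positivity
  have hxD : x ∉ pts d4 := by
    intro h
    have := d4_last h
    rw [hx4] at this
    linarith
  obtain ⟨h1, h2, h3, h4, h5, h6⟩ := pair_bounds hX hD hx hxD
  have h9 : (√2 / 2) ^ 2 = 1 / 2 := by
    rw [div_pow, Real.sq_sqrt (by norm_num)]
    norm_num
  have h8 := norm_sq_eq x
  rw [hX.1 x hx, hx4] at h8
  have h10 : |x 0| ^ 2 + |x 1| ^ 2 + |x 2| ^ 2 + |x 3| ^ 2 = (√2 / 2) ^ 2 := by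
    simp only [sq_abs]
    linarith
  have hc : (0 : ℝ) < √2 / 4 := by positivity
  have hv4 : x 4 = ((2 : ℤ) : ℝ) * (√2 / 4) := by rw [hx4]; push_cast; ring
  have build : ∀ a b c d : ℤ, x 0 = a * (√2 / 4) → x 1 = b * (√2 / 4) → x 2 = c * (√2 / 4) →
      x 3 = d * (√2 / 4) → x = vec ![a, b, c, d, 2] := by
    intro a b c d ha hb hc hd
    ext i
    fin_cases i
    · simpa [vec_apply] using ha
    · simpa [vec_apply] using hb
    · simpa [vec_apply] using hc
    · simpa [vec_apply] using hd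
    · simpa [vec_apply] using hv4
  have big : ∀ t : ℝ, |t| = √2 / 2 → ∃ k : ℤ, (k = 2 ∨ k = -2) ∧ t = k * (√2 / 4) := by
    intro t ht
    exact exists_sign 2 (by norm_num) (by rw [ht]; push_cast; ring) hc
  have small : ∀ t : ℝ, |t| = √2 / 2 / 2 → ∃ k : ℤ, (k = 1 ∨ k = -1) ∧ t = k * (√2 / 4) := by
    intro t ht
    exact exists_sign 1 (by norm_num) (by rw [ht]; push_cast; ring) hc
  have zero : ∀ t : ℝ, |t| = 0 → t = ((0 : ℤ) : ℝ) * (√2 / 4) := by
    intro t ht
    rw [abs_eq_zero.1 ht]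
    simp
  rcases deep_cases (by positivity) (abs_nonneg _) (abs_nonneg _) (abs_nonneg _) (abs_nonneg _)
    h1 h2 h3 h4 h5 h6 h10 with ⟨ha, hb, hc', hd⟩ | ⟨ha, hb, hc', hd⟩ | ⟨ha, hb, hc', hd⟩ |
      ⟨ha, hb, hc', hd⟩ | ⟨ha, hb, hc', hd⟩
  · obtain ⟨k, hk, hxk⟩ := big _ ha
    refine ⟨0, _, ?_, build _ _ _ _ hxk (zero _ hb) (zero _ hc') (zero _ hd)⟩
    rcases hk with rfl | rfl <;> decide
  · obtain ⟨k, hk, hxk⟩ := big _ hb
    refine ⟨0, _, ?_, build _ _ _ _ (zero _ ha) hxk (zero _ hc') (zero _ hd)⟩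
    rcases hk with rfl | rfl <;> decide
  · obtain ⟨k, hk, hxk⟩ := big _ hc'
    refine ⟨0, _, ?_, build _ _ _ _ (zero _ ha) (zero _ hb) hxk (zero _ hd)⟩
    rcases hk with rfl | rfl <;> decide
  · obtain ⟨k, hk, hxk⟩ := big _ hd
    refine ⟨0, _, ?_, build _ _ _ _ (zero _ ha) (zero _ hb) (zero _ hc') hxk⟩
    rcases hk with rfl | rfl <;> decide
  · obtain ⟨a, ha', hxa⟩ := small _ ha
    obtain ⟨b, hb', hxb⟩ := small _ hb
    obtain ⟨c, hc'', hxc⟩ := small _ hc'
    obtain ⟨d, hd', hxd⟩ := small _ hd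
    have hmem : ∃ k : Fin 3, ![a, b, c, d, 2] ∈ g k := by
      rcases ha' with rfl | rfl <;> rcases hb' with rfl | rfl <;> rcases hc'' with rfl | rfl <;>
        rcases hd' with rfl | rfl <;> decide
    obtain ⟨k, hk⟩ := hmem
    exact ⟨k, _, hk, build _ _ _ _ hxa hxb hxc hxd⟩

theorem e5_sub_vec (v : Fin 5 → ℤ) :
    √2 • e5 - vec v = vec ![-v 0, -v 1, -v 2, -v 3, 4 - v 4] := by
  ext i
  fin_cases i <;> simp [e5, vec_apply] <;> ring

/-- If there are eight points above the hyperplane, they form one of the three frames. -/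
theorem upper_eq {X : Set E5} (hX : IsKissing X) (hD : pts d4 ⊆ X)
    (h8 : (upper X).encard = 8) : ∃ k : Fin 3, upper X = pts (g k) := by
  classical
  have hfin := upper_finite hX hD
  have hcard : hfin.toFinset.card = 2 * 4 := by
    rw [hfin.encard_eq_coe_toFinset_card] at h8
    have : hfin.toFinset.card = 8 := by exact_mod_cast h8
    rw [this]
  have hmem : ∀ x, x ∈ hfin.toFinset ↔ x ∈ upper X := fun x => hfin.mem_toFinset
  have key := side_eq (n := 4) finrank_E5 (by norm_num) norm_e5 hfin.toFinset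
    (fun x hx => hX.1 x ((hmem x).1 hx).1)
    (fun x hx => by rw [inner_e5]; exact upper_height hX hD ((hmem x).1 hx))
    (fun x hx y hy hne => hX.2 x ((hmem x).1 hx).1 y ((hmem y).1 hy).1 hne) hcard
  have hframe : ∀ x ∈ upper X, ∃ k : Fin 3, ∃ v ∈ g k, x = vec v := by
    intro x hx
    refine exists_frame hX hD hx.1 ?_
    have := (key x ((hmem x).2 hx)).1
    rwa [inner_e5] at this
  have hne : (upper X).Nonempty := by
    rw [← Set.encard_pos, h8]
    norm_num
  obtain ⟨x, hx⟩ := hne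
  obtain ⟨k, v, hv, rfl⟩ := hframe x hx
  refine ⟨k, ?_⟩
  have hsub : upper X ⊆ pts (g k) := by
    intro y hy
    obtain ⟨l, w, hw, rfl⟩ := hframe y hy
    have h1 := (key (vec v) ((hmem _).2 hx)).2.2 (vec w) ((hmem _).2 hy)
    have h2 : k = l := by
      refine g_sep k l v hv w hw ?_
      rcases h1 with h1 | h1 | h1
      · exact Or.inl (vec_injective h1)
      · rw [e5_sub_vec] at h1
        exact Or.inr (Or.inl (vec_injective h1))
      · right; right
        rw [inner_vec] at h1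
        have h3 : ((∑ i, v i * w i : ℤ) : ℝ) = 4 := by linarith
        exact_mod_cast h3
    rw [h2]
    exact ⟨w, hw, rfl⟩
  refine Set.Finite.eq_of_subset_of_encard_le' ?_ hsub ?_
  · rw [← Set.encard_ne_top_iff, encard_pts (g_nodup k)]
    exact WithTop.coe_ne_top
  · rw [h8, encard_pts (g_nodup k), g_length]
    rfl

/-! ### The lower side -/

/-- The reflection in the hyperplane. -/
noncomputable def flipE : E5 ≃ₗᵢ[ℝ] E5 := (ℝ ∙ e5)ᗮ.reflection

theorem flipE_apply (x : E5) : flipE x = x - (2 * x 4) • e5 := by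
  rw [flipE, Submodule.reflection_orthogonal_apply, Submodule.reflection_singleton_apply,
    inner_e5, norm_e5]
  simp only [RCLike.ofReal_real_eq_id, id_eq, one_pow, div_one]
  module

theorem flipE_last (x : E5) : flipE x 4 = -x 4 := by
  rw [flipE_apply]
  simp [e5]
  ring

theorem flipE_flipE (x : E5) : flipE (flipE x) = x := Submodule.reflection_reflection _ x

theorem flipE_vec (v : Fin 5 → ℤ) : flipE (vec v) = vec (flip5 v) := by
  rw [flipE_apply]
  ext i
  fin_cases i <;> simp [e5, vec_apply, flip5]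
  ring

theorem flipE_d4 : flipE '' pts d4 = pts d4 := by
  have h : ∀ v ∈ d4, flip5 v = v := by decide +kernel
  ext x
  constructor
  · rintro ⟨_, ⟨v, hv, rfl⟩, rfl⟩
    rw [flipE_vec, h v hv]
    exact ⟨v, hv, rfl⟩
  · rintro ⟨v, hv, rfl⟩
    exact ⟨vec v, ⟨v, hv, rfl⟩, by rw [flipE_vec, h v hv]⟩

theorem isKissing_image (ψ : E5 ≃ₗᵢ[ℝ] E5) {X : Set E5} (hX : IsKissing X) :
    IsKissing (ψ '' X) := by
  constructor
  · rintro _ ⟨x, hx, rfl⟩
    rw [ψ.norm_map]
    exact hX.1 x hx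
  · rintro _ ⟨x, hx, rfl⟩ _ ⟨y, hy, rfl⟩ hne
    rw [ψ.inner_map_map]
    exact hX.2 x hx y hy (fun h => hne (by rw [h]))

theorem flip_subset {X : Set E5} (hD : pts d4 ⊆ X) : pts d4 ⊆ flipE '' X := by
  rw [← flipE_d4]
  exact Set.image_mono hD

/-- The set splits into the `D4` part, the upper part and the lower part. -/
theorem decomposition {X : Set E5} (hX : IsKissing X) (hD : pts d4 ⊆ X) :
    X = pts d4 ∪ (upper X ∪ flipE '' upper (flipE '' X)) := by
  have hs0 : 0 < √2 := by positivity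
  ext x
  constructor
  · intro hx
    rcases height_cases hX hD hx with h | h | h
    · exact Or.inl h
    · exact Or.inr (Or.inl ⟨hx, by linarith⟩)
    · refine Or.inr (Or.inr ⟨flipE x, ⟨⟨x, hx, rfl⟩, ?_⟩, flipE_flipE x⟩)
      rw [flipE_last]
      linarith
  · rintro (h | h | ⟨_, ⟨⟨y, hy, rfl⟩, _⟩, rfl⟩)
    · exact hD h
    · exact h.1
    · rw [flipE_flipE]
      exact hy

theorem encard_le {X : Set E5} (hX : IsKissing X) (hD : pts d4 ⊆ X) : X.encard ≤ 40 := by
  have h1 := upper_encard hX hD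
  have h2 := upper_encard (isKissing_image flipE hX) (flip_subset hD)
  have h3 : (flipE '' upper (flipE '' X)).encard ≤ 8 := by
    rw [flipE.injective.encard_image]
    exact h2
  have h4 : (pts d4).encard = 24 := by
    rw [encard_pts d4_nodup, d4_length]
    rfl
  calc X.encard = (pts d4 ∪ (upper X ∪ flipE '' upper (flipE '' X))).encard := by
        rw [← decomposition hX hD]
    _ ≤ (pts d4).encard + ((upper X).encard + (flipE '' upper (flipE '' X)).encard) :=
        (Set.encard_union_le _ _).trans (add_le_add_right (Set.encard_union_le _ _) _)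
    _ ≤ 24 + (8 + 8) := by rw [h4]; exact add_le_add_right (add_le_add h1 h3) _
    _ = 40 := by norm_num

end Pool.Agent.Work.MP_e0d3e3_co
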