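import Mathlib

/-!
Second and third moments of finite systems of unit vectors and the resulting bound for spherical
codes (third Levenshtein bound).
-/

namespace Pool.Agent.Work.MP_e0d3e3_co.Lev

open Module Finset
open scoped InnerProductSpace

variable {F : Type*} [NormedAddCommGroup F] [InnerProductSpace ℝ F] [FiniteDimensional ℝ F]

/-- Weighted second moment inequality. -/
theorem moment2 {n : ℕ} (hn : finrank ℝ F = n) {ι : Type*} (Y : Finset ι) (u : ι → F)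
    (w : ι → ℝ) (hu : ∀ i ∈ Y, ‖u i‖ = 1) :
    (∑ i ∈ Y, w i) ^ 2 ≤ n * ∑ i ∈ Y, ∑ j ∈ Y, w i * w j * ⟪u i, u j⟫_ℝ ^ 2 := by
  classical
  subst hn
  set b := stdOrthonormalBasis ℝ F with hb
  set c : ι → Fin (finrank ℝ F) → ℝ := fun i k => ⟪b k, u i⟫_ℝ with hc
  have hin : ∀ i j, ⟪u i, u j⟫_ℝ = ∑ k, c i k * c j k := by
    intro i j
    rw [← b.sum_inner_mul_inner (u i) (u j)]
    refine Finset.sum_congr rfl fun k _ => ?_
    rw [hc, real_inner_comm (b k) (u i)]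
  set M : Fin (finrank ℝ F) → Fin (finrank ℝ F) → ℝ := fun k l => ∑ i ∈ Y, w i * c i k * c i l
    with hM
  have h1 : ∑ i ∈ Y, w i = ∑ k, M k k := by
    rw [hM, Finset.sum_comm]
    refine Finset.sum_congr rfl fun i hi => ?_
    have h2 := hin i i
    rw [real_inner_self_eq_norm_sq, hu i hi] at h2
    calc w i = w i * ∑ k, c i k * c i k := by rw [← h2]; ring
      _ = ∑ k, w i * c i k * c i k := by
        rw [Finset.mul_sum]
        exact Finset.sum_congr rfl fun k _ => by ring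
  have h2 : ∑ i ∈ Y, ∑ j ∈ Y, w i * w j * ⟪u i, u j⟫_ℝ ^ 2 = ∑ k, ∑ l, M k l ^ 2 := by
    have e1 : ∀ i j, w i * w j * ⟪u i, u j⟫_ℝ ^ 2
        = ∑ k, ∑ l, (w i * c i k * c i l) * (w j * c j k * c j l) := by
      intro i j
      rw [hin i j, sq, Finset.sum_mul_sum, Finset.mul_sum]
      refine Finset.sum_congr rfl fun k _ => ?_
      rw [Finset.mul_sum]
      exact Finset.sum_congr rfl fun l _ => by ring
    have e2 : ∀ k l, M k l ^ 2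
        = ∑ i ∈ Y, ∑ j ∈ Y, (w i * c i k * c i l) * (w j * c j k * c j l) := by
      intro k l
      rw [sq, hM, Finset.sum_mul_sum]
    simp_rw [e1, e2]
    calc ∑ i ∈ Y, ∑ j ∈ Y, ∑ k, ∑ l, (w i * c i k * c i l) * (w j * c j k * c j l)
        = ∑ i ∈ Y, ∑ k, ∑ j ∈ Y, ∑ l, (w i * c i k * c i l) * (w j * c j k * c j l) :=
          Finset.sum_congr rfl fun i _ => Finset.sum_comm
      _ = ∑ k, ∑ i ∈ Y, ∑ j ∈ Y, ∑ l, (w i * c i k * c i l) * (w j * c j k * c j l) :=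
          Finset.sum_comm
      _ = ∑ k, ∑ i ∈ Y, ∑ l, ∑ j ∈ Y, (w i * c i k * c i l) * (w j * c j k * c j l) :=
          Finset.sum_congr rfl fun k _ => Finset.sum_congr rfl fun i _ => Finset.sum_comm
      _ = ∑ k, ∑ l, ∑ i ∈ Y, ∑ j ∈ Y, (w i * c i k * c i l) * (w j * c j k * c j l) :=
          Finset.sum_congr rfl fun k _ => Finset.sum_comm
  rw [h1, h2]
  have h3 : (∑ k, M k k) ^ 2 ≤ (finrank ℝ F : ℝ) * ∑ k, M k k ^ 2 := by
    have := sq_sum_le_card_mul_sum_sq (s := (Finset.univ : Finset (Fin (finrank ℝ F))))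
      (f := fun k => M k k)
    simpa using this
  refine h3.trans (mul_le_mul_of_nonneg_left ?_ (Nat.cast_nonneg _))
  refine Finset.sum_le_sum fun k _ => ?_
  exact Finset.single_le_sum (f := fun l => M k l ^ 2) (fun l _ => sq_nonneg _)
    (Finset.mem_univ k)

/-- First against third moment. -/
theorem moment3 {n : ℕ} (hn : finrank ℝ F = n) {ι : Type*} (Y : Finset ι) (u : ι → F)
    (hu : ∀ i ∈ Y, ‖u i‖ = 1) :
    ∑ i ∈ Y, ∑ j ∈ Y, ⟪u i, u j⟫_ℝ ≤ n * ∑ i ∈ Y, ∑ j ∈ Y, ⟪u i, u j⟫_ℝ ^ 3 := by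
  classical
  set b := stdOrthonormalBasis ℝ F with hb
  set c : ι → Fin (finrank ℝ F) → ℝ := fun i k => ⟪b k, u i⟫_ℝ with hc
  have hin : ∀ i j, ⟪u i, u j⟫_ℝ = ∑ k, c i k * c j k := by
    intro i j
    rw [← b.sum_inner_mul_inner (u i) (u j)]
    refine Finset.sum_congr rfl fun k _ => ?_
    rw [hc, real_inner_comm (b k) (u i)]
  have h1 : ∑ i ∈ Y, ∑ j ∈ Y, ⟪u i, u j⟫_ℝ = ∑ k, (∑ i ∈ Y, c i k) ^ 2 := by
    simp_rw [hin]
    calc ∑ i ∈ Y, ∑ j ∈ Y, ∑ k, c i k * c j k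
        = ∑ i ∈ Y, ∑ k, ∑ j ∈ Y, c i k * c j k :=
          Finset.sum_congr rfl fun i _ => Finset.sum_comm
      _ = ∑ k, ∑ i ∈ Y, ∑ j ∈ Y, c i k * c j k := Finset.sum_comm
      _ = ∑ k, (∑ i ∈ Y, c i k) ^ 2 := by
          refine Finset.sum_congr rfl fun k _ => ?_
          rw [sq, Finset.sum_mul_sum]
  have h2 : ∑ i ∈ Y, ∑ j ∈ Y, ⟪u i, u j⟫_ℝ ^ 3
      = ∑ k, ∑ i ∈ Y, ∑ j ∈ Y, c i k * c j k * ⟪u i, u j⟫_ℝ ^ 2 := by
    calc ∑ i ∈ Y, ∑ j ∈ Y, ⟪u i, u j⟫_ℝ ^ 3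
        = ∑ i ∈ Y, ∑ j ∈ Y, ∑ k, c i k * c j k * ⟪u i, u j⟫_ℝ ^ 2 := by
          refine Finset.sum_congr rfl fun i _ => Finset.sum_congr rfl fun j _ => ?_
          rw [← Finset.sum_mul, ← hin]
          ring
      _ = ∑ i ∈ Y, ∑ k, ∑ j ∈ Y, c i k * c j k * ⟪u i, u j⟫_ℝ ^ 2 :=
          Finset.sum_congr rfl fun i _ => Finset.sum_comm
      _ = ∑ k, ∑ i ∈ Y, ∑ j ∈ Y, c i k * c j k * ⟪u i, u j⟫_ℝ ^ 2 := Finset.sum_comm
  rw [h1, h2, Finset.mul_sum]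
  exact Finset.sum_le_sum fun k _ => moment2 hn Y u (fun i => c i k) hu

omit [FiniteDimensional ℝ F] in
/-- The first moment is nonnegative. -/
theorem moment1 {ι : Type*} (Y : Finset ι) (u : ι → F) :
    0 ≤ ∑ i ∈ Y, ∑ j ∈ Y, ⟪u i, u j⟫_ℝ := by
  have h : ∑ i ∈ Y, ∑ j ∈ Y, ⟪u i, u j⟫_ℝ = ⟪∑ i ∈ Y, u i, ∑ j ∈ Y, u j⟫_ℝ := by
    rw [sum_inner]
    exact Finset.sum_congr rfl fun i _ => (inner_sum _ _ _).symm
  rw [h]
  exact real_inner_self_nonneg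

/-- The bound for spherical codes. -/
theorem lev {n : ℕ} (hn : finrank ℝ F = n) (hn1 : 1 ≤ n) {s : ℝ} (hs0 : 0 ≤ s) (hs1 : s ≤ 1)
    (hns : n * s ^ 2 < 1) {ι : Type*} (Y : Finset ι) (u : ι → F) (hu : ∀ i ∈ Y, ‖u i‖ = 1)
    (hsep : ∀ i ∈ Y, ∀ j ∈ Y, i ≠ j → ⟪u i, u j⟫_ℝ ≤ s) :
    (Y.card : ℝ) * (1 - n * s ^ 2) ≤ n * (1 - s) * (2 + (n + 1) * s) := by
  classical
  have hn0 : (1 : ℝ) ≤ n := by exact_mod_cast hn1
  set D : ℝ := 1 + n * s with hD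
  set S1 := ∑ i ∈ Y, ∑ j ∈ Y, ⟪u i, u j⟫_ℝ with hS1
  set S2 := ∑ i ∈ Y, ∑ j ∈ Y, ⟪u i, u j⟫_ℝ ^ 2 with hS2
  set S3 := ∑ i ∈ Y, ∑ j ∈ Y, ⟪u i, u j⟫_ℝ ^ 3 with hS3
  set N : ℝ := (Y.card : ℝ) with hN
  have m1 : 0 ≤ S1 := moment1 Y u
  have m2 : N ^ 2 ≤ n * S2 := by
    have := moment2 hn Y u (fun _ => 1) hu
    simpa using this
  have m3 : S1 ≤ n * S3 := moment3 hn Y u hu
  -- the polynomial
  set f : ℝ → ℝ := fun t => (t - s) * (D * t + (1 + s)) ^ 2 with hf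
  have hsum : ∑ i ∈ Y, ∑ j ∈ Y, f ⟪u i, u j⟫_ℝ
      = D ^ 2 * S3 + (2 * D * (1 + s) - s * D ^ 2) * S2
        + ((1 + s) ^ 2 - 2 * s * D * (1 + s)) * S1 - s * (1 + s) ^ 2 * N ^ 2 := by
    have e1 : ∀ t : ℝ, f t = D ^ 2 * t ^ 3 + (2 * D * (1 + s) - s * D ^ 2) * t ^ 2
        + ((1 + s) ^ 2 - 2 * s * D * (1 + s)) * t - s * (1 + s) ^ 2 := by
      intro t
      rw [hf]
      ring
    simp_rw [e1, Finset.sum_sub_distrib, Finset.sum_add_distrib, ← Finset.mul_sum]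
    rw [Finset.sum_const, Finset.sum_const, nsmul_eq_mul, nsmul_eq_mul]
    ring
  have hup : ∑ i ∈ Y, ∑ j ∈ Y, f ⟪u i, u j⟫_ℝ ≤ N * f 1 := by
    have e1 : ∀ i ∈ Y, ∑ j ∈ Y, f ⟪u i, u j⟫_ℝ ≤ f 1 := by
      intro i hi
      rw [← Finset.add_sum_erase Y _ hi, real_inner_self_eq_norm_sq, hu i hi]
      have e2 : ∑ j ∈ Y.erase i, f ⟪u i, u j⟫_ℝ ≤ 0 := by
        refine Finset.sum_nonpos fun j hj => ?_
        have hj' := Finset.mem_erase.1 hj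
        have := hsep i hi j hj'.2 (Ne.symm hj'.1)
        exact mul_nonpos_of_nonpos_of_nonneg (by linarith) (sq_nonneg _)
      have e3 : f (1 ^ 2) = f 1 := by norm_num
      rw [e3]
      linarith
    calc ∑ i ∈ Y, ∑ j ∈ Y, f ⟪u i, u j⟫_ℝ ≤ ∑ i ∈ Y, f 1 := Finset.sum_le_sum e1
      _ = N * f 1 := by rw [Finset.sum_const, nsmul_eq_mul]
  have hDpos : 0 < D := by positivity
  have hc2 : 0 ≤ 2 * D * (1 + s) - s * D ^ 2 := by
    have e1 : 2 * D * (1 + s) - s * D ^ 2 = D * (2 + s - n * s ^ 2) := by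
      rw [hD]; ring
    rw [e1]
    exact mul_nonneg hDpos.le (by linarith)
  have hc1 : 0 ≤ D ^ 2 + n * ((1 + s) ^ 2 - 2 * s * D * (1 + s)) := by
    have e1 : D ^ 2 + n * ((1 + s) ^ 2 - 2 * s * D * (1 + s))
        = D ^ 2 * (1 - n * s ^ 2) + n * (1 + s - s * D) ^ 2 := by ring
    rw [e1]
    have : 0 ≤ 1 - n * s ^ 2 := by linarith
    positivity
  have hf1 : f 1 = (1 - s) * (2 + (n + 1) * s) ^ 2 := by
    rw [hf, hD]; ring
  have hlow : N ^ 2 * ((2 + (n + 1) * s) * (1 - n * s ^ 2))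
      ≤ n * (∑ i ∈ Y, ∑ j ∈ Y, f ⟪u i, u j⟫_ℝ) := by
    rw [hsum]
    have e1 : D ^ 2 * S1 ≤ D ^ 2 * (n * S3) := mul_le_mul_of_nonneg_left m3 (sq_nonneg _)
    have e2 : (2 * D * (1 + s) - s * D ^ 2) * N ^ 2
        ≤ (2 * D * (1 + s) - s * D ^ 2) * (n * S2) := mul_le_mul_of_nonneg_left m2 hc2
    have e3 : 0 ≤ (D ^ 2 + n * ((1 + s) ^ 2 - 2 * s * D * (1 + s))) * S1 := mul_nonneg hc1 m1
    have e4 : (2 + (n + 1) * s) * (1 - n * s ^ 2)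
        = (2 * D * (1 + s) - s * D ^ 2) - n * (s * (1 + s) ^ 2) := by
      rw [hD]; ring
    rw [e4]
    nlinarith
  rcases Nat.eq_zero_or_pos Y.card with h0 | hpos
  · have : N = 0 := by rw [hN, h0]; simp
    rw [this, zero_mul]
    have : 0 ≤ 1 - s := by linarith
    positivity
  have hNpos : 0 < N := by rw [hN]; exact_mod_cast hpos
  have hk : 0 < 2 + (n + 1) * s := by positivity
  have hfin : N * (2 + (n + 1) * s) * (N * (1 - n * s ^ 2))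
      ≤ N * (2 + (n + 1) * s) * (n * (1 - s) * (2 + (n + 1) * s)) := by
    have e5 : n * (∑ i ∈ Y, ∑ j ∈ Y, f ⟪u i, u j⟫_ℝ) ≤ n * (N * f 1) :=
      mul_le_mul_of_nonneg_left hup (by linarith)
    rw [hf1] at e5
    nlinarith
  exact le_of_mul_le_mul_left hfin (by positivity)

end Pool.Agent.Work.MP_e0d3e3_co.Lev
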