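import Pool.Agent.Work.MP_e0d3e3_co.Five

/-!
The classification of the kissing configurations of size 40 in dimension five that contain the
`D4` root system.
-/

namespace Pool.Agent.Work.MP_e0d3e3_co

open Module
open scoped InnerProductSpace

theorem pts_append (l l' : List (Fin 5 → ℤ)) : pts (l ++ l') = pts l ∪ pts l' := by
  rw [pts, pts, pts, ← Set.image_union]
  congr 1
  ext v
  simp

theorem flipE_pts (l : List (Fin 5 → ℤ)) : flipE '' pts l = pts (l.map flip5) := by
  ext x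
  constructor
  · rintro ⟨_, ⟨v, hv, rfl⟩, rfl⟩
    rw [flipE_vec]
    exact ⟨flip5 v, List.mem_map_of_mem hv, rfl⟩
  · rintro ⟨w, hw, rfl⟩
    obtain ⟨v, hv, rfl⟩ := List.mem_map.1 hw
    exact ⟨vec v, ⟨v, hv, rfl⟩, flipE_vec v⟩

theorem eq_full {X : Set E5} (hX : IsKissing X) (hD : pts d4 ⊆ X) (h : X.encard = 40) :
    ∃ a b : Fin 3, X = pts (full a b) := by
  have h1 := upper_encard hX hD
  have h2 := upper_encard (isKissing_image flipE hX) (flip_subset hD)
  have h4 : (pts d4).encard = 24 := by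
    rw [encard_pts d4_nodup, d4_length]
    rfl
  have h5 : X.encard ≤ 24 + ((upper X).encard + (upper (flipE '' X)).encard) := by
    calc X.encard = (pts d4 ∪ (upper X ∪ flipE '' upper (flipE '' X))).encard := by
          rw [← decomposition hX hD]
      _ ≤ (pts d4).encard + ((upper X).encard + (flipE '' upper (flipE '' X)).encard) :=
          (Set.encard_union_le _ _).trans (add_le_add_right (Set.encard_union_le _ _) _)
      _ = 24 + ((upper X).encard + (upper (flipE '' X)).encard) := by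
          rw [h4, flipE.injective.encard_image]
  rw [h] at h5
  have h6 : (upper X).encard = 8 ∧ (upper (flipE '' X)).encard = 8 := by
    generalize (upper X).encard = u at h1 h5 ⊢
    generalize (upper (flipE '' X)).encard = l at h2 h5 ⊢
    have hu : u ≠ ⊤ := ne_top_of_le_ne_top (by decide) h1
    have hl : l ≠ ⊤ := ne_top_of_le_ne_top (by decide) h2
    lift u to ℕ using hu
    lift l to ℕ using hl
    have e1 : u ≤ 8 := by exact_mod_cast h1
    have e2 : l ≤ 8 := by exact_mod_cast h2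
    have e3 : 40 ≤ 24 + (u + l) := by exact_mod_cast h5
    have e4 : u = 8 := by omega
    have e5 : l = 8 := by omega
    rw [e4, e5]
    exact ⟨rfl, rfl⟩
  obtain ⟨a, ha⟩ := upper_eq hX hD h6.1
  obtain ⟨b, hb⟩ := upper_eq (isKissing_image flipE hX) (flip_subset hD) h6.2
  refine ⟨a, b, ?_⟩
  rw [full, pts_append, pts_append, ← flipE_pts, ← ha, ← hb, Set.union_assoc]
  exact decomposition hX hD

/-! ### Identification of `D5` and `L5` -/

theorem vec_two_mul (w : Fin 5 → ℤ) (x : E5) (h : ∀ i, x i = w i * (√2 / 2)) :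
    x = vec fun i => 2 * w i := by
  ext i
  rw [h, vec_apply]
  push_cast
  ring

theorem box_of_sum {w : Fin 5 → ℤ} (h : ∑ i, w i ^ 2 = 2) :
    w ∈ Fintype.piFinset fun _ : Fin 5 => ({-1, 0, 1} : Finset ℤ) := by
  rw [Fintype.mem_piFinset]
  intro i
  have h1 : w i ^ 2 ≤ 2 := by
    rw [← h]
    exact Finset.single_le_sum (f := fun i => w i ^ 2) (fun j _ => sq_nonneg _)
      (Finset.mem_univ i)
  have h2 : -1 ≤ w i := by nlinarith
  have h3 : w i ≤ 1 := by nlinarith
  have h4 : w i = -1 ∨ w i = 0 ∨ w i = 1 := by omega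
  rcases h4 with h4 | h4 | h4 <;> rw [h4] <;> decide

theorem D5_eq : D5 = pts (full 0 0) := by
  have h1 : ∀ w ∈ Fintype.piFinset fun _ : Fin 5 => ({-1, 0, 1} : Finset ℤ),
      ∑ i, w i ^ 2 = 2 → (fun i => 2 * w i) ∈ full 0 0 := by decide +kernel
  have h2 : ∀ v ∈ full 0 0, (∀ i, v i = 2 * (v i / 2)) ∧ ∑ i, (v i / 2) ^ 2 = 2 := by
    decide +kernel
  ext x
  constructor
  · rintro ⟨w, hw, hx⟩
    rw [vec_two_mul w x hx]
    exact ⟨_, h1 w (box_of_sum hw) hw, rfl⟩
  · rintro ⟨v, hv, rfl⟩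
    refine ⟨fun i => v i / 2, (h2 v hv).2, fun i => ?_⟩
    have h3 := (h2 v hv).1 i
    rw [vec_apply]
    have h4 : (v i : ℝ) = 2 * ((v i / 2 : ℤ) : ℝ) := by exact_mod_cast h3
    rw [h4]
    ring

theorem L5_eq : L5 = pts (full 0 1) := by
  have h1 : ∀ w ∈ Fintype.piFinset fun _ : Fin 5 => ({-1, 0, 1} : Finset ℤ),
      ∑ i, w i ^ 2 = 2 → 0 ≤ w 4 → (fun i => 2 * w i) ∈ full 0 1 := by decide +kernel
  have h2 : ∀ v ∈ full 0 1, ((∀ i, v i = 2 * (v i / 2)) ∧ ∑ i, (v i / 2) ^ 2 = 2 ∧ 0 ≤ v 4) ∨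
      (v 4 = -2 ∧ |v 0| = 1 ∧ |v 1| = 1 ∧ |v 2| = 1 ∧ |v 3| = 1 ∧
        v 0 * v 1 * v 2 * v 3 = 1) := by
    decide +kernel
  have hc : (0 : ℝ) < √2 / 4 := by positivity
  ext x
  constructor
  · rintro (⟨⟨w, hw, hx⟩, h0⟩ | ⟨h4, ha, hb, hc', hd, hprod⟩)
    · rw [vec_two_mul w x hx]
      refine ⟨_, h1 w (box_of_sum hw) hw ?_, rfl⟩
      rw [hx 4] at h0
      have h3 : (0 : ℝ) ≤ w 4 := by
        by_contra hne
        push Not at hne
        have := mul_neg_of_neg_of_pos hne (by positivity : (0 : ℝ) < √2 / 2)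
        linarith
      exact_mod_cast h3
    · have small : ∀ t : ℝ, |t| = √2 / 4 → ∃ k : ℤ, (k = 1 ∨ k = -1) ∧ t = k * (√2 / 4) := by
        intro t ht
        exact exists_sign 1 (by norm_num) (by rw [ht]; push_cast; ring) hc
      obtain ⟨a, ha', hxa⟩ := small _ ha
      obtain ⟨b, hb', hxb⟩ := small _ hb
      obtain ⟨c, hc'', hxc⟩ := small _ hc'
      obtain ⟨d, hd', hxd⟩ := small _ hd
      have hx : x = vec ![a, b, c, d, -2] := by
        ext i
        fin_cases i
        · simpa [vec_apply] using hxa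
        · simpa [vec_apply] using hxb
        · simpa [vec_apply] using hxc
        · simpa [vec_apply] using hxd
        · simp only [vec_apply]
          change x 4 = _
          rw [h4]
          norm_num
          ring
      have hpos : 0 < a * b * c * d := by
        rw [hxa, hxb, hxc, hxd] at hprod
        have h5 : (a : ℝ) * (√2 / 4) * (b * (√2 / 4)) * (c * (√2 / 4)) * (d * (√2 / 4)) =
            (a * b * c * d) * (√2 / 4) ^ 4 := by ring
        rw [h5] at hprod
        have h6 : (0 : ℝ) < a * b * c * d := by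
          by_contra hne
          push Not at hne
          have := mul_nonpos_of_nonpos_of_nonneg hne (by positivity : (0 : ℝ) ≤ (√2 / 4) ^ 4)
          linarith
        exact_mod_cast h6
      rw [hx]
      refine ⟨_, ?_, rfl⟩
      rcases ha' with rfl | rfl <;> rcases hb' with rfl | rfl <;> rcases hc'' with rfl | rfl <;>
        rcases hd' with rfl | rfl <;>
        first
          | (exfalso; revert hpos; decide)
          | (change _ ∈ full 0 1; decide +kernel)
  · rintro ⟨v, hv, rfl⟩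
    rcases h2 v hv with ⟨h3, h4, h5⟩ | ⟨h4, ha, hb, hc', hd, hp⟩
    · left
      refine ⟨⟨fun i => v i / 2, h4, fun i => ?_⟩, ?_⟩
      · have h6 : (v i : ℝ) = 2 * ((v i / 2 : ℤ) : ℝ) := by exact_mod_cast h3 i
        rw [vec_apply, h6]
        ring
      · rw [vec_apply]
        have : (0 : ℝ) ≤ v 4 := by exact_mod_cast h5
        positivity
    · right
      have habs : ∀ i, |v i| = 1 → |vec v i| = √2 / 4 := by
        intro i hi
        rw [vec_apply, abs_mul, abs_of_pos hc]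
        have : |(v i : ℝ)| = 1 := by exact_mod_cast hi
        rw [this, one_mul]
      refine ⟨?_, habs 0 ha, habs 1 hb, habs 2 hc', habs 3 hd, ?_⟩
      · rw [vec_apply, h4]
        push_cast
        ring
      · simp only [vec_apply]
        have h5 : (v 0 : ℝ) * (√2 / 4) * (v 1 * (√2 / 4)) * (v 2 * (√2 / 4)) *
            (v 3 * (√2 / 4)) = ((v 0 * v 1 * v 2 * v 3 : ℤ) : ℝ) * (√2 / 4) ^ 4 := by
          push_cast
          ring
        rw [h5, hp]
        positivity

/-! ### Reduction to coordinates -/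

/-- The inclusion of `ℝ⁴` as the hyperplane of vanishing last coordinate. -/
noncomputable def incl : E4 →ₗᵢ[ℝ] E5 where
  toFun := fun x => WithLp.toLp 2 ![x 0, x 1, x 2, x 3, 0]
  map_add' := by
    intro x y
    ext i
    fin_cases i <;> simp
  map_smul' := by
    intro c x
    ext i
    fin_cases i <;> simp
  norm_map' := by
    intro x
    have h1 : ‖x‖ ^ 2 = x 0 ^ 2 + x 1 ^ 2 + x 2 ^ 2 + x 3 ^ 2 := by
      rw [EuclideanSpace.norm_sq_eq, Fin.sum_univ_four]
      simp only [Real.norm_eq_abs, sq_abs]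
    have h2 := norm_sq_eq (WithLp.toLp 2 ![x 0, x 1, x 2, x 3, 0])
    refine (pow_left_inj₀ (norm_nonneg _) (norm_nonneg _) two_ne_zero).1 ?_
    change ‖(WithLp.toLp 2 ![x 0, x 1, x 2, x 3, 0] : E5)‖ ^ 2 = _
    rw [h1, h2]
    simp

theorem incl_D4 : pts d4 ⊆ incl '' D4 := by
  have h : ∀ v ∈ d4, (∀ i, v i = 2 * (v i / 2)) ∧ v 4 = 0 ∧
      ∑ i : Fin 4, (v i.castSucc / 2) ^ 2 = 2 := by decide +kernel
  rintro _ ⟨v, hv, rfl⟩
  obtain ⟨h1, h2, h3⟩ := h v hv
  have h4 : ∀ i, (v i : ℝ) = 2 * ((v i / 2 : ℤ) : ℝ) := fun i => by exact_mod_cast h1 i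
  refine ⟨WithLp.toLp 2 fun i : Fin 4 => (v i.castSucc : ℝ) * (√2 / 4),
    ⟨fun i => v i.castSucc / 2, h3, fun i => ?_⟩, ?_⟩
  · change (v i.castSucc : ℝ) * (√2 / 4) = _
    rw [h4]
    ring
  · ext i
    fin_cases i
    · rfl
    · rfl
    · rfl
    · rfl
    · rw [vec_apply]
      change (0 : ℝ) = (v 4 : ℝ) * (√2 / 4)
      rw [h2]
      simp

/-- Every isometric embedding of `ℝ⁴` is the standard one up to an isometry of `ℝ⁵`. -/
theorem exists_factor (φ : E4 →ₗᵢ[ℝ] E5) : ∃ ψ : E5 ≃ₗᵢ[ℝ] E5, ∀ x, ψ (incl x) = φ x := by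
  let L : LinearMap.range incl.toLinearMap →ₗᵢ[ℝ] E5 :=
    φ.comp (incl.equivRange.symm).toLinearIsometry
  refine ⟨L.extend.toLinearIsometryEquiv rfl, fun x => ?_⟩
  have h1 := L.extend_apply ⟨incl x, ⟨x, rfl⟩⟩
  change L.extend (incl x) = φ x
  rw [h1]
  change φ (incl.equivRange.symm ⟨incl x, ⟨x, rfl⟩⟩) = φ x
  congr 1
  rw [LinearIsometryEquiv.symm_apply_eq]
  rfl

/-- Kissing configurations in dimension five that contain a copy of the `D4` root system. -/
theorem main (X : Set E5) (hX : IsKissing X) (φ : E4 →ₗᵢ[ℝ] E5) (hφ : φ '' D4 ⊆ X) :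
    X.encard ≤ 40 ∧
      (X.encard = 40 ↔ ∃ ψ : E5 ≃ₗᵢ[ℝ] E5, X = ψ '' D5 ∨ X = ψ '' L5) := by
  obtain ⟨ψ, hψ⟩ := exists_factor φ
  have hD : pts d4 ⊆ ψ.symm '' X := by
    intro x hx
    obtain ⟨y, hy, rfl⟩ := incl_D4 hx
    refine ⟨φ y, hφ ⟨y, hy, rfl⟩, ?_⟩
    rw [← hψ, LinearIsometryEquiv.symm_apply_apply]
  have hK := isKissing_image ψ.symm hX
  have hXX : X = ψ '' (ψ.symm '' X) := by
    rw [← Set.image_comp]
    ext x
    simp
  have hcard : (ψ.symm '' X).encard = X.encard := ψ.symm.injective.encard_image X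
  refine ⟨by rw [← hcard]; exact encard_le hK hD, fun h => ?_, ?_⟩
  · rw [← hcard] at h
    obtain ⟨a, b, hab⟩ := eq_full hK hD h
    have h1 : ∃ ψ' : E5 ≃ₗᵢ[ℝ] E5, X = ψ' '' (pts (full a b)) := ⟨ψ, by rw [← hab]; exact hXX⟩
    rcases full_iso a b with h2 | h2
    · obtain ⟨ψ', h3⟩ := iso_trans h1 h2
      exact ⟨ψ', Or.inl (by rw [D5_eq]; exact h3)⟩
    · obtain ⟨ψ', h3⟩ := iso_trans h1 h2
      exact ⟨ψ', Or.inr (by rw [L5_eq]; exact h3)⟩
  · rintro ⟨ψ', rfl | rfl⟩
    · rw [ψ'.injective.encard_image, D5_eq, encard_pts (full_nodup _ _), full_length]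
      rfl
    · rw [ψ'.injective.encard_image, L5_eq, encard_pts (full_nodup _ _), full_length]
      rfl

end Pool.Agent.Work.MP_e0d3e3_co
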