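import Pool.Agent.Work.MP_e0d3e3_co.Tensor4

set_option autoImplicit false

/-!
Kissing configurations whose graph of pairs at angles larger than 120 degrees is bipartite.
-/

namespace Pool.Agent.Work.MP_e0d3e3_co.Obtuse

open Finset

variable {n : ℕ}

open Classical in
/-- The polynomial `t ^ 2 (t ^ 2 - 1 / 4)`. -/
lemma upper (S : Finset (Fin n → ℝ)) (h1 : ∀ x ∈ S, ∑ a, x a ^ 2 = 1) :
    ∑ x ∈ S, ∑ y ∈ S, (∑ a, x a * y a) ^ 4 - (∑ x ∈ S, ∑ y ∈ S, (∑ a, x a * y a) ^ 2) / 4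
      + ∑ x ∈ S, ∑ y ∈ S, (if x = y then (0 : ℝ) else
        (∑ a, x a * y a) ^ 2 * (1 / 4 - (∑ a, x a * y a) ^ 2)) = 3 / 4 * (S.card : ℝ) := by
  have e : ∀ x ∈ S, ∑ y ∈ S, ((∑ a, x a * y a) ^ 4 - (∑ a, x a * y a) ^ 2 / 4
      + (if x = y then (0 : ℝ) else (∑ a, x a * y a) ^ 2 * (1 / 4 - (∑ a, x a * y a) ^ 2)))
      = 3 / 4 := by
    intro x hx
    rw [sum_eq_single_of_mem x hx]
    · have h : ∑ a, x a * x a = 1 := by
        rw [← h1 x hx]
        exact sum_congr rfl fun a _ => by ring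
      rw [if_pos rfl, h]
      norm_num
    · intro y _ hy
      rw [if_neg (Ne.symm hy)]
      ring
  have h3 : ∑ x ∈ S, ∑ y ∈ S, ((∑ a, x a * y a) ^ 4 - (∑ a, x a * y a) ^ 2 / 4
      + (if x = y then (0 : ℝ) else (∑ a, x a * y a) ^ 2 * (1 / 4 - (∑ a, x a * y a) ^ 2)))
      = 3 / 4 * (S.card : ℝ) := by
    rw [sum_congr rfl e, sum_const, nsmul_eq_mul]
    ring
  simp_rw [sum_add_distrib, sum_sub_distrib, ← sum_div] at h3
  exact h3

/-- The linear programming bound for lines at angles at least 60 degrees. -/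
lemma line_bound (S : Finset (Fin n → ℝ)) (hn : 0 < n) (hn9 : n ≤ 9)
    (h1 : ∀ x ∈ S, ∑ a, x a ^ 2 = 1)
    (h2 : ∀ x ∈ S, ∀ y ∈ S, x ≠ y → (∑ a, x a * y a) ^ 2 ≤ 1 / 4) :
    (S.card : ℝ) * (10 - n) ≤ 3 * n * (n + 2) := by
  classical
  have hu := upper S h1
  have h4 := moment_four S h1
  have h2' := moment_two S hn h1
  have hN : 0 ≤ ∑ x ∈ S, ∑ y ∈ S, (if x = y then (0 : ℝ) else
        (∑ a, x a * y a) ^ 2 * (1 / 4 - (∑ a, x a * y a) ^ 2)) := by
    refine sum_nonneg fun x hx => sum_nonneg fun y hy => ?_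
    split_ifs with hxy
    · exact le_rfl
    · exact mul_nonneg (sq_nonneg _) (by linarith [h2 x hx y hy hxy])
  set P4 := ∑ x ∈ S, ∑ y ∈ S, (∑ a, x a * y a) ^ 4
  set P2 := ∑ x ∈ S, ∑ y ∈ S, (∑ a, x a * y a) ^ 2
  set Q := ∑ x ∈ S, ∑ y ∈ S, (if x = y then (0 : ℝ) else
        (∑ a, x a * y a) ^ 2 * (1 / 4 - (∑ a, x a * y a) ^ 2))
  set N : ℝ := (S.card : ℝ) with hNd
  have hn' : (0 : ℝ) < n := by exact_mod_cast hn
  have hn9' : (n : ℝ) ≤ 9 := by exact_mod_cast hn9
  have hN0 : 0 ≤ N := by rw [hNd]; positivity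
  -- clear denominators
  have k1 : 0 ≤ (P4 - 6 / (n + 4) * P2 + 3 * N ^ 2 / ((n + 2) * (n + 4)))
      * ((n + 2) * (n + 4)) := mul_nonneg h4 (by positivity)
  have k2 : (P4 - 6 / (n + 4) * P2 + 3 * N ^ 2 / ((n + 2) * (n + 4))) * ((n + 2) * (n + 4))
      = P4 * ((n + 2) * (n + 4)) - 6 * (n + 2) * P2 + 3 * N ^ 2 := by
    field_simp
  rw [k2] at k1
  have k3 : P4 = 3 / 4 * N + P2 / 4 - Q := by linarith
  rw [k3] at k1
  have k4 : 0 ≤ 3 / 4 * N * ((n + 2) * (n + 4)) - (n + 2) * (20 - n) / 4 * P2 + 3 * N ^ 2 := by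
    have : 0 ≤ Q * ((n + 2) * (n + 4)) := mul_nonneg hN (by positivity)
    nlinarith
  have k5 : (n + 2) * (20 - n) / 4 * N ^ 2 ≤ (n + 2) * (20 - n) / 4 * (n * P2) :=
    mul_le_mul_of_nonneg_left h2' (by nlinarith)
  have k6 : N ^ 2 * (10 - n) * (n + 4) ≤ 3 * n * (n + 2) * (n + 4) * N := by
    have := mul_nonneg hn'.le k4
    nlinarith
  by_cases hN1 : N = 0
  · rw [hN1, zero_mul]
    positivity
  · have hNp : 0 < N := lt_of_le_of_ne hN0 (Ne.symm hN1)
    have k7 : (N * (n + 4)) * (N * (10 - n)) ≤ (N * (n + 4)) * (3 * n * (n + 2)) := by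
      nlinarith
    exact le_of_mul_le_mul_left k7 (by positivity)

/-- At most 20 lines of `ℝ^5` at angles at least 60 degrees. -/
lemma line_five (S : Finset (Fin 5 → ℝ)) (h1 : ∀ x ∈ S, ∑ a, x a ^ 2 = 1)
    (h2 : ∀ x ∈ S, ∀ y ∈ S, x ≠ y → (∑ a, x a * y a) ^ 2 ≤ 1 / 4) : S.card ≤ 20 := by
  classical
  have hb := line_bound S (by norm_num) (by norm_num) h1 h2
  have hb' : S.card ≤ 21 := by
    have : (S.card : ℝ) ≤ 21 := by push_cast at hb; linarith
    exact_mod_cast this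
  by_contra hcon
  have hc : S.card = 21 := by omega
  have hu := upper S h1
  have h4 := moment_four S h1
  have h2' := moment_two S (by norm_num) h1
  have hterm : ∀ x ∈ S, ∀ y ∈ S, 0 ≤ (if x = y then (0 : ℝ) else
        (∑ a, x a * y a) ^ 2 * (1 / 4 - (∑ a, x a * y a) ^ 2)) := by
    intro x hx y hy
    split_ifs with hxy
    · exact le_rfl
    · exact mul_nonneg (sq_nonneg _) (by linarith [h2 x hx y hy hxy])
  rw [hc] at hu h4 h2'
  push_cast at hu h4 h2'
  norm_num at h4 h2'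
  have hQ0 : 0 ≤ ∑ x ∈ S, ∑ y ∈ S, (if x = y then (0 : ℝ) else
        (∑ a, x a * y a) ^ 2 * (1 / 4 - (∑ a, x a * y a) ^ 2)) :=
    sum_nonneg fun x hx => sum_nonneg fun y hy => hterm x hx y hy
  have hQ : ∑ x ∈ S, ∑ y ∈ S, (if x = y then (0 : ℝ) else
        (∑ a, x a * y a) ^ 2 * (1 / 4 - (∑ a, x a * y a) ^ 2)) = 0 := by
    linarith
  have hP2 : 5 * ∑ x ∈ S, ∑ y ∈ S, (∑ a, x a * y a) ^ 2 = 441 := by
    linarith
  -- every inner product is `0` or `± 1 / 2`
  have hval : ∀ x ∈ S, ∀ y ∈ S, ∃ m : ℕ, 4 * (∑ a, x a * y a) ^ 2 = m := by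
    intro x hx y hy
    by_cases hxy : x = y
    · refine ⟨4, ?_⟩
      have h : ∑ a, x a * y a = 1 := by
        rw [← hxy, ← h1 x hx]
        exact sum_congr rfl fun a _ => by ring
      rw [h]
      norm_num
    · have h5 := (sum_eq_zero_iff_of_nonneg (fun x hx => sum_nonneg fun y hy =>
        hterm x hx y hy)).1 hQ x hx
      have h6 := (sum_eq_zero_iff_of_nonneg (fun y hy => hterm x hx y hy)).1 h5 y hy
      rw [if_neg hxy] at h6
      rcases mul_eq_zero.1 h6 with h7 | h7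
      · exact ⟨0, by rw [h7]; simp⟩
      · exact ⟨1, by push_cast; linarith⟩
  choose! m hm using hval
  have hsum : 4 * ∑ x ∈ S, ∑ y ∈ S, (∑ a, x a * y a) ^ 2
      = ((∑ x ∈ S, ∑ y ∈ S, m x y : ℕ) : ℝ) := by
    push_cast
    rw [mul_sum]
    refine sum_congr rfl fun x hx => ?_
    rw [mul_sum]
    exact sum_congr rfl fun y hy => hm x hx y hy
  have hfin : (5 * (∑ x ∈ S, ∑ y ∈ S, m x y) : ℕ) = 1764 := by
    have : ((5 * (∑ x ∈ S, ∑ y ∈ S, m x y) : ℕ) : ℝ) = ((1764 : ℕ) : ℝ) := by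
      push_cast at hsum ⊢
      linarith
    exact_mod_cast this
  omega

/-- The dimensions and the numbers of lines. -/
def Dim (n K : ℕ) : Prop := (n = 5 ∧ K = 20) ∨ (n = 6 ∧ K = 36) ∨ (n = 7 ∧ K = 63)

lemma line_all {K : ℕ} (hK : Dim n K) (S : Finset (Fin n → ℝ))
    (h1 : ∀ x ∈ S, ∑ a, x a ^ 2 = 1)
    (h2 : ∀ x ∈ S, ∀ y ∈ S, x ≠ y → (∑ a, x a * y a) ^ 2 ≤ 1 / 4) : S.card ≤ K := by
  rcases hK with ⟨rfl, rfl⟩ | ⟨rfl, rfl⟩ | ⟨rfl, rfl⟩
  · exact line_five S h1 h2
  · have hb := line_bound S (by norm_num) (by norm_num) h1 h2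
    have : (S.card : ℝ) ≤ (36 : ℕ) := by push_cast at hb ⊢; linarith
    exact_mod_cast this
  · have hb := line_bound S (by norm_num) (by norm_num) h1 h2
    have : (S.card : ℝ) ≤ (63 : ℕ) := by push_cast at hb ⊢; linarith
    exact_mod_cast this

/-- Points with pairwise inner products between `- 1 / 2` and `1 / 2`. -/
theorem half_bound {K : ℕ} (hK : Dim n K) (S : Finset (EuclideanSpace ℝ (Fin n)))
    (h1 : ∀ x ∈ S, ‖x‖ = 1)
    (h2 : ∀ x ∈ S, ∀ y ∈ S, x ≠ y → inner ℝ x y ≤ 1 / 2)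
    (h3 : ∀ x ∈ S, ∀ y ∈ S, -(1 / 2) ≤ inner ℝ x y) : S.card ≤ K := by
  classical
  have hin : ∀ x y : EuclideanSpace ℝ (Fin n), ∑ a, x a * y a = inner ℝ x y := by
    intro x y
    rw [PiLp.inner_apply]
    refine sum_congr rfl fun a _ => ?_
    simp [mul_comm]
  let φ : EuclideanSpace ℝ (Fin n) ↪ (Fin n → ℝ) :=
    ⟨fun x a => x a, fun x y h => by
      ext a
      exact congrFun h a⟩
  have := line_all hK (S.map φ) (by
    intro x hx
    rw [mem_map] at hx
    obtain ⟨x, hx, rfl⟩ := hx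
    show ∑ a, x a ^ 2 = 1
    have h := hin x x
    rw [real_inner_self_eq_norm_sq, h1 x hx] at h
    rw [show (∑ a, x a ^ 2) = ∑ a, x a * x a from sum_congr rfl fun a _ => pow_two _, h]
    norm_num) (by
    intro x hx y hy hxy
    rw [mem_map] at hx hy
    obtain ⟨x, hx, rfl⟩ := hx
    obtain ⟨y, hy, rfl⟩ := hy
    show (∑ a, x a * y a) ^ 2 ≤ 1 / 4
    rw [hin]
    have h4 := h2 x hx y hy (fun h => hxy (by rw [h]))
    have h5 := h3 x hx y hy
    nlinarith)
  rwa [card_map] at this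

/-- No three vectors at pairwise angles larger than 120 degrees. -/
lemma no_triangle {a b c : EuclideanSpace ℝ (Fin n)} (ha : ‖a‖ = 1) (hb : ‖b‖ = 1)
    (hc : ‖c‖ = 1) (hab : inner ℝ a b < -(1 / 2 : ℝ)) (hac : inner ℝ a c < -(1 / 2 : ℝ))
    (hbc : inner ℝ b c < -(1 / 2 : ℝ)) : False := by
  have h : 0 ≤ ‖a + b + c‖ ^ 2 := by positivity
  have e : ‖a + b + c‖ ^ 2 = ‖a‖ ^ 2 + ‖b‖ ^ 2 + ‖c‖ ^ 2 + 2 * inner ℝ a b + 2 * inner ℝ a c
      + 2 * inner ℝ b c := by
    rw [norm_add_sq_real, norm_add_sq_real, inner_add_left]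
    ring
  rw [e, ha, hb, hc] at h
  linarith

open Classical in
/-- Half of the paired points together with an independent set of unpaired points. -/
theorem key {K : ℕ} (hK : Dim n K) (X : Finset (EuclideanSpace ℝ (Fin n)))
    (h1 : ∀ x ∈ X, ‖x‖ = 1)
    (h2 : ∀ x ∈ X, ∀ y ∈ X, x ≠ y → inner ℝ x y ≤ 1 / 2)
    (I : Finset (EuclideanSpace ℝ (Fin n))) (hIX : I ⊆ X) (hIn : ∀ x ∈ I, -x ∉ X)
    (hI : ∀ x ∈ I, ∀ y ∈ I, x ≠ y → -(1 / 2 : ℝ) ≤ inner ℝ x y) :
    (X.filter (fun x => -x ∈ X)).card + 2 * I.card ≤ 2 * K := by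
  have hS : ∀ S ⊆ X, (∀ x ∈ S, ∀ y ∈ S, -(1 / 2) ≤ inner ℝ x y) → S.card ≤ K :=
    fun S hSX h3 => half_bound hK S (fun x hx => h1 x (hSX hx))
      (fun x hx y hy => h2 x (hSX hx) y (hSX hy)) h3
  set A := X.filter (fun x => -x ∈ X) with hA
  have hne : ∀ x ∈ X, -x ≠ x := by
    intro x hx h
    have h3 : x = 0 := by
      have : (2 : ℝ) • x = 0 := by
        rw [two_smul]
        nth_rewrite 1 [← h]
        exact neg_add_cancel x
      exact (smul_eq_zero.1 this).resolve_left two_ne_zero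
    have h4 := h1 x hx
    rw [h3, norm_zero] at h4
    exact zero_ne_one h4
  -- half of the paired points
  obtain ⟨S, hSm, hSmax⟩ := exists_max_image
    (A.powerset.filter (fun S => ∀ x ∈ S, -x ∉ S)) card ⟨∅, by simp⟩
  rw [mem_filter, mem_powerset] at hSm
  obtain ⟨hSA, hSneg⟩ := hSm
  have hcover : A ⊆ S ∪ S.image (fun x => -x) := by
    intro x hx
    by_contra hxn
    rw [mem_union, not_or] at hxn
    have hxn2 : -x ∉ S := fun h => hxn.2 (mem_image.2 ⟨-x, h, neg_neg x⟩)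
    have h3 := hSmax (insert x S) (by
      rw [mem_filter, mem_powerset]
      refine ⟨insert_subset hx hSA, ?_⟩
      intro y hy
      rw [mem_insert] at hy
      rw [mem_insert, not_or]
      rcases hy with rfl | hy
      · exact ⟨hne y (mem_filter.1 hx).1, hxn2⟩
      · refine ⟨fun h => hxn2 ?_, hSneg y hy⟩
        rw [← h, neg_neg]
        exact hy)
    rw [card_insert_of_notMem hxn.1] at h3
    omega
  have hAcard : A.card ≤ 2 * S.card := by
    have h3 := card_le_card hcover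
    have h4 := card_union_le S (S.image (fun x => -x))
    have h5 := card_image_le (s := S) (f := fun x => -x)
    omega
  have hself : ∀ x ∈ X, -(1 / 2 : ℝ) ≤ inner ℝ x x := by
    intro x hx
    rw [real_inner_self_eq_norm_sq, h1 x hx]
    norm_num
  have hmix : ∀ s ∈ S, ∀ t ∈ X, -s ≠ t → -(1 / 2 : ℝ) ≤ inner ℝ s t := by
    intro s hs t ht hst
    have h3 := h2 (-s) (mem_filter.1 (hSA hs)).2 t ht hst
    rw [inner_neg_left] at h3
    linarith
  have hSX : S ⊆ X := fun x hx => (mem_filter.1 (hSA hx)).1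
  have hdisj : Disjoint S I := by
    rw [disjoint_left]
    intro x hx hx'
    exact hIn x hx' (mem_filter.1 (hSA hx)).2
  have hSI : ∀ s ∈ S, ∀ t ∈ I, -s ≠ t := by
    intro s hs t ht h
    apply hIn t ht
    rw [← h, neg_neg]
    exact hSX hs
  have hfin := hS (S ∪ I) (union_subset hSX hIX) (by
    intro x hx y hy
    rw [mem_union] at hx hy
    rcases hx with hx | hx <;> rcases hy with hy | hy
    · exact hmix x hx y (hSX hy) (fun h => hSneg x hx (h ▸ hy))
    · exact hmix x hx y (hIX hy) (hSI x hx y hy)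
    · rw [real_inner_comm]
      exact hmix y hy x (hIX hx) (hSI y hy x hx)
    · by_cases hxy : x = y
      · rw [hxy]
        exact hself y (hIX hy)
      · exact hI x hx y hy hxy)
  rw [card_union_of_disjoint hdisj] at hfin
  omega

theorem main {K : ℕ} (hK : Dim n K) (X : Finset (EuclideanSpace ℝ (Fin n)))
    (h1 : ∀ x ∈ X, ‖x‖ = 1)
    (h2 : ∀ x ∈ X, ∀ y ∈ X, x ≠ y → inner ℝ x y ≤ 1 / 2) :
    (∀ S ⊆ X, (∀ x ∈ S, ∀ y ∈ S, -(1 / 2) ≤ inner ℝ x y) → S.card ≤ K) ∧
    (2 * K < X.card → ∃ (m : ℕ) (z : ℕ → EuclideanSpace ℝ (Fin n)), Odd m ∧ z m = z 0 ∧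
      (∀ i, z i ∈ X ∧ -z i ∉ X) ∧ ∀ i < m, inner ℝ (z i) (z (i + 1)) < -(1 / 2 : ℝ)) ∧
    ({x ∈ (X : Set (EuclideanSpace ℝ (Fin n))) | -x ∉ X}.encard ≤ 4 → X.card ≤ 2 * K) := by
  classical
  refine ⟨fun S hSX h3 => half_bound hK S (fun x hx => h1 x (hSX hx))
      (fun x hx y hy => h2 x (hSX hx) y (hSX hy)) h3, ?_, ?_⟩
  · intro hlt
    set Y := X.filter (fun x => -x ∉ X) with hY
    have hXcard : X.card = (X.filter (fun x => -x ∈ X)).card + Y.card :=
      (card_filter_add_card_filter_not _).symm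
    let G : SimpleGraph {x // x ∈ Y} :=
      { Adj := fun x y => inner ℝ x.1 y.1 < -(1 / 2 : ℝ)
        symm := ⟨fun x y h => by rw [real_inner_comm]; exact h⟩
        loopless := ⟨fun x h => by
          rw [real_inner_self_eq_norm_sq, h1 x.1 (mem_filter.1 x.2).1] at h
          norm_num at h⟩ }
    by_cases hcol : G.Colorable 2
    · exfalso
      obtain ⟨c⟩ := hcol
      have hpart : ∀ k : Fin 2, (X.filter (fun x => -x ∈ X)).card
          + 2 * (Y.attach.filter (fun x => c x = k)).card ≤ 2 * K := by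
        intro k
        have h := key hK X h1 h2 ((Y.attach.filter (fun x => c x = k)).map ⟨Subtype.val,
          Subtype.val_injective⟩) (by
          intro x hx
          rw [mem_map] at hx
          obtain ⟨x, -, rfl⟩ := hx
          exact (mem_filter.1 x.2).1) (by
          intro x hx
          rw [mem_map] at hx
          obtain ⟨x, -, rfl⟩ := hx
          exact (mem_filter.1 x.2).2) (by
          intro x hx y hy _
          rw [mem_map] at hx hy
          obtain ⟨x, hx, rfl⟩ := hx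
          obtain ⟨y, hy, rfl⟩ := hy
          rw [mem_filter] at hx hy
          by_contra hlt'
          have hadj : G.Adj x y := lt_of_not_ge hlt'
          exact c.valid hadj (by rw [hx.2, hy.2]))
        rwa [card_map] at h
      have hsum : Y.card = (Y.attach.filter (fun x => c x = 0)).card
          + (Y.attach.filter (fun x => c x = 1)).card := by
        rw [← card_attach (s := Y), ← card_filter_add_card_filter_not (s := Y.attach)
          (fun x => c x = 0)]
        congr 2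
        refine filter_congr fun x _ => ?_
        have : ∀ k : Fin 2, ¬ k = 0 ↔ k = 1 := by decide
        exact this _
      have := hpart 0
      have := hpart 1
      omega
    · rw [SimpleGraph.two_colorable_iff_forall_loop_even] at hcol
      push Not at hcol
      obtain ⟨u, w, hw⟩ := hcol
      refine ⟨w.length, fun i => (w.getVert i).1, by
        rwa [Nat.not_even_iff_odd] at hw, ?_, fun i => mem_filter.1 (w.getVert i).2, ?_⟩
      · simp
      · intro i hi
        exact w.adj_getVert_succ hi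
  · intro hY4
    set Y := X.filter (fun x => -x ∉ X) with hY
    have hY4' : Y.card ≤ 4 := by
      have e : {x ∈ (X : Set (EuclideanSpace ℝ (Fin n))) | -x ∉ X} = (Y : Set _) := by
        ext x
        simp [hY]
      rw [e, Set.encard_coe_eq_coe_finsetCard] at hY4
      exact_mod_cast hY4
    have hXcard : X.card = (X.filter (fun x => -x ∈ X)).card + Y.card :=
      (card_filter_add_card_filter_not _).symm
    obtain ⟨I, hIY, hIc, hI⟩ : ∃ I ⊆ Y, Y.card ≤ 2 * I.card ∧
        ∀ x ∈ I, ∀ y ∈ I, x ≠ y → -(1 / 2 : ℝ) ≤ inner ℝ x y := by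
      by_cases h0 : Y.card = 0
      · exact ⟨∅, empty_subset _, by omega, by simp⟩
      · by_cases h3 : Y.card ≤ 2
        · obtain ⟨y, hy⟩ := card_pos.1 (Nat.pos_of_ne_zero h0)
          refine ⟨{y}, singleton_subset_iff.2 hy, by simpa using h3, ?_⟩
          intro a ha b hb hab
          rw [mem_singleton] at ha hb
          exact absurd (ha.trans hb.symm) hab
        · obtain ⟨a, ha, b, hb, c, hc, hab, hac, hbc⟩ := two_lt_card.1 (by omega : 2 < Y.card)
          have hpair : ∀ u v : EuclideanSpace ℝ (Fin n), u ∈ Y → v ∈ Y → u ≠ v →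
              -(1 / 2 : ℝ) ≤ inner ℝ u v → ∃ I ⊆ Y, Y.card ≤ 2 * I.card ∧
              ∀ x ∈ I, ∀ y ∈ I, x ≠ y → -(1 / 2 : ℝ) ≤ inner ℝ x y := by
            intro u v hu hv huv hin
            refine ⟨{u, v}, ?_, ?_, ?_⟩
            · intro x hx
              rw [mem_insert, mem_singleton] at hx
              rcases hx with rfl | rfl
              · exact hu
              · exact hv
            · rw [card_pair huv]
              omega
            · intro x hx y hy hxy
              rw [mem_insert, mem_singleton] at hx hy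
              rcases hx with rfl | rfl <;> rcases hy with rfl | rfl
              · exact absurd rfl hxy
              · exact hin
              · rw [real_inner_comm]
                exact hin
              · exact absurd rfl hxy
          by_cases i1 : -(1 / 2 : ℝ) ≤ inner ℝ a b
          · exact hpair a b ha hb hab i1
          · by_cases i2 : -(1 / 2 : ℝ) ≤ inner ℝ a c
            · exact hpair a c ha hc hac i2
            · by_cases i3 : -(1 / 2 : ℝ) ≤ inner ℝ b c
              · exact hpair b c hb hc hbc i3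
              · exact (no_triangle (h1 a (mem_filter.1 ha).1) (h1 b (mem_filter.1 hb).1)
                  (h1 c (mem_filter.1 hc).1) (lt_of_not_ge i1) (lt_of_not_ge i2)
                  (lt_of_not_ge i3)).elim
    have hfin := key hK X h1 h2 I (fun x hx => (mem_filter.1 (hIY hx)).1)
      (fun x hx => (mem_filter.1 (hIY hx)).2) hI
    omega

end Pool.Agent.Work.MP_e0d3e3_co.Obtuse
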