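import Pool.Agent.Work.MP_e0d3e3_co.Cover

/-!
Root systems as covering sections.
-/

namespace Pool.Agent.Work.MP_e0d3e3_co.Lev

open Module Finset
open scoped InnerProductSpace

variable {E : Type*} [NormedAddCommGroup E] [InnerProductSpace ℝ E]

/-- The frame operator. -/
noncomputable def frameOp {ι : Type*} [Fintype ι] (b : ι → E) : E →ₗ[ℝ] E where
  toFun u := ∑ i, ⟪b i, u⟫_ℝ • b i
  map_add' u v := by simp [inner_add_right, add_smul, Finset.sum_add_distrib]
  map_smul' c u := by simp [inner_smul_right, mul_smul, Finset.smul_sum]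

theorem frameOp_apply {ι : Type*} [Fintype ι] (b : ι → E) (u : E) :
    frameOp b u = ∑ i, ⟪b i, u⟫_ℝ • b i := rfl

variable [FiniteDimensional ℝ E]

/-- A tight frame of a hyperplane has a unit normal. -/
theorem frame_normal {n : ℕ} (hn : finrank ℝ E = n + 1) {ι : Type*} [Fintype ι] (b : ι → E)
    (hP : ∀ j, ∑ i, ⟪b i, b j⟫_ℝ • b i = b j) (htr : ∑ i, ⟪b i, b i⟫_ℝ = n) :
    ∃ e : E, ‖e‖ = 1 ∧ (∀ i, ⟪e, b i⟫_ℝ = 0) ∧
      ∀ u, ⟪e, u⟫_ℝ = 0 → u = ∑ i, ⟪b i, u⟫_ℝ • b i := by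
  classical
  set H : Submodule ℝ E := Submodule.span ℝ (Set.range b) with hH
  have hproj : LinearMap.IsProj H (frameOp b) := by
    constructor
    · intro x
      rw [frameOp_apply]
      exact Submodule.sum_mem _ fun i _ =>
        Submodule.smul_mem _ _ (Submodule.subset_span ⟨i, rfl⟩)
    · intro x hx
      refine Submodule.span_induction (p := fun x _ => frameOp b x = x) ?_ ?_ ?_ ?_ hx
      · rintro _ ⟨j, rfl⟩
        exact hP j
      · exact map_zero _
      · intro x y _ _ hx hy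
        rw [map_add, hx, hy]
      · intro c x _ hx
        rw [map_smul, hx]
  have htrace : LinearMap.trace ℝ E (frameOp b) = n := by
    rw [LinearMap.trace_eq_sum_inner (frameOp b) (stdOrthonormalBasis ℝ E), ← htr]
    simp_rw [frameOp_apply, inner_sum, inner_smul_right]
    rw [Finset.sum_comm]
    refine Finset.sum_congr rfl fun i _ => ?_
    rw [← (stdOrthonormalBasis ℝ E).sum_inner_mul_inner (b i) (b i)]
  have hfin : finrank ℝ H = n := by
    have := hproj.trace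
    rw [htrace] at this
    exact_mod_cast this.symm
  have hfin' : finrank ℝ Hᗮ = 1 := by
    have := Submodule.finrank_add_finrank_orthogonal H
    rw [hfin, hn] at this
    omega
  obtain ⟨e0, he0⟩ := finrank_eq_one_iff'.1 hfin'
  have he0n : ‖(e0 : E)‖ ≠ 0 := by
    rw [norm_ne_zero_iff]
    intro h
    exact he0.1 (Subtype.ext h)
  refine ⟨‖(e0 : E)‖⁻¹ • (e0 : E), ?_, ?_, ?_⟩
  · rw [norm_smul, norm_inv, norm_norm, inv_mul_cancel₀ he0n]
  · intro i
    rw [inner_smul_left, real_inner_comm,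
      (Submodule.mem_orthogonal H _).1 e0.2 (b i) (Submodule.subset_span ⟨i, rfl⟩), mul_zero]
  · intro u hu
    rw [inner_smul_left] at hu
    have hu' : ⟪(e0 : E), u⟫_ℝ = 0 := by
      rcases mul_eq_zero.1 hu with h | h
      · simp at h
        exact absurd h (by simpa using he0n)
      · exact h
    have huH : u ∈ H := by
      rw [← Submodule.orthogonal_orthogonal H, Submodule.mem_orthogonal]
      intro v hv
      obtain ⟨c, hc⟩ := he0.2 ⟨v, hv⟩
      have : v = c • (e0 : E) := by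
        have := congrArg Subtype.val hc
        exact this.symm
      rw [this, inner_smul_left, hu', mul_zero]
    exact (hproj.map_id u huH).symm

omit [FiniteDimensional ℝ E] in
theorem frame_norm {ι : Type*} [Fintype ι] (b : ι → E) {u : E}
    (hu : u = ∑ i, ⟪b i, u⟫_ℝ • b i) : ∑ i, ⟪b i, u⟫_ℝ ^ 2 = ‖u‖ ^ 2 := by
  rw [← real_inner_self_eq_norm_sq u]
  have : ⟪u, u⟫_ℝ = ⟪∑ i, ⟪b i, u⟫_ℝ • b i, u⟫_ℝ := by rw [← hu]
  rw [this, sum_inner]
  refine Finset.sum_congr rfl fun i _ => ?_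
  rw [inner_smul_left, sq]
  simp

theorem sqrt_le_root {s t : ℝ} (ht : 0 ≤ t) (h : 1 - s ≤ t ^ 2) :
    √((1 - s) / 2) ≤ (√2)⁻¹ * t := by
  have h2 : (0 : ℝ) ≤ 2 := by norm_num
  refine Real.sqrt_le_iff.2 ⟨by positivity, ?_⟩
  rw [mul_pow, inv_pow, Real.sq_sqrt h2]
  linarith

/-! ### `A4` in dimension five -/

theorem five_sorted {w : Fin 5 → ℝ} (hw : Monotone w) (h0 : ∑ i, w i = 0)
    (h1 : ∑ i, w i ^ 2 = 1) : 5 / 6 ≤ (w 4 - w 0) ^ 2 := by
  rw [Fin.sum_univ_five] at h0 h1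
  have g0 : 0 ≤ w 1 - w 0 := sub_nonneg.2 (hw (by decide))
  have g1 : 0 ≤ w 2 - w 1 := sub_nonneg.2 (hw (by decide))
  have g2 : 0 ≤ w 3 - w 2 := sub_nonneg.2 (hw (by decide))
  have g3 : 0 ≤ w 4 - w 3 := sub_nonneg.2 (hw (by decide))
  generalize w 0 = x0 at *
  generalize w 1 = x1 at *
  generalize w 2 = x2 at *
  generalize w 3 = x3 at *
  generalize w 4 = x4 at *
  have key : 6 * (x4 - x0) ^ 2 - 5 * (x0 ^ 2 + x1 ^ 2 + x2 ^ 2 + x3 ^ 2 + x4 ^ 2)
      + (x0 + x1 + x2 + x3 + x4) ^ 2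
      = 2 * (x1 - x0) ^ 2 + 2 * (x4 - x3) ^ 2 + 6 * ((x1 - x0) * (x2 - x1))
        + 8 * ((x1 - x0) * (x3 - x2)) + 10 * ((x1 - x0) * (x4 - x3))
        + 4 * ((x2 - x1) * (x3 - x2)) + 8 * ((x2 - x1) * (x4 - x3))
        + 6 * ((x3 - x2) * (x4 - x3)) := by ring
  rw [h0] at key
  have p1 := mul_nonneg g0 g1
  have p2 := mul_nonneg g0 g2
  have p3 := mul_nonneg g0 g3
  have p4 := mul_nonneg g1 g2
  have p5 := mul_nonneg g1 g3
  have p6 := mul_nonneg g2 g3
  nlinarith [sq_nonneg (x1 - x0), sq_nonneg (x4 - x3)]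

theorem five_cover (a : Fin 5 → ℝ) (h0 : ∑ i, a i = 0) (h1 : ∑ i, a i ^ 2 = 1) :
    ∃ i j, i ≠ j ∧ 0 ≤ a i - a j ∧ 5 / 6 ≤ (a i - a j) ^ 2 := by
  have hm := Tuple.monotone_sort a
  have e0 : ∑ i, (a ∘ Tuple.sort a) i = 0 := by
    rw [← h0]
    exact Equiv.sum_comp (Tuple.sort a) a
  have e1 : ∑ i, (a ∘ Tuple.sort a) i ^ 2 = 1 := by
    rw [← h1]
    exact Equiv.sum_comp (Tuple.sort a) (fun i => a i ^ 2)
  refine ⟨Tuple.sort a 4, Tuple.sort a 0, ?_, ?_, five_sorted hm e0 e1⟩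
  · intro h
    have := (Tuple.sort a).injective h
    exact absurd this (by decide)
  · have := hm (show (0 : Fin 5) ≤ 4 by decide)
    exact sub_nonneg.2 this

theorem L3_a4 : L3 4 (1 / 6) = 10 := by
  rw [L3, Nat.floor_eq_iff (by norm_num)]
  constructor <;> norm_num

/-- Kissing configurations in dimension five that contain an `A4` root system. -/
theorem a4_main (hn : finrank ℝ E = 5) {X : Set E} (h1 : ∀ x ∈ X, ‖x‖ = 1)
    (h2 : ∀ x ∈ X, ∀ y ∈ X, x ≠ y → ⟪x, y⟫_ℝ ≤ 1 / 2) (b : Fin 5 → E)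
    (hb : ∀ i j, ⟪b i, b j⟫_ℝ = if i = j then 4 / 5 else -1 / 5)
    (hX : ∀ i j, i ≠ j → (√2)⁻¹ • (b i - b j) ∈ X) : X.encard ≤ 40 := by
  classical
  have hsum : ∑ i, b i = 0 := by
    rw [← inner_self_eq_zero (𝕜 := ℝ), sum_inner]
    have e0 : ∀ i j : Fin 5, (if i = j then (4 : ℝ) / 5 else -1 / 5)
        = (if i = j then 1 else 0) - 1 / 5 := by
      intro i j
      split_ifs <;> norm_num
    simp_rw [inner_sum, hb, e0, Finset.sum_sub_distrib, Finset.sum_ite_eq]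
    simp
  have hP : ∀ j, ∑ i, ⟪b i, b j⟫_ℝ • b i = b j := by
    intro j
    have e1 : ∀ i, ⟪b i, b j⟫_ℝ • b i = (if i = j then b i else 0) - (1 / 5 : ℝ) • b i := by
      intro i
      rw [hb]
      split_ifs
      · module
      · module
    simp_rw [e1]
    rw [Finset.sum_sub_distrib, Finset.sum_ite_eq' Finset.univ j b, ← Finset.smul_sum, hsum,
      smul_zero, sub_zero, if_pos (Finset.mem_univ _)]
  obtain ⟨e, he, heb, hu⟩ := frame_normal (n := 4) hn b hP (by
    simp_rw [hb]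
    simp
    norm_num)
  set C : Finset E := (Finset.univ.filter (fun p : Fin 5 × Fin 5 => p.1 ≠ p.2)).image
    (fun p => (√2)⁻¹ • (b p.1 - b p.2)) with hC
  have hCmem : ∀ z ∈ C, ∃ i j, i ≠ j ∧ z = (√2)⁻¹ • (b i - b j) := by
    intro z hz
    rw [hC, Finset.mem_image] at hz
    obtain ⟨p, hp, rfl⟩ := hz
    exact ⟨p.1, p.2, (Finset.mem_filter.1 hp).2, rfl⟩
  have hmain := section_main (n := 4) hn (by norm_num) (s := 1 / 6) (by norm_num) (by norm_num)
    (by norm_num) h1 h2 he (C := (C : Set E)) (fun z hz => by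
      obtain ⟨i, j, hij, rfl⟩ := hCmem z hz
      exact hX i j hij) (fun z hz => by
      obtain ⟨i, j, hij, rfl⟩ := hCmem z hz
      rw [inner_smul_right, inner_sub_right, heb, heb]
      ring) (fun u hu1 hu0 => by
      have e1 := hu u hu0
      have e2 := frame_norm b e1
      rw [hu1] at e2
      have e3 : ∑ i, ⟪b i, u⟫_ℝ = 0 := by
        rw [← sum_inner, hsum, inner_zero_left]
      obtain ⟨i, j, hij, hd, hd2⟩ := five_cover (fun i => ⟪b i, u⟫_ℝ) e3 (by
        rw [e2]; norm_num)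
      refine ⟨(√2)⁻¹ • (b i - b j), ?_, ?_⟩
      · rw [hC, Finset.mem_coe, Finset.mem_image]
        exact ⟨(i, j), Finset.mem_filter.2 ⟨Finset.mem_univ _, hij⟩, rfl⟩
      · rw [inner_smul_left, inner_sub_left]
        simp only [conj_trivial]
        refine sqrt_le_root hd ?_
        norm_num at hd2 ⊢
        linarith)
  have hcard : (C : Set E).encard ≤ 20 := by
    rw [Set.encard_coe_eq_coe_finsetCard]
    have e1 : C.card ≤ 20 := by
      refine (Finset.card_image_le).trans ?_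
      decide
    exact_mod_cast e1
  calc X.encard ≤ (C : Set E).encard + 2 * L3 4 (1 / 6) := hmain.2.2.2
    _ ≤ 20 + 2 * 10 := by
        rw [L3_a4]
        gcongr
        norm_num
    _ = 40 := by norm_num

/-! ### `D5` in dimension six -/

theorem abs_sorted {w : Fin 5 → ℝ} (hw : Monotone w) (h0 : ∀ i, 0 ≤ w i)
    (h1 : ∑ i, w i ^ 2 = 1) : 4 / 5 ≤ (w 3 + w 4) ^ 2 := by
  rw [Fin.sum_univ_five] at h1
  have g0 : w 0 ≤ w 3 := hw (by decide)
  have g1 : w 1 ≤ w 3 := hw (by decide)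
  have g2 : w 2 ≤ w 3 := hw (by decide)
  have g3 : w 3 ≤ w 4 := hw (by decide)
  have q0 := pow_le_pow_left₀ (h0 0) g0 2
  have q1 := pow_le_pow_left₀ (h0 1) g1 2
  have q2 := pow_le_pow_left₀ (h0 2) g2 2
  have q3 := h0 3
  have q4 : 0 ≤ (w 4 - w 3) * ((1 / 4) * w 4 + (11 / 4) * w 3) :=
    mul_nonneg (by linarith) (by linarith)
  nlinarith

theorem abs_cover (a : Fin 5 → ℝ) (h1 : ∑ i, a i ^ 2 = 1) :
    ∃ i j, i ≠ j ∧ 4 / 5 ≤ (|a i| + |a j|) ^ 2 := by
  set c : Fin 5 → ℝ := fun i => |a i| with hc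
  have hm := Tuple.monotone_sort c
  have e1 : ∑ i, (c ∘ Tuple.sort c) i ^ 2 = 1 := by
    rw [← h1, ← Equiv.sum_comp (Tuple.sort c) (fun i => a i ^ 2)]
    refine Finset.sum_congr rfl fun i _ => ?_
    exact sq_abs _
  refine ⟨Tuple.sort c 3, Tuple.sort c 4, ?_,
    abs_sorted hm (fun i => abs_nonneg _) e1⟩
  intro h
  have := (Tuple.sort c).injective h
  exact absurd this (by decide)

theorem L3_d5 : L3 5 (1 / 5) = 16 := by
  rw [L3, Nat.floor_eq_iff (by norm_num)]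
  constructor <;> norm_num

/-- Kissing configurations in dimension six that contain a `D5` root system. -/
theorem d5_main (hn : finrank ℝ E = 6) {X : Set E} (h1 : ∀ x ∈ X, ‖x‖ = 1)
    (h2 : ∀ x ∈ X, ∀ y ∈ X, x ≠ y → ⟪x, y⟫_ℝ ≤ 1 / 2) (b : Fin 5 → E)
    (hb : Orthonormal ℝ b)
    (hX : ∀ i j, i ≠ j → (√2)⁻¹ • (b i + b j) ∈ X ∧ (√2)⁻¹ • (b i - b j) ∈ X ∧
      (√2)⁻¹ • (-b i - b j) ∈ X) : X.encard ≤ 72 := by
  classical
  have hP : ∀ j, ∑ i, ⟪b i, b j⟫_ℝ • b i = b j := by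
    intro j
    rw [Finset.sum_eq_single j]
    · rw [real_inner_self_eq_norm_sq, hb.1 j]
      simp
    · intro i _ hij
      rw [hb.2 hij, zero_smul]
    · simp
  obtain ⟨e, he, heb, hu⟩ := frame_normal (n := 5) hn b hP (by
    simp_rw [real_inner_self_eq_norm_sq, hb.1]
    simp)
  set C : Finset E := (Finset.univ.filter (fun p : Fin 5 × Fin 5 => p.1 ≠ p.2)).image
      (fun p => (√2)⁻¹ • (b p.1 - b p.2)) ∪
    ((Finset.univ.filter (fun p : Fin 5 × Fin 5 => p.1 < p.2)).image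
      (fun p => (√2)⁻¹ • (b p.1 + b p.2)) ∪
    (Finset.univ.filter (fun p : Fin 5 × Fin 5 => p.1 < p.2)).image
      (fun p => (√2)⁻¹ • (-b p.1 - b p.2))) with hC
  have hCmem : ∀ z ∈ C, ∃ i j, i ≠ j ∧ (z = (√2)⁻¹ • (b i + b j) ∨ z = (√2)⁻¹ • (b i - b j) ∨
      z = (√2)⁻¹ • (-b i - b j)) := by
    intro z hz
    rw [hC, Finset.mem_union, Finset.mem_union] at hz
    rcases hz with hz | hz | hz
    · obtain ⟨p, hp, rfl⟩ := Finset.mem_image.1 hz
      exact ⟨p.1, p.2, (Finset.mem_filter.1 hp).2, Or.inr (Or.inl rfl)⟩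
    · obtain ⟨p, hp, rfl⟩ := Finset.mem_image.1 hz
      exact ⟨p.1, p.2, ne_of_lt (Finset.mem_filter.1 hp).2, Or.inl rfl⟩
    · obtain ⟨p, hp, rfl⟩ := Finset.mem_image.1 hz
      exact ⟨p.1, p.2, ne_of_lt (Finset.mem_filter.1 hp).2, Or.inr (Or.inr rfl)⟩
  have hm1 : ∀ i j, i ≠ j → (√2)⁻¹ • (b i - b j) ∈ C := by
    intro i j hij
    rw [hC, Finset.mem_union]
    exact Or.inl (Finset.mem_image.2 ⟨(i, j), Finset.mem_filter.2 ⟨Finset.mem_univ _, hij⟩, rfl⟩)
  have hm2 : ∀ i j, i ≠ j → (√2)⁻¹ • (b i + b j) ∈ C := by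
    intro i j hij
    rw [hC, Finset.mem_union, Finset.mem_union]
    rcases lt_or_gt_of_ne hij with h | h
    · exact Or.inr (Or.inl (Finset.mem_image.2
        ⟨(i, j), Finset.mem_filter.2 ⟨Finset.mem_univ _, h⟩, rfl⟩))
    · exact Or.inr (Or.inl (Finset.mem_image.2
        ⟨(j, i), Finset.mem_filter.2 ⟨Finset.mem_univ _, h⟩, by rw [add_comm]⟩))
  have hm3 : ∀ i j, i ≠ j → (√2)⁻¹ • (-b i - b j) ∈ C := by
    intro i j hij
    rw [hC, Finset.mem_union, Finset.mem_union]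
    rcases lt_or_gt_of_ne hij with h | h
    · exact Or.inr (Or.inr (Finset.mem_image.2
        ⟨(i, j), Finset.mem_filter.2 ⟨Finset.mem_univ _, h⟩, rfl⟩))
    · exact Or.inr (Or.inr (Finset.mem_image.2
        ⟨(j, i), Finset.mem_filter.2 ⟨Finset.mem_univ _, h⟩, by
          change (√2)⁻¹ • (-b j - b i) = (√2)⁻¹ • (-b i - b j)
          rw [neg_sub_left, neg_sub_left, add_comm]⟩))
  have hmain := section_main (n := 5) hn (by norm_num) (s := 1 / 5) (by norm_num) (by norm_num)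
    (by norm_num) h1 h2 he (C := (C : Set E)) (fun z hz => by
      obtain ⟨i, j, hij, h | h | h⟩ := hCmem z hz
      · exact h ▸ (hX i j hij).1
      · exact h ▸ (hX i j hij).2.1
      · exact h ▸ (hX i j hij).2.2) (fun z hz => by
      obtain ⟨i, j, hij, h | h | h⟩ := hCmem z hz
      · rw [h, inner_smul_right, inner_add_right, heb, heb]
        ring
      · rw [h, inner_smul_right, inner_sub_right, heb, heb]
        ring
      · rw [h, inner_smul_right, inner_sub_right, inner_neg_right, heb, heb]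
        ring) (fun u hu1 hu0 => by
      have e1 := hu u hu0
      have e2 := frame_norm b e1
      rw [hu1] at e2
      obtain ⟨i, j, hij, hd⟩ := abs_cover (fun i => ⟪b i, u⟫_ℝ) (by
        rw [e2]; norm_num)
      have hroot : √((1 - 1 / 5) / 2) ≤ (√2)⁻¹ * (|⟪b i, u⟫_ℝ| + |⟪b j, u⟫_ℝ|) := by
        refine sqrt_le_root (by positivity) ?_
        norm_num at hd ⊢
        linarith
      rcases abs_cases ⟪b i, u⟫_ℝ with ⟨hi, _⟩ | ⟨hi, _⟩ <;>
      rcases abs_cases ⟪b j, u⟫_ℝ with ⟨hj, _⟩ | ⟨hj, _⟩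
      · refine ⟨_, hm2 i j hij, ?_⟩
        rw [inner_smul_left, inner_add_left]
        simp only [conj_trivial]
        rw [hi, hj] at hroot
        exact hroot
      · refine ⟨_, hm1 i j hij, ?_⟩
        rw [inner_smul_left, inner_sub_left]
        simp only [conj_trivial]
        rw [hi, hj] at hroot
        rw [sub_eq_add_neg]
        exact hroot
      · refine ⟨_, hm1 j i hij.symm, ?_⟩
        rw [inner_smul_left, inner_sub_left]
        simp only [conj_trivial]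
        rw [hi, hj] at hroot
        have e3 : ⟪b j, u⟫_ℝ - ⟪b i, u⟫_ℝ = -⟪b i, u⟫_ℝ + ⟪b j, u⟫_ℝ := by ring
        rw [e3]
        exact hroot
      · refine ⟨_, hm3 i j hij, ?_⟩
        rw [inner_smul_left, inner_sub_left, inner_neg_left]
        simp only [conj_trivial]
        rw [hi, hj] at hroot
        rw [sub_eq_add_neg]
        exact hroot)
  have hcard : (C : Set E).encard ≤ 40 := by
    rw [Set.encard_coe_eq_coe_finsetCard]
    have e1 : C.card ≤ 20 + (10 + 10) := by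
      refine (Finset.card_union_le _ _).trans (add_le_add ?_ ?_)
      · refine (Finset.card_image_le).trans ?_
        decide
      · refine (Finset.card_union_le _ _).trans (add_le_add ?_ ?_)
        · refine (Finset.card_image_le).trans ?_
          decide
        · refine (Finset.card_image_le).trans ?_
          decide
    exact_mod_cast e1
  calc X.encard ≤ (C : Set E).encard + 2 * L3 5 (1 / 5) := hmain.2.2.2
    _ ≤ 40 + 2 * 16 := by
        rw [L3_d5]
        gcongr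
        norm_num
    _ = 72 := by norm_num

/-! ### Triples with sum zero -/

theorem triple (x : Fin 3 → ℝ) (h0 : ∑ i, x i = 0) :
    ∃ i j, 0 ≤ x i ∧ x j ≤ 0 ∧ ∑ k, x k ^ 2 ≤ 2 / 3 * (x i - x j) ^ 2 := by
  have hm := Tuple.monotone_sort x
  have e0 : ∑ i, (x ∘ Tuple.sort x) i = 0 := by
    rw [← h0]
    exact Equiv.sum_comp (Tuple.sort x) x
  have e1 : ∑ i, (x ∘ Tuple.sort x) i ^ 2 = ∑ i, x i ^ 2 :=
    Equiv.sum_comp (Tuple.sort x) (fun i => x i ^ 2)
  have g0 : (x ∘ Tuple.sort x) 0 ≤ (x ∘ Tuple.sort x) 1 := hm (by decide)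
  have g1 : (x ∘ Tuple.sort x) 1 ≤ (x ∘ Tuple.sort x) 2 := hm (by decide)
  rw [Fin.sum_univ_three] at e0 e1
  refine ⟨Tuple.sort x 2, Tuple.sort x 0, ?_, ?_, ?_⟩
  · change 0 ≤ (x ∘ Tuple.sort x) 2
    linarith
  · change (x ∘ Tuple.sort x) 0 ≤ 0
    linarith
  · rw [← e1]
    change _ ≤ 2 / 3 * ((x ∘ Tuple.sort x) 2 - (x ∘ Tuple.sort x) 0) ^ 2
    generalize (x ∘ Tuple.sort x) 0 = y0 at *
    generalize (x ∘ Tuple.sort x) 1 = y1 at *
    generalize (x ∘ Tuple.sort x) 2 = y2 at *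
    have : y1 = -y0 - y2 := by linarith
    subst this
    nlinarith [mul_nonneg (sub_nonneg.2 g0) (sub_nonneg.2 g1)]

section Blocks

variable {K : Type*} [Fintype K] [DecidableEq K] (b : K → Fin 3 → E)
  (hb : ∀ k l i j, ⟪b k i, b l j⟫_ℝ = if k = l then (if i = j then 2 / 3 else -1 / 3) else 0)

include hb

omit [FiniteDimensional ℝ E] [Fintype K] in
theorem block_sum (k : K) : ∑ i, b k i = 0 := by
  rw [← inner_self_eq_zero (𝕜 := ℝ), sum_inner]
  have e0 : ∀ i j : Fin 3, (if i = j then (2 : ℝ) / 3 else -1 / 3)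
      = (if i = j then 1 else 0) - 1 / 3 := by
    intro i j
    split_ifs <;> norm_num
  simp_rw [inner_sum, hb, if_true, e0, Finset.sum_sub_distrib, Finset.sum_ite_eq]
  simp

omit [FiniteDimensional ℝ E] in
theorem block_frame (j : K × Fin 3) :
    ∑ p : K × Fin 3, ⟪b p.1 p.2, b j.1 j.2⟫_ℝ • b p.1 p.2 = b j.1 j.2 := by
  rw [Fintype.sum_prod_type, Finset.sum_eq_single j.1]
  · have e1 : ∀ i, ⟪b j.1 i, b j.1 j.2⟫_ℝ • b j.1 i
        = (if i = j.2 then b j.1 i else 0) - (1 / 3 : ℝ) • b j.1 i := by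
      intro i
      rw [hb, if_pos rfl]
      split_ifs
      · module
      · module
    simp_rw [e1]
    rw [Finset.sum_sub_distrib, Finset.sum_ite_eq' Finset.univ j.2 (b j.1), ← Finset.smul_sum,
      block_sum b hb, smul_zero, sub_zero, if_pos (Finset.mem_univ _)]
  · intro k _ hk
    refine Finset.sum_eq_zero fun i _ => ?_
    rw [hb, if_neg hk, zero_smul]
  · simp

omit [FiniteDimensional ℝ E] in
theorem block_trace : ∑ p : K × Fin 3, ⟪b p.1 p.2, b p.1 p.2⟫_ℝ = (2 * Fintype.card K : ℕ) := by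
  simp_rw [hb, if_true]
  rw [Finset.sum_const, Finset.card_univ, Fintype.card_prod, Fintype.card_fin, nsmul_eq_mul]
  push_cast
  ring

omit [FiniteDimensional ℝ E] in
/-- For every vector of the span, the block coordinates. -/
theorem block_coords {u : E} (hu1 : ‖u‖ = 1)
    (hu : u = ∑ p : K × Fin 3, ⟪b p.1 p.2, u⟫_ℝ • b p.1 p.2) :
    ∃ i j : K → Fin 3, (∀ k, 0 ≤ ⟪b k (i k), u⟫_ℝ) ∧ (∀ k, ⟪b k (j k), u⟫_ℝ ≤ 0) ∧
      1 ≤ 2 / 3 * ∑ k, (⟪b k (i k), u⟫_ℝ - ⟪b k (j k), u⟫_ℝ) ^ 2 := by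
  have e0 : ∀ k, ∑ i, ⟪b k i, u⟫_ℝ = 0 := by
    intro k
    rw [← sum_inner, block_sum b hb, inner_zero_left]
  choose i j h1 h2 h3 using fun k => triple (fun i => ⟪b k i, u⟫_ℝ) (e0 k)
  refine ⟨i, j, h1, h2, ?_⟩
  have e1 := frame_norm (fun p : K × Fin 3 => b p.1 p.2) hu
  rw [hu1, Fintype.sum_prod_type] at e1
  rw [Finset.mul_sum]
  calc (1 : ℝ) = ∑ k, ∑ l, ⟪b k l, u⟫_ℝ ^ 2 := by rw [e1]; norm_num
    _ ≤ _ := Finset.sum_le_sum fun k _ => h3 k

end Blocks

/-! ### `A2 + A2` in dimension five -/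

theorem L3_a2a2 : L3 4 (1 / 4) = 13 := by
  rw [L3, Nat.floor_eq_iff (by norm_num)]
  constructor <;> norm_num

/-- Kissing configurations in dimension five that contain two orthogonal hexagons. -/
theorem a2a2_main (hn : finrank ℝ E = 5) {X : Set E} (h1 : ∀ x ∈ X, ‖x‖ = 1)
    (h2 : ∀ x ∈ X, ∀ y ∈ X, x ≠ y → ⟪x, y⟫_ℝ ≤ 1 / 2) (b : Fin 2 → Fin 3 → E)
    (hb : ∀ k l i j, ⟪b k i, b l j⟫_ℝ = if k = l then (if i = j then 2 / 3 else -1 / 3) else 0)
    (hX : ∀ k i j, i ≠ j → (√2)⁻¹ • (b k i - b k j) ∈ X) : X.encard ≤ 38 := by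
  classical
  obtain ⟨e, he, heb, hu⟩ := frame_normal (n := 4) hn (fun p : Fin 2 × Fin 3 => b p.1 p.2)
    (block_frame b hb) (by
      rw [block_trace b hb, Fintype.card_fin])
  have heb' : ∀ k i, ⟪e, b k i⟫_ℝ = 0 := fun k i => heb (k, i)
  set C : Finset E := (Finset.univ.filter
      (fun p : Fin 2 × Fin 3 × Fin 3 => p.2.1 ≠ p.2.2)).image
      (fun p => (√2)⁻¹ • (b p.1 p.2.1 - b p.1 p.2.2)) with hC
  have hCmem : ∀ z ∈ C, ∃ k i j, i ≠ j ∧ z = (√2)⁻¹ • (b k i - b k j) := by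
    intro z hz
    obtain ⟨p, hp, rfl⟩ := Finset.mem_image.1 hz
    exact ⟨p.1, p.2.1, p.2.2, (Finset.mem_filter.1 hp).2, rfl⟩
  have hmain := section_main (n := 4) hn (by norm_num) (s := 1 / 4) (by norm_num) (by norm_num)
    (by norm_num) h1 h2 he (C := (C : Set E)) (fun z hz => by
      obtain ⟨k, i, j, hij, rfl⟩ := hCmem z hz
      exact hX k i j hij) (fun z hz => by
      obtain ⟨k, i, j, hij, rfl⟩ := hCmem z hz
      rw [inner_smul_right, inner_sub_right, heb', heb']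
      ring) (fun u hu1 hu0 => by
      obtain ⟨i, j, hi, hj, hs⟩ := block_coords b hb hu1 (hu u hu0)
      have hex : ∃ k, 3 / 4 ≤ (⟪b k (i k), u⟫_ℝ - ⟪b k (j k), u⟫_ℝ) ^ 2 := by
        by_contra hcon
        push Not at hcon
        rw [Fin.sum_univ_two] at hs
        have := hcon 0
        have := hcon 1
        linarith
      obtain ⟨k, hk⟩ := hex
      have hij : i k ≠ j k := by
        intro h
        rw [h, sub_self] at hk
        norm_num at hk
      refine ⟨(√2)⁻¹ • (b k (i k) - b k (j k)), ?_, ?_⟩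
      · exact Finset.mem_image.2 ⟨(k, i k, j k), Finset.mem_filter.2
          ⟨Finset.mem_univ _, hij⟩, rfl⟩
      · rw [inner_smul_left, inner_sub_left]
        simp only [conj_trivial]
        refine sqrt_le_root (by linarith [hi k, hj k]) ?_
        norm_num at hk ⊢
        linarith)
  have hcard : (C : Set E).encard ≤ 12 := by
    rw [Set.encard_coe_eq_coe_finsetCard]
    have e1 : C.card ≤ 12 := by
      refine (Finset.card_image_le).trans ?_
      decide
    exact_mod_cast e1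
  calc X.encard ≤ (C : Set E).encard + 2 * L3 4 (1 / 4) := hmain.2.2.2
    _ ≤ 12 + 2 * 13 := by
        rw [L3_a2a2]
        gcongr
        norm_num
    _ = 38 := by norm_num

/-! ### `E6` in dimension seven -/

theorem L3_e6 : L3 6 (1 / 4) = 27 := by
  rw [L3, Nat.floor_eq_iff (by norm_num)]
  constructor <;> norm_num

/-- Kissing configurations in dimension seven that contain an `E6` root system. -/
theorem e6_main (hn : finrank ℝ E = 7) {X : Set E} (h1 : ∀ x ∈ X, ‖x‖ = 1)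
    (h2 : ∀ x ∈ X, ∀ y ∈ X, x ≠ y → ⟪x, y⟫_ℝ ≤ 1 / 2) (b : Fin 3 → Fin 3 → E)
    (hb : ∀ k l i j, ⟪b k i, b l j⟫_ℝ = if k = l then (if i = j then 2 / 3 else -1 / 3) else 0)
    (hX : ∀ k i j, i ≠ j → (√2)⁻¹ • (b k i - b k j) ∈ X)
    (hX' : ∀ i j l, (√2)⁻¹ • (b 0 i + b 1 j + b 2 l) ∈ X ∧
      (√2)⁻¹ • (-b 0 i - b 1 j - b 2 l) ∈ X) : X.encard ≤ 126 := by
  classical
  obtain ⟨e, he, heb, hu⟩ := frame_normal (n := 6) hn (fun p : Fin 3 × Fin 3 => b p.1 p.2)
    (block_frame b hb) (by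
      rw [block_trace b hb, Fintype.card_fin])
  have heb' : ∀ k i, ⟪e, b k i⟫_ℝ = 0 := fun k i => heb (k, i)
  set C : Finset E := (Finset.univ.filter
      (fun p : Fin 3 × Fin 3 × Fin 3 => p.2.1 ≠ p.2.2)).image
      (fun p => (√2)⁻¹ • (b p.1 p.2.1 - b p.1 p.2.2)) ∪
    ((Finset.univ : Finset (Fin 3 × Fin 3 × Fin 3)).image
      (fun p => (√2)⁻¹ • (b 0 p.1 + b 1 p.2.1 + b 2 p.2.2)) ∪
    (Finset.univ : Finset (Fin 3 × Fin 3 × Fin 3)).image
      (fun p => (√2)⁻¹ • (-b 0 p.1 - b 1 p.2.1 - b 2 p.2.2))) with hC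
  have hCmem : ∀ z ∈ C, (∃ k i j, i ≠ j ∧ z = (√2)⁻¹ • (b k i - b k j)) ∨
      ∃ i j l, z = (√2)⁻¹ • (b 0 i + b 1 j + b 2 l) ∨
        z = (√2)⁻¹ • (-b 0 i - b 1 j - b 2 l) := by
    intro z hz
    rw [hC, Finset.mem_union, Finset.mem_union] at hz
    rcases hz with hz | hz | hz
    · obtain ⟨p, hp, rfl⟩ := Finset.mem_image.1 hz
      exact Or.inl ⟨p.1, p.2.1, p.2.2, (Finset.mem_filter.1 hp).2, rfl⟩
    · obtain ⟨p, hp, rfl⟩ := Finset.mem_image.1 hz
      exact Or.inr ⟨p.1, p.2.1, p.2.2, Or.inl rfl⟩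
    · obtain ⟨p, hp, rfl⟩ := Finset.mem_image.1 hz
      exact Or.inr ⟨p.1, p.2.1, p.2.2, Or.inr rfl⟩
  have hm1 : ∀ k i j, i ≠ j → (√2)⁻¹ • (b k i - b k j) ∈ C := by
    intro k i j hij
    rw [hC, Finset.mem_union]
    exact Or.inl (Finset.mem_image.2
      ⟨(k, i, j), Finset.mem_filter.2 ⟨Finset.mem_univ _, hij⟩, rfl⟩)
  have hm2 : ∀ i j l, (√2)⁻¹ • (b 0 i + b 1 j + b 2 l) ∈ C := by
    intro i j l
    rw [hC, Finset.mem_union, Finset.mem_union]
    exact Or.inr (Or.inl (Finset.mem_image.2 ⟨(i, j, l), Finset.mem_univ _, rfl⟩))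
  have hm3 : ∀ i j l, (√2)⁻¹ • (-b 0 i - b 1 j - b 2 l) ∈ C := by
    intro i j l
    rw [hC, Finset.mem_union, Finset.mem_union]
    exact Or.inr (Or.inr (Finset.mem_image.2 ⟨(i, j, l), Finset.mem_univ _, rfl⟩))
  have hmain := section_main (n := 6) hn (by norm_num) (s := 1 / 4) (by norm_num) (by norm_num)
    (by norm_num) h1 h2 he (C := (C : Set E)) (fun z hz => by
      rcases hCmem z hz with ⟨k, i, j, hij, rfl⟩ | ⟨i, j, l, rfl | rfl⟩
      · exact hX k i j hij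
      · exact (hX' i j l).1
      · exact (hX' i j l).2) (fun z hz => by
      rcases hCmem z hz with ⟨k, i, j, hij, rfl⟩ | ⟨i, j, l, rfl | rfl⟩
      · rw [inner_smul_right, inner_sub_right, heb', heb']
        ring
      · rw [inner_smul_right, inner_add_right, inner_add_right, heb', heb', heb']
        ring
      · rw [inner_smul_right, inner_sub_right, inner_sub_right, inner_neg_right, heb', heb',
          heb']
        ring) (fun u hu1 hu0 => by
      obtain ⟨i, j, hi, hj, hs⟩ := block_coords b hb hu1 (hu u hu0)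
      by_cases hex : ∃ k, 3 / 4 ≤ (⟪b k (i k), u⟫_ℝ - ⟪b k (j k), u⟫_ℝ) ^ 2
      · obtain ⟨k, hk⟩ := hex
        have hij : i k ≠ j k := by
          intro h
          rw [h, sub_self] at hk
          norm_num at hk
        refine ⟨(√2)⁻¹ • (b k (i k) - b k (j k)), hm1 k _ _ hij, ?_⟩
        rw [inner_smul_left, inner_sub_left]
        simp only [conj_trivial]
        refine sqrt_le_root (by linarith [hi k, hj k]) ?_
        norm_num at hk ⊢
        linarith
      push Not at hex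
      by_cases hex1 : 3 / 4 ≤ (⟪b 0 (i 0), u⟫_ℝ + ⟪b 1 (i 1), u⟫_ℝ + ⟪b 2 (i 2), u⟫_ℝ) ^ 2
      · refine ⟨_, hm2 (i 0) (i 1) (i 2), ?_⟩
        rw [inner_smul_left, inner_add_left, inner_add_left]
        simp only [conj_trivial]
        refine sqrt_le_root (by linarith [hi 0, hi 1, hi 2]) ?_
        norm_num at hex1 ⊢
        linarith
      by_cases hex2 : 3 / 4 ≤ (-⟪b 0 (j 0), u⟫_ℝ - ⟪b 1 (j 1), u⟫_ℝ - ⟪b 2 (j 2), u⟫_ℝ) ^ 2
      · refine ⟨_, hm3 (j 0) (j 1) (j 2), ?_⟩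
        rw [inner_smul_left, inner_sub_left, inner_sub_left, inner_neg_left]
        simp only [conj_trivial]
        refine sqrt_le_root (by linarith [hj 0, hj 1, hj 2]) ?_
        norm_num at hex2 ⊢
        linarith
      exfalso
      push Not at hex1 hex2
      have hM : √(3 / 4) ^ 2 = 3 / 4 := Real.sq_sqrt (by norm_num)
      have hM0 : 0 < √(3 / 4) := by positivity
      have k0 := hex 0
      have k1 := hex 1
      have k2 := hex 2
      have i0 := hi 0
      have i1 := hi 1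
      have i2 := hi 2
      have j0 := hj 0
      have j1 := hj 1
      have j2 := hj 2
      rw [Fin.sum_univ_three] at hs
      generalize ⟪b 0 (i 0), u⟫_ℝ = P0 at *
      generalize ⟪b 1 (i 1), u⟫_ℝ = P1 at *
      generalize ⟪b 2 (i 2), u⟫_ℝ = P2 at *
      generalize ⟪b 0 (j 0), u⟫_ℝ = Q0 at *
      generalize ⟪b 1 (j 1), u⟫_ℝ = Q1 at *
      generalize ⟪b 2 (j 2), u⟫_ℝ = Q2 at *
      generalize √(3 / 4) = M at *
      have l0 : P0 - Q0 ≤ M := by nlinarith
      have l1 : P1 - Q1 ≤ M := by nlinarith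
      have l2 : P2 - Q2 ≤ M := by nlinarith
      have l3 : P0 + P1 + P2 < M := by nlinarith
      have l4 : -Q0 - Q1 - Q2 < M := by nlinarith
      have m0 : (P0 - Q0) ^ 2 ≤ M * (P0 - Q0) := by nlinarith
      have m1 : (P1 - Q1) ^ 2 ≤ M * (P1 - Q1) := by nlinarith
      have m2 : (P2 - Q2) ^ 2 ≤ M * (P2 - Q2) := by nlinarith
      nlinarith)
  have hcard : (C : Set E).encard ≤ 72 := by
    rw [Set.encard_coe_eq_coe_finsetCard]
    have e1 : C.card ≤ 18 + (27 + 27) := by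
      refine (Finset.card_union_le _ _).trans (add_le_add ?_ ?_)
      · refine (Finset.card_image_le).trans ?_
        decide
      · refine (Finset.card_union_le _ _).trans (add_le_add ?_ ?_)
        · refine (Finset.card_image_le).trans ?_
          decide
        · refine (Finset.card_image_le).trans ?_
          decide
    exact_mod_cast e1
  calc X.encard ≤ (C : Set E).encard + 2 * L3 6 (1 / 4) := hmain.2.2.2
    _ ≤ 72 + 2 * 27 := by
        rw [L3_e6]
        gcongr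
        norm_num
    _ = 126 := by norm_num

end Pool.Agent.Work.MP_e0d3e3_co.Lev
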