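import Pool.Agent.Work.MP_e0d3e3_co.Cap

/-!
Kissing configurations with a hyperplane section that is a 45-degree covering.
-/

namespace Pool.Agent.Work.MP_e0d3e3_co

open Module
open scoped InnerProductSpace

universe u

variable {E : Type u} [NormedAddCommGroup E] [InnerProductSpace ℝ E] [FiniteDimensional ℝ E]

/-- A finite set of unit vectors that is closed under negation, has `2 n` elements in dimension
`n`, and in which any two distinct non-opposite vectors are orthogonal, is `± u_i` for an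
orthonormal basis `u`. -/
theorem exists_basis {F : Type u} [NormedAddCommGroup F] [InnerProductSpace ℝ F]
    [FiniteDimensional ℝ F] {n : ℕ} (hF : finrank ℝ F = n) (Y : Finset F)
    (h1 : ∀ y ∈ Y, ‖y‖ = 1) (h2 : ∀ y ∈ Y, -y ∈ Y)
    (h3 : ∀ y ∈ Y, ∀ z ∈ Y, z = y ∨ z = -y ∨ ⟪y, z⟫_ℝ = 0) (hcard : Y.card = 2 * n) :
    ∃ u : OrthonormalBasis (Fin n) ℝ F, ∀ y, y ∈ Y ↔ ∃ i, y = u i ∨ y = -u i := by
  classical
  obtain ⟨S, hS, hmax⟩ := Finset.exists_max_image
    (Y.powerset.filter fun S => ∀ y ∈ S, ∀ z ∈ S, y ≠ z → ⟪y, z⟫_ℝ = 0) Finset.card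
    ⟨∅, by simp⟩
  rw [Finset.mem_filter, Finset.mem_powerset] at hS
  obtain ⟨hSY, hSo⟩ := hS
  have hcover : ∀ y ∈ Y, y ∈ S ∨ -y ∈ S := by
    intro y hy
    by_contra hne
    push Not at hne
    have horth : ∀ z ∈ S, ⟪y, z⟫_ℝ = 0 := by
      intro z hz
      rcases h3 y hy z (hSY hz) with h | h | h
      · exact absurd (h ▸ hz) hne.1
      · exact absurd (h ▸ hz) hne.2
      · exact h
    have h4 := hmax (insert y S) (by
      rw [Finset.mem_filter, Finset.mem_powerset]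
      refine ⟨Finset.insert_subset hy hSY, ?_⟩
      intro a ha b hb hab
      rw [Finset.mem_insert] at ha hb
      rcases ha with rfl | ha
      · rcases hb with rfl | hb
        · exact absurd rfl hab
        · exact horth b hb
      · rcases hb with rfl | hb
        · rw [real_inner_comm]
          exact horth a ha
        · exact hSo a ha b hb hab)
    rw [Finset.card_insert_of_notMem hne.1] at h4
    omega
  have hle : Y.card ≤ S.card + S.card := by
    have h4 : Y ⊆ S ∪ S.image fun y => -y := by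
      intro y hy
      rw [Finset.mem_union, Finset.mem_image]
      rcases hcover y hy with h | h
      · exact Or.inl h
      · exact Or.inr ⟨-y, h, neg_neg y⟩
    calc Y.card ≤ (S ∪ S.image fun y => -y).card := Finset.card_le_card h4
      _ ≤ S.card + (S.image fun y => -y).card := Finset.card_union_le _ _
      _ ≤ S.card + S.card := by
          have := Finset.card_image_le (s := S) (f := fun y : F => -y)
          omega
  have hon : Orthonormal ℝ (fun y : S => (y : F)) := by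
    rw [orthonormal_iff_ite]
    intro a b
    by_cases hab : a = b
    · subst hab
      rw [if_pos rfl, real_inner_self_eq_norm_sq, h1 _ (hSY a.2)]
      norm_num
    · rw [if_neg hab]
      exact hSo _ a.2 _ b.2 (fun h => hab (Subtype.ext h))
  have hSn : S.card ≤ n := by
    have := hon.linearIndependent.fintype_card_le_finrank
    rw [Fintype.card_coe, hF] at this
    exact this
  have hSn' : S.card = n := by omega
  obtain ⟨eqv⟩ : Nonempty (Fin n ≃ S) := by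
    rw [← Fintype.card_eq, Fintype.card_fin, Fintype.card_coe, hSn']
  have hon' : Orthonormal ℝ (fun i : Fin n => (eqv i : F)) := hon.comp _ eqv.injective
  obtain ⟨u, hu⟩ := Orthonormal.exists_orthonormalBasis_extension_of_card_eq (𝕜 := ℝ)
    (ι := Fin n) (v := fun i : Fin n => (eqv i : F)) (s := Set.univ)
    (by rw [hF, Fintype.card_fin]) (hon'.comp (fun i : (Set.univ : Set (Fin n)) => (i : Fin n))
      Subtype.val_injective)
  refine ⟨u, fun y => ⟨fun hy => ?_, ?_⟩⟩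
  · rcases hcover y hy with h | h
    · refine ⟨eqv.symm ⟨y, h⟩, Or.inl ?_⟩
      rw [hu _ (Set.mem_univ _)]
      simp
    · refine ⟨eqv.symm ⟨-y, h⟩, Or.inr ?_⟩
      rw [hu _ (Set.mem_univ _)]
      simp
  · rintro ⟨i, rfl | rfl⟩
    · rw [hu _ (Set.mem_univ _)]
      exact hSY (eqv i).2
    · rw [hu _ (Set.mem_univ _)]
      exact h2 _ (hSY (eqv i).2)

omit [FiniteDimensional ℝ E] in
/-- Points off the hyperplane have height at least `√2/2`. -/
theorem height_of_covering {X : Set E} {e : E} (he : ‖e‖ = 1) (h1 : ∀ x ∈ X, ‖x‖ = 1)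
    (h2 : ∀ x ∈ X, ∀ y ∈ X, x ≠ y → ⟪x, y⟫_ℝ ≤ 1 / 2)
    (hcov : ∀ u : E, ‖u‖ = 1 → ⟪e, u⟫_ℝ = 0 → ∃ z ∈ X, ⟪e, z⟫_ℝ = 0 ∧ √2 / 2 ≤ ⟪z, u⟫_ℝ)
    {x : E} (hx : x ∈ X) (hx0 : ⟪e, x⟫_ℝ ≠ 0) : √2 / 2 ≤ |⟪e, x⟫_ℝ| := by
  have hs : √2 * √2 = 2 := Real.mul_self_sqrt (by norm_num)
  have hs0 : 0 < √2 := by positivity
  set p : E := x - ⟪e, x⟫_ℝ • e with hp
  have hep : ⟪e, p⟫_ℝ = 0 := by
    rw [hp, inner_sub_right, inner_smul_right, real_inner_self_eq_norm_sq, he]
    ring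
  have hpn : ‖p‖ ^ 2 = 1 - ⟪e, x⟫_ℝ ^ 2 := by
    rw [← real_inner_self_eq_norm_sq]
    conv_lhs => rw [hp, inner_sub_left, ← hp, inner_smul_left, hep]
    rw [hp, inner_sub_right, inner_smul_right, real_inner_self_eq_norm_sq, h1 x hx,
      real_inner_comm e x]
    simp
    ring
  have hle : ‖p‖ ≤ √2 / 2 := by
    by_cases hp0 : p = 0
    · rw [hp0, norm_zero]
      positivity
    · have hnp : 0 < ‖p‖ := norm_pos_iff.2 hp0
      obtain ⟨z, hz, hez, hzu⟩ := hcov (‖p‖⁻¹ • p) (by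
        rw [norm_smul, norm_inv, norm_norm, inv_mul_cancel₀ hnp.ne']) (by
        rw [inner_smul_right, hep, mul_zero])
      have hzx : ⟪z, p⟫_ℝ = ⟪z, x⟫_ℝ := by
        rw [hp, inner_sub_right, inner_smul_right, real_inner_comm e z, hez]
        ring
      rw [inner_smul_right, hzx] at hzu
      have hne : z ≠ x := by
        intro h
        rw [h] at hez
        exact hx0 hez
      have h3 := h2 z hz x hx hne
      have h4 : √2 / 2 * ‖p‖ ≤ ⟪z, x⟫_ℝ := by
        have h5 := mul_le_mul_of_nonneg_right hzu hnp.le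
        have h6 : ‖p‖⁻¹ * ⟪z, x⟫_ℝ * ‖p‖ = ⟪z, x⟫_ℝ := by
          field_simp
        linarith
      nlinarith
  have h5 : ‖p‖ ^ 2 ≤ 1 / 2 := by
    have := pow_le_pow_left₀ (norm_nonneg p) hle 2
    have h6 : (√2 / 2) ^ 2 = 1 / 2 := by
      rw [div_pow, Real.sq_sqrt (by norm_num)]
      norm_num
    linarith
  have h6 : (√2 / 2) ^ 2 ≤ ⟪e, x⟫_ℝ ^ 2 := by
    have h7 : (√2 / 2) ^ 2 = 1 / 2 := by
      rw [div_pow, Real.sq_sqrt (by norm_num)]
      norm_num
    linarith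
  have h7 := sq_le_sq.1 h6
  rwa [abs_of_pos (by positivity)] at h7

/-- One side: at most `2 n` points, with a description of the case of equality. -/
theorem side_main {n : ℕ} (hn : finrank ℝ E = n + 1) (hn1 : 1 ≤ n) {e : E} (he : ‖e‖ = 1)
    (U : Set E) (h1 : ∀ x ∈ U, ‖x‖ = 1) (h2 : ∀ x ∈ U, √2 / 2 ≤ ⟪e, x⟫_ℝ)
    (h3 : ∀ x ∈ U, ∀ y ∈ U, x ≠ y → ⟪x, y⟫_ℝ ≤ 1 / 2) :
    U.encard ≤ 2 * n ∧ (2 ≤ n → U.encard = 2 * n →
      ∃ u : OrthonormalBasis (Fin n) ℝ (ℝ ∙ e)ᗮ, ∀ x, x ∈ U ↔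
        ∃ i, x = (√2 / 2) • (e + u i) ∨ x = (√2 / 2) • (e - u i)) := by
  classical
  have hs : √2 * √2 = 2 := Real.mul_self_sqrt (by norm_num)
  have hs0 : 0 < √2 := by positivity
  have hfinset : ∀ T : Finset E, (T : Set E) ⊆ U → T.card ≤ 2 * n := fun T hT =>
    side_card hn hn1 he T (fun x hx => h1 x (hT hx)) (fun x hx => h2 x (hT hx))
      (fun x hx y hy hne => h3 x (hT hx) y (hT hy) hne)
  have hfin : U.Finite := by
    by_contra hinf
    obtain ⟨T, hT, hc⟩ := Set.Infinite.exists_subset_card_eq hinf (2 * n + 1)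
    have := hfinset T hT
    omega
  refine ⟨?_, fun hn2 hcard => ?_⟩
  · rw [hfin.encard_eq_coe_toFinset_card]
    have := hfinset hfin.toFinset (by simp)
    exact_mod_cast this
  have hmem : ∀ x, x ∈ hfin.toFinset ↔ x ∈ U := fun x => hfin.mem_toFinset
  have hcard' : hfin.toFinset.card = 2 * n := by
    rw [hfin.encard_eq_coe_toFinset_card] at hcard
    exact_mod_cast hcard
  have key := side_eq hn hn2 he hfin.toFinset (fun x hx => h1 x ((hmem x).1 hx))
    (fun x hx => h2 x ((hmem x).1 hx))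
    (fun x hx y hy hne => h3 x ((hmem x).1 hx) y ((hmem y).1 hy) hne) hcard'
  have h0e : e ≠ 0 := by
    intro h
    rw [h, norm_zero] at he
    exact zero_ne_one he
  have : Fact (finrank ℝ E = n + 1) := ⟨hn⟩
  have hF := Submodule.finrank_orthogonal_span_singleton (𝕜 := ℝ) (n := n) h0e
  let q : E → (ℝ ∙ e)ᗮ := fun x => √2 • orth e x
  have hq : ∀ x ∈ U, ((q x : (ℝ ∙ e)ᗮ) : E) = √2 • x - e := by
    intro x hx
    have hh := (key x ((hmem x).2 hx)).1
    change √2 • (x - (⟪e, x⟫_ℝ / ⟪e, e⟫_ℝ) • e) = √2 • x - e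
    rw [real_inner_self_eq_norm_sq, he, hh, smul_sub, smul_smul]
    have h4 : √2 * (√2 / 2 / 1 ^ 2) = 1 := by nlinarith
    rw [h4, one_smul]
  have hback : ∀ x ∈ U, x = (√2 / 2) • (e + (q x : E)) := by
    intro x hx
    rw [hq x hx, add_sub_cancel, smul_smul]
    have h4 : √2 / 2 * √2 = 1 := by nlinarith
    rw [h4, one_smul]
  have hinj : Set.InjOn q hfin.toFinset := by
    intro x hx y hy hxy
    rw [hback x ((hmem x).1 hx), hback y ((hmem y).1 hy), hxy]
  obtain ⟨u, hu⟩ := exists_basis hF (hfin.toFinset.image q) (by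
      intro y hy
      obtain ⟨x, hx, rfl⟩ := Finset.mem_image.1 hy
      have hh := (key x hx).1
      have h4 : ‖orth e x‖ ^ 2 = 1 / 2 := by
        rw [← real_inner_self_eq_norm_sq, inner_orth_unit he, real_inner_self_eq_norm_sq,
          h1 x ((hmem x).1 hx), hh]
        nlinarith
      have h5 : ‖q x‖ ^ 2 = 1 := by
        change ‖√2 • orth e x‖ ^ 2 = 1
        rw [norm_smul, mul_pow, h4, Real.norm_eq_abs, sq_abs]
        nlinarith
      have h6 : (‖q x‖ - 1) * (‖q x‖ + 1) = 0 := by linarith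
      rcases mul_eq_zero.1 h6 with h7 | h7
      · linarith
      · have := norm_nonneg (q x)
        linarith) (by
      intro y hy
      obtain ⟨x, hx, rfl⟩ := Finset.mem_image.1 hy
      have h4 := (key x hx).2.1
      refine Finset.mem_image.2 ⟨_, h4, ?_⟩
      apply Subtype.ext
      rw [hq _ ((hmem _).1 h4), Submodule.coe_neg, hq x ((hmem x).1 hx), smul_sub, smul_smul, hs]
      module) (by
      intro y hy z hz
      obtain ⟨x, hx, rfl⟩ := Finset.mem_image.1 hy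
      obtain ⟨x', hx', rfl⟩ := Finset.mem_image.1 hz
      rcases (key x hx).2.2 x' hx' with h4 | h4 | h4
      · exact Or.inl (by rw [h4])
      · right; left
        apply Subtype.ext
        rw [hq _ ((hmem _).1 hx'), Submodule.coe_neg, hq x ((hmem x).1 hx), h4, smul_sub,
          smul_smul, hs]
        module
      · right; right
        change ⟪√2 • orth e x, √2 • orth e x'⟫_ℝ = 0
        rw [inner_smul_left, inner_smul_right, inner_orth_unit he, h4, (key x hx).1,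
          (key x' hx').1]
        have h5 : (1 : ℝ) / 2 - √2 / 2 * (√2 / 2) = 0 := by nlinarith
        rw [h5]
        simp) (by
      rw [Finset.card_image_of_injOn hinj, hcard'])
  refine ⟨u, fun x => ⟨fun hx => ?_, ?_⟩⟩
  · obtain ⟨i, hi | hi⟩ := (hu (q x)).1 (Finset.mem_image_of_mem q ((hmem x).2 hx))
    · exact ⟨i, Or.inl (by rw [hback x hx, hi])⟩
    · refine ⟨i, Or.inr ?_⟩
      rw [hback x hx, hi, Submodule.coe_neg, sub_eq_add_neg]
  · rintro ⟨i, rfl | rfl⟩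
    · obtain ⟨x, hx, hxi⟩ := Finset.mem_image.1 ((hu (u i)).2 ⟨i, Or.inl rfl⟩)
      rw [← hxi, ← hback x ((hmem x).1 hx)]
      exact (hmem x).1 hx
    · obtain ⟨x, hx, hxi⟩ := Finset.mem_image.1 ((hu (-u i)).2 ⟨i, Or.inr rfl⟩)
      have h4 : e - (u i : E) = e + (q x : E) := by
        rw [hxi, Submodule.coe_neg, sub_eq_add_neg]
      rw [h4, ← hback x ((hmem x).1 hx)]
      exact (hmem x).1 hx

/-- At most `4 n` points of a kissing configuration are at height at least `√2/2` over or under a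
hyperplane, with a description of the case of equality. -/
theorem caps_main {n : ℕ} (hn : finrank ℝ E = n + 1) (hn1 : 1 ≤ n) {X : Set E}
    (h1 : ∀ x ∈ X, ‖x‖ = 1) (h2 : ∀ x ∈ X, ∀ y ∈ X, x ≠ y → ⟪x, y⟫_ℝ ≤ 1 / 2)
    {e : E} (he : ‖e‖ = 1) :
    {x ∈ X | √2 / 2 ≤ |⟪e, x⟫_ℝ|}.encard ≤ 4 * n ∧
      (2 ≤ n → {x ∈ X | √2 / 2 ≤ |⟪e, x⟫_ℝ|}.encard = 4 * n →
        ∃ u v : OrthonormalBasis (Fin n) ℝ (ℝ ∙ e)ᗮ, ∀ x, (x ∈ X ∧ √2 / 2 ≤ |⟪e, x⟫_ℝ|) ↔
          ∃ i, x = (√2 / 2) • (e + u i) ∨ x = (√2 / 2) • (e - u i) ∨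
            x = (√2 / 2) • (-e + v i) ∨ x = (√2 / 2) • (-e - v i)) := by
  have hs0 : 0 < √2 / 2 := by positivity
  set U : Set E := {x | x ∈ X ∧ √2 / 2 ≤ ⟪e, x⟫_ℝ} with hU
  set L : Set E := {x | -x ∈ X ∧ √2 / 2 ≤ ⟪e, x⟫_ℝ} with hL
  have hUm := side_main hn hn1 he U (fun x hx => h1 x hx.1) (fun x hx => hx.2)
    (fun x hx y hy hne => h2 x hx.1 y hy.1 hne)
  have hLm := side_main hn hn1 he L (fun x hx => by
      have := h1 (-x) hx.1
      rwa [norm_neg] at this) (fun x hx => hx.2) (fun x hx y hy hne => by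
      have := h2 (-x) hx.1 (-y) hy.1 (fun h => hne (neg_injective h))
      rwa [inner_neg_neg] at this)
  have hsplit : {x ∈ X | √2 / 2 ≤ |⟪e, x⟫_ℝ|} = U ∪ (fun x => -x) '' L := by
    ext x
    constructor
    · rintro ⟨hx, hx0⟩
      rcases le_abs.1 hx0 with h | h
      · exact Or.inl ⟨hx, h⟩
      · refine Or.inr ⟨-x, ⟨by rwa [neg_neg], ?_⟩, neg_neg x⟩
        rw [inner_neg_right]
        exact h
    · rintro (⟨hx, h⟩ | ⟨y, ⟨hy, h⟩, rfl⟩)
      · exact ⟨hx, le_abs.2 (Or.inl h)⟩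
      · refine ⟨hy, ?_⟩
        change √2 / 2 ≤ |⟪e, -y⟫_ℝ|
        rw [inner_neg_right, abs_neg]
        exact le_abs.2 (Or.inl h)
  have hcardL : ((fun x : E => -x) '' L).encard = L.encard := neg_injective.encard_image L
  have hle : {x ∈ X | √2 / 2 ≤ |⟪e, x⟫_ℝ|}.encard ≤ U.encard + L.encard := by
    rw [hsplit, ← hcardL]
    exact Set.encard_union_le _ _
  refine ⟨?_, fun hn2 hcard => ?_⟩
  · calc _ ≤ U.encard + L.encard := hle
      _ ≤ 2 * n + 2 * n := add_le_add hUm.1 hLm.1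
      _ = 4 * n := by ring
  · rw [hcard] at hle
    have h6 : U.encard = 2 * n ∧ L.encard = 2 * n := by
      have e1 := hUm.1
      have e2 := hLm.1
      generalize U.encard = a at e1 hle ⊢
      generalize L.encard = b at e2 hle ⊢
      have hfin : ((2 * n : ℕ) : ℕ∞) ≠ ⊤ := ENat.natCast_ne_top _
      have ha : a ≠ ⊤ := ne_top_of_le_ne_top hfin (by exact_mod_cast e1)
      have hb : b ≠ ⊤ := ne_top_of_le_ne_top hfin (by exact_mod_cast e2)
      lift a to ℕ using ha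
      lift b to ℕ using hb
      have f1 : a ≤ 2 * n := by exact_mod_cast e1
      have f2 : b ≤ 2 * n := by exact_mod_cast e2
      have f3 : 4 * n ≤ a + b := by exact_mod_cast hle
      have f4 : a = 2 * n := by omega
      have f5 : b = 2 * n := by omega
      rw [f4, f5]
      push_cast
      exact ⟨rfl, rfl⟩
    obtain ⟨u, hu⟩ := hUm.2 hn2 h6.1
    obtain ⟨v, hv⟩ := hLm.2 hn2 h6.2
    refine ⟨u, v, fun x => ?_⟩
    have h7 : (x ∈ X ∧ √2 / 2 ≤ |⟪e, x⟫_ℝ|) ↔ x ∈ U ∨ -x ∈ L := by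
      constructor
      · rintro ⟨hx, hx0⟩
        rcases le_abs.1 hx0 with h | h
        · exact Or.inl ⟨hx, h⟩
        · refine Or.inr ⟨by rwa [neg_neg], ?_⟩
          rw [inner_neg_right]
          exact h
      · rintro (⟨hx, h⟩ | ⟨hx, h⟩)
        · exact ⟨hx, le_abs.2 (Or.inl h)⟩
        · rw [neg_neg] at hx
          rw [inner_neg_right] at h
          exact ⟨hx, le_abs.2 (Or.inr h)⟩
    rw [h7, hu, hv]
    have h8 : ∀ i, (-x = (√2 / 2) • (e + (v i : E)) ↔ x = (√2 / 2) • (-e - (v i : E))) := by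
      intro i
      rw [neg_eq_iff_eq_neg, ← smul_neg, neg_add']
    have h9 : ∀ i, (-x = (√2 / 2) • (e - (v i : E)) ↔ x = (√2 / 2) • (-e + (v i : E))) := by
      intro i
      rw [neg_eq_iff_eq_neg, ← smul_neg, neg_sub, sub_eq_neg_add]
    constructor
    · rintro (⟨i, hi | hi⟩ | ⟨i, hi | hi⟩)
      · exact ⟨i, Or.inl hi⟩
      · exact ⟨i, Or.inr (Or.inl hi)⟩
      · exact ⟨i, Or.inr (Or.inr (Or.inr ((h8 i).1 hi)))⟩
      · exact ⟨i, Or.inr (Or.inr (Or.inl ((h9 i).1 hi)))⟩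
    · rintro ⟨i, hi | hi | hi | hi⟩
      · exact Or.inl ⟨i, Or.inl hi⟩
      · exact Or.inl ⟨i, Or.inr hi⟩
      · exact Or.inr ⟨i, Or.inr ((h9 i).2 hi)⟩
      · exact Or.inr ⟨i, Or.inl ((h8 i).2 hi)⟩

omit [FiniteDimensional ℝ E] in
/-- Over a hyperplane section that is a 45-degree covering, all points off the hyperplane have
height at least `√2/2`. -/
theorem off_eq {X : Set E} (h1 : ∀ x ∈ X, ‖x‖ = 1)
    (h2 : ∀ x ∈ X, ∀ y ∈ X, x ≠ y → ⟪x, y⟫_ℝ ≤ 1 / 2) {e : E} (he : ‖e‖ = 1)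
    (hcov : ∀ u : E, ‖u‖ = 1 → ⟪e, u⟫_ℝ = 0 → ∃ z ∈ X, ⟪e, z⟫_ℝ = 0 ∧ √2 / 2 ≤ ⟪z, u⟫_ℝ) :
    {x ∈ X | ⟪e, x⟫_ℝ ≠ 0} = {x ∈ X | √2 / 2 ≤ |⟪e, x⟫_ℝ|} := by
  ext x
  constructor
  · rintro ⟨hx, hx0⟩
    exact ⟨hx, height_of_covering he h1 h2 hcov hx hx0⟩
  · rintro ⟨hx, hx0⟩
    refine ⟨hx, fun h => ?_⟩
    have h0 : 0 < √2 / 2 := by positivity
    rw [h, abs_zero] at hx0
    linarith

end Pool.Agent.Work.MP_e0d3e3_co
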