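import Mathlib

set_option autoImplicit false

/-!
The second and the fourth moment inequality for finite sets of unit vectors of `ℝ^n`.
-/

namespace Pool.Agent.Work.MP_e0d3e3_co.Obtuse

open Finset

variable {n : ℕ}

/-- the identity matrix -/
def dl (a b : Fin n) : ℝ := if a = b then 1 else 0

lemma dl_comm (a b : Fin n) : dl a b = dl b a := by
  unfold dl
  by_cases h : a = b
  · rw [if_pos h, if_pos h.symm]
  · rw [if_neg h, if_neg (fun h' => h h'.symm)]

lemma sum_dl (G : Fin n → ℝ) (a : Fin n) : ∑ c, dl a c * G c = G a := by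
  unfold dl
  simp

lemma sum_dl' (G : Fin n → ℝ) (a : Fin n) : ∑ c, dl c a * G c = G a := by
  simp_rw [dl_comm _ a]
  exact sum_dl G a

/-- the symmetrised product of the identity with a matrix -/
def sy (K : Fin n → Fin n → ℝ) (a b c d : Fin n) : ℝ :=
  dl a b * K c d + dl a c * K b d + dl a d * K b c + dl b c * K a d + dl b d * K a c
    + dl c d * K a b

lemma sum_sy (K : Fin n → Fin n → ℝ) (F : Fin n → Fin n → Fin n → Fin n → ℝ)
    (h1 : ∀ a b c d, F a b c d = F b a c d) (h2 : ∀ a b c d, F a b c d = F a c b d)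
    (h3 : ∀ a b c d, F a b c d = F a b d c) :
    ∑ a, ∑ b, ∑ c, ∑ d, F a b c d * sy K a b c d = 6 * ∑ c, ∑ d, K c d * ∑ a, F a a c d := by
  have e : ∀ a b c d, F a b c d * sy K a b c d
      = dl a b * (K c d * F a b c d) + dl a c * (K b d * F a b c d) + dl a d * (K b c * F a b c d)
        + dl b c * (K a d * F a b c d) + dl b d * (K a c * F a b c d)
        + dl c d * (K a b * F a b c d) := by
    intro a b c d
    unfold sy
    ring
  simp_rw [e, sum_add_distrib]
  have p1 : ∑ a, ∑ b, ∑ c, ∑ d, dl a b * (K c d * F a b c d)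
      = ∑ c, ∑ d, K c d * ∑ a, F a a c d := by
    have : ∀ a, ∑ b, ∑ c, ∑ d, dl a b * (K c d * F a b c d) = ∑ c, ∑ d, K c d * F a a c d := by
      intro a
      simp_rw [← mul_sum]
      exact sum_dl (fun b => ∑ c, ∑ d, K c d * F a b c d) a
    simp_rw [this, mul_sum]
    rw [sum_comm]
    refine sum_congr rfl fun c _ => ?_
    rw [sum_comm]
  have p2 : ∑ a, ∑ b, ∑ c, ∑ d, dl a c * (K b d * F a b c d)
      = ∑ c, ∑ d, K c d * ∑ a, F a a c d := by
    have : ∀ a b, ∑ c, ∑ d, dl a c * (K b d * F a b c d) = ∑ d, K b d * F a a b d := by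
      intro a b
      simp_rw [← mul_sum]
      rw [sum_dl (fun c => ∑ d, K b d * F a b c d) a]
      refine sum_congr rfl fun d _ => ?_
      rw [h2 a b a d]
    simp_rw [this, mul_sum]
    rw [sum_comm]
    refine sum_congr rfl fun c _ => ?_
    rw [sum_comm]
  have p3 : ∑ a, ∑ b, ∑ c, ∑ d, dl a d * (K b c * F a b c d)
      = ∑ c, ∑ d, K c d * ∑ a, F a a c d := by
    have : ∀ a b c, ∑ d, dl a d * (K b c * F a b c d) = K b c * F a a b c := by
      intro a b c
      rw [sum_dl (fun d => K b c * F a b c d) a]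
      rw [h3 a b c a, h2 a b a c]
    simp_rw [this, mul_sum]
    rw [sum_comm]
    refine sum_congr rfl fun c _ => ?_
    rw [sum_comm]
  have p4 : ∑ a, ∑ b, ∑ c, ∑ d, dl b c * (K a d * F a b c d)
      = ∑ c, ∑ d, K c d * ∑ a, F a a c d := by
    have : ∀ a b, ∑ c, ∑ d, dl b c * (K a d * F a b c d) = ∑ d, K a d * F b b a d := by
      intro a b
      simp_rw [← mul_sum]
      rw [sum_dl (fun c => ∑ d, K a d * F a b c d) b]
      refine sum_congr rfl fun d _ => ?_
      rw [h1 a b b d, h2 b a b d]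
    simp_rw [this, mul_sum]
    refine sum_congr rfl fun c _ => ?_
    rw [sum_comm]
  have p5 : ∑ a, ∑ b, ∑ c, ∑ d, dl b d * (K a c * F a b c d)
      = ∑ c, ∑ d, K c d * ∑ a, F a a c d := by
    have : ∀ a b c, ∑ d, dl b d * (K a c * F a b c d) = K a c * F b b a c := by
      intro a b c
      rw [sum_dl (fun d => K a c * F a b c d) b]
      rw [h3 a b c b, h1 a b b c, h2 b a b c]
    simp_rw [this, mul_sum]
    refine sum_congr rfl fun c _ => ?_
    rw [sum_comm]
  have p6 : ∑ a, ∑ b, ∑ c, ∑ d, dl c d * (K a b * F a b c d)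
      = ∑ c, ∑ d, K c d * ∑ a, F a a c d := by
    have : ∀ a b c, ∑ d, dl c d * (K a b * F a b c d) = K a b * F c c a b := by
      intro a b c
      rw [sum_dl (fun d => K a b * F a b c d) c]
      rw [h2 a b c c, h1 a c b c, h3 c a b c, h2 c a c b]
    simp_rw [this, mul_sum]
  rw [p1, p2, p3, p4, p5, p6]
  ring

lemma tr_sy (K : Fin n → Fin n → ℝ) (hK : ∀ a b, K a b = K b a) (c d : Fin n) :
    ∑ a, sy K a a c d = (n + 4) * K c d + dl c d * ∑ a, K a a := by
  unfold sy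
  have e : ∀ a, dl a a * K c d + dl a c * K a d + dl a d * K a c + dl a c * K a d
      + dl a d * K a c + dl c d * K a a
      = K c d + 2 * (dl a c * K a d) + 2 * (dl a d * K a c) + dl c d * K a a := by
    intro a
    have : dl a a = 1 := by unfold dl; simp
    rw [this]
    ring
  simp_rw [e, sum_add_distrib, ← mul_sum]
  rw [sum_dl' (fun a => K a d) c, sum_dl' (fun a => K a c) d, hK d c]
  simp only [sum_const, card_univ, Fintype.card_fin, nsmul_eq_mul]
  ring

variable (S : Finset (Fin n → ℝ))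

/-- the second moment matrix -/
def mM (a b : Fin n) : ℝ := ∑ x ∈ S, x a * x b

/-- the fourth moment tensor -/
def mT (a b c d : Fin n) : ℝ := ∑ x ∈ S, x a * x b * x c * x d

lemma sum_mM_sq : ∑ a, ∑ b, mM S a b * mM S a b
    = ∑ x ∈ S, ∑ y ∈ S, (∑ a, x a * y a) ^ 2 := by
  have e : ∀ x y : Fin n → ℝ, (∑ a, x a * y a) ^ 2
      = ∑ a, ∑ b, (x a * x b) * (y a * y b) := by
    intro x y
    rw [pow_two, sum_mul_sum]
    refine sum_congr rfl fun a _ => sum_congr rfl fun b _ => ?_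
    ring
  simp_rw [e]
  unfold mM
  simp_rw [sum_mul_sum]
  rw [show (∑ a : Fin n, ∑ b : Fin n, ∑ x ∈ S, ∑ y ∈ S, x a * x b * (y a * y b))
      = ∑ a : Fin n, ∑ x ∈ S, ∑ b : Fin n, ∑ y ∈ S, x a * x b * (y a * y b) from
      sum_congr rfl fun a _ => sum_comm]
  rw [sum_comm]
  refine sum_congr rfl fun x _ => ?_
  rw [show (∑ a : Fin n, ∑ b : Fin n, ∑ y ∈ S, x a * x b * (y a * y b))
      = ∑ a : Fin n, ∑ y ∈ S, ∑ b : Fin n, x a * x b * (y a * y b) from
      sum_congr rfl fun a _ => sum_comm]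
  rw [sum_comm]

lemma sum_mT_sq : ∑ a, ∑ b, ∑ c, ∑ d, mT S a b c d * mT S a b c d
    = ∑ x ∈ S, ∑ y ∈ S, (∑ a, x a * y a) ^ 4 := by
  have e : ∀ x y : Fin n → ℝ, (∑ a, x a * y a) ^ 4
      = ∑ a, ∑ b, ∑ c, ∑ d, (x a * x b * x c * x d) * (y a * y b * y c * y d) := by
    intro x y
    have e2 : (∑ a, x a * y a) ^ 2 = ∑ a, ∑ b, (x a * x b) * (y a * y b) := by
      rw [pow_two, sum_mul_sum]
      refine sum_congr rfl fun a _ => sum_congr rfl fun b _ => ?_
      ring
    rw [show (∑ a, x a * y a) ^ 4 = (∑ a, x a * y a) ^ 2 * (∑ a, x a * y a) ^ 2 by ring, e2,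
      sum_mul_sum]
    rw [show (∑ a : Fin n, ∑ c : Fin n, (∑ b, x a * x b * (y a * y b)) *
        ∑ d, x c * x d * (y c * y d))
      = ∑ a : Fin n, ∑ c : Fin n, ∑ b : Fin n, ∑ d : Fin n,
        (x a * x b * (y a * y b)) * (x c * x d * (y c * y d)) from
      sum_congr rfl fun a _ => sum_congr rfl fun c _ => sum_mul_sum _ _ _ _]
    refine sum_congr rfl fun a _ => ?_
    rw [sum_comm]
    refine sum_congr rfl fun b _ => sum_congr rfl fun c _ => sum_congr rfl fun d _ => ?_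
    ring
  simp_rw [e]
  unfold mT
  simp_rw [sum_mul_sum]
  -- move the sums over `S` outside
  have step : ∀ G : Fin n → (Fin n → ℝ) → (Fin n → ℝ) → ℝ,
      ∑ a, ∑ x ∈ S, ∑ y ∈ S, G a x y = ∑ x ∈ S, ∑ y ∈ S, ∑ a, G a x y := by
    intro G
    rw [sum_comm]
    refine sum_congr rfl fun x _ => ?_
    rw [sum_comm]
  simp_rw [step]

lemma tr_mT (h1 : ∀ x ∈ S, ∑ a, x a ^ 2 = 1) (c d : Fin n) :
    ∑ a, mT S a a c d = mM S c d := by
  unfold mT mM
  rw [sum_comm]
  refine sum_congr rfl fun x hx => ?_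
  have : ∀ a, x a * x a * x c * x d = x a ^ 2 * (x c * x d) := fun a => by ring
  simp_rw [this]
  rw [← sum_mul, h1 x hx, one_mul]

lemma tr_mM (h1 : ∀ x ∈ S, ∑ a, x a ^ 2 = 1) : ∑ a, mM S a a = S.card := by
  unfold mM
  rw [sum_comm]
  have h : ∀ x ∈ S, ∑ a : Fin n, x a * x a = 1 := by
    intro x hx
    rw [← h1 x hx]
    exact sum_congr rfl fun a _ => by ring
  rw [sum_congr rfl h]
  simp

/-- **Second moment inequality.** -/
theorem moment_two (hn : 0 < n) (h1 : ∀ x ∈ S, ∑ a, x a ^ 2 = 1) :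
    (S.card : ℝ) ^ 2 ≤ n * ∑ x ∈ S, ∑ y ∈ S, (∑ a, x a * y a) ^ 2 := by
  have hn' : (0 : ℝ) < n := by exact_mod_cast hn
  have h := tr_mM S h1
  have hnn : 0 ≤ ∑ a, ∑ b, (mM S a b - (S.card / n : ℝ) * dl a b) ^ 2 :=
    sum_nonneg fun a _ => sum_nonneg fun b _ => sq_nonneg _
  have e : ∀ a b, (mM S a b - (S.card / n : ℝ) * dl a b) ^ 2
      = mM S a b * mM S a b - 2 * (S.card / n : ℝ) * (dl a b * mM S a b)
        + (S.card / n : ℝ) ^ 2 * (dl a b * dl a b) := fun a b => by ring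
  simp_rw [e, sum_add_distrib, sum_sub_distrib, ← mul_sum] at hnn
  rw [sum_mM_sq, sum_congr rfl (fun a _ => sum_dl (fun b => mM S a b) a),
    sum_congr rfl (fun a _ => sum_dl (fun b => dl a b) a), h] at hnn
  have e2 : ∑ a : Fin n, dl a a = (n : ℝ) := by
    unfold dl
    simp
  rw [e2] at hnn
  have e3 : 2 * (S.card / n : ℝ) * S.card = 2 * ((S.card : ℝ) ^ 2 / n) := by ring
  have e4 : (S.card / n : ℝ) ^ 2 * n = (S.card : ℝ) ^ 2 / n := by field_simp
  rw [e3, e4] at hnn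
  have h5 : (S.card : ℝ) ^ 2 / n ≤ ∑ x ∈ S, ∑ y ∈ S, (∑ a, x a * y a) ^ 2 := by linarith
  rw [div_le_iff₀ hn'] at h5
  linarith

/-- **Fourth moment inequality.** -/
theorem moment_four (h1 : ∀ x ∈ S, ∑ a, x a ^ 2 = 1) :
    0 ≤ ∑ x ∈ S, ∑ y ∈ S, (∑ a, x a * y a) ^ 4
      - 6 / (n + 4) * ∑ x ∈ S, ∑ y ∈ S, (∑ a, x a * y a) ^ 2
      + 3 * (S.card : ℝ) ^ 2 / ((n + 2) * (n + 4)) := by
  set α : ℝ := 1 / (n + 4) with hα
  set γ : ℝ := S.card / ((n + 2) * (n + 4)) / 2 with hγ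
  have hn4 : (n : ℝ) + 4 ≠ 0 := by positivity
  have hn2 : (n : ℝ) + 2 ≠ 0 := by positivity
  set R : Fin n → Fin n → Fin n → Fin n → ℝ := fun a b c d =>
    mT S a b c d - α * sy (mM S) a b c d + γ * sy dl a b c d with hR
  have hMs : ∀ a b, mM S a b = mM S b a := fun a b =>
    sum_congr rfl fun x _ => mul_comm _ _
  have hTr : ∀ c d, ∑ a, R a a c d = 0 := by
    intro c d
    rw [hR]
    simp only [sum_add_distrib, sum_sub_distrib, ← mul_sum]
    rw [tr_mT S h1, tr_sy _ hMs, tr_sy _ dl_comm, tr_mM S h1]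
    have e2 : ∑ a : Fin n, dl a a = (n : ℝ) := by
      unfold dl
      simp
    rw [e2, hα, hγ]
    field_simp
    ring
  have s1 : ∀ a b c d, R a b c d = R b a c d := by
    intro a b c d
    rw [hR]
    simp only [mT, sy]
    rw [dl_comm b a, hMs b a, sum_congr rfl fun x _ => show x a * x b * x c * x d
      = x b * x a * x c * x d by ring]
    ring
  have s2 : ∀ a b c d, R a b c d = R a c b d := by
    intro a b c d
    rw [hR]
    simp only [mT, sy]
    rw [dl_comm c b, hMs c b, sum_congr rfl fun x _ => show x a * x b * x c * x d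
      = x a * x c * x b * x d by ring]
    ring
  have s3 : ∀ a b c d, R a b c d = R a b d c := by
    intro a b c d
    rw [hR]
    simp only [mT, sy]
    rw [dl_comm d c, hMs d c, sum_congr rfl fun x _ => show x a * x b * x c * x d
      = x a * x b * x d * x c by ring]
    ring
  have hRM : ∑ a, ∑ b, ∑ c, ∑ d, R a b c d * sy (mM S) a b c d = 0 := by
    rw [sum_sy _ R s1 s2 s3]
    simp [hTr]
  have hRD : ∑ a, ∑ b, ∑ c, ∑ d, R a b c d * sy dl a b c d = 0 := by
    rw [sum_sy _ R s1 s2 s3]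
    simp [hTr]
  have t1 : ∀ a b c d, mT S a b c d = mT S b a c d := fun a b c d =>
    sum_congr rfl fun x _ => by ring
  have t2 : ∀ a b c d, mT S a b c d = mT S a c b d := fun a b c d =>
    sum_congr rfl fun x _ => by ring
  have t3 : ∀ a b c d, mT S a b c d = mT S a b d c := fun a b c d =>
    sum_congr rfl fun x _ => by ring
  have hTM : ∑ a, ∑ b, ∑ c, ∑ d, mT S a b c d * sy (mM S) a b c d
      = 6 * ∑ x ∈ S, ∑ y ∈ S, (∑ a, x a * y a) ^ 2 := by
    rw [sum_sy _ _ t1 t2 t3]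
    simp_rw [tr_mT S h1]
    rw [sum_mM_sq]
  have hTD : ∑ a, ∑ b, ∑ c, ∑ d, mT S a b c d * sy dl a b c d = 6 * S.card := by
    rw [sum_sy _ _ t1 t2 t3]
    simp_rw [tr_mT S h1]
    rw [sum_congr rfl (fun a _ => sum_dl (fun b => mM S a b) a), tr_mM S h1]
  have hsq : 0 ≤ ∑ a, ∑ b, ∑ c, ∑ d, R a b c d * R a b c d :=
    sum_nonneg fun a _ => sum_nonneg fun b _ => sum_nonneg fun c _ => sum_nonneg fun d _ =>
      mul_self_nonneg _
  have e : ∀ a b c d, R a b c d * R a b c d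
      = mT S a b c d * mT S a b c d - α * (mT S a b c d * sy (mM S) a b c d)
        + γ * (mT S a b c d * sy dl a b c d) - α * (R a b c d * sy (mM S) a b c d)
        + γ * (R a b c d * sy dl a b c d) := by
    intro a b c d
    rw [hR]
    ring
  simp_rw [e, sum_add_distrib, sum_sub_distrib, sum_add_distrib, sum_sub_distrib, ← mul_sum]
    at hsq
  rw [hRM, hRD, hTM, hTD, sum_mT_sq] at hsq
  refine hsq.trans (le_of_eq ?_)
  rw [hα, hγ]
  field_simp
  ring

end Pool.Agent.Work.MP_e0d3e3_co.Obtuse
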