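import Pool.Agent.Work.MP_e0d3e3_co.Cap

/-!
Explicit vectors in dimension five: the `D4` and `D5` root systems and Leech's variant `L5`.
-/

namespace Pool.Agent.Work.MP_e0d3e3_co

open Module
open scoped InnerProductSpace

/-- Five-dimensional Euclidean space. -/
abbrev E5 := EuclideanSpace ℝ (Fin 5)

/-- Four-dimensional Euclidean space. -/
abbrev E4 := EuclideanSpace ℝ (Fin 4)

/-- A kissing configuration in dimension five: unit vectors whose pairwise inner products are at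
most `1/2`. -/
def IsKissing (X : Set E5) : Prop :=
  (∀ x ∈ X, ‖x‖ = 1) ∧ ∀ x ∈ X, ∀ y ∈ X, x ≠ y → ⟪x, y⟫_ℝ ≤ 1 / 2

/-- The normalised `D4` root system: the vectors `w / √2` with `w ∈ ℤ⁴`, `|w|² = 2`. -/
def D4 : Set E4 := {x | ∃ w : Fin 4 → ℤ, ∑ i, w i ^ 2 = 2 ∧ ∀ i, x i = w i * (√2 / 2)}

/-- The normalised `D5` root system: the vectors `w / √2` with `w ∈ ℤ⁵`, `|w|² = 2`. -/
def D5 : Set E5 := {x | ∃ w : Fin 5 → ℤ, ∑ i, w i ^ 2 = 2 ∧ ∀ i, x i = w i * (√2 / 2)}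

/-- Leech's kissing configuration `L5`: the vectors of `D5` with nonnegative last coordinate, and
the vectors `(±1, ±1, ±1, ±1, -2) / √8` with an even number of minus signs among the first four. -/
def L5 : Set E5 := {x | (x ∈ D5 ∧ 0 ≤ x 4) ∨
  (x 4 = -(√2 / 2) ∧ |x 0| = √2 / 4 ∧ |x 1| = √2 / 4 ∧ |x 2| = √2 / 4 ∧ |x 3| = √2 / 4 ∧
    0 < x 0 * x 1 * x 2 * x 3)}

/-! ### Integer coordinates -/

/-- The vector `v / √8`. -/
noncomputable def vec (v : Fin 5 → ℤ) : E5 := WithLp.toLp 2 (fun i => (v i : ℝ) * (√2 / 4))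

theorem vec_apply (v : Fin 5 → ℤ) (i : Fin 5) : vec v i = (v i : ℝ) * (√2 / 4) := rfl

theorem sqrt_sq : (√2 / 4) * (√2 / 4) = 1 / 8 := by
  have : √2 * √2 = 2 := Real.mul_self_sqrt (by norm_num)
  nlinarith

theorem vec_injective : Function.Injective vec := by
  intro v w h
  funext i
  have h1 : vec v i = vec w i := by rw [h]
  rw [vec_apply, vec_apply] at h1
  have h2 : (√2 / 4) ≠ 0 := by positivity
  exact_mod_cast mul_right_cancel₀ h2 h1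

theorem inner_vec (v w : Fin 5 → ℤ) : ⟪vec v, vec w⟫_ℝ = ((∑ i, v i * w i : ℤ) : ℝ) / 8 := by
  rw [PiLp.inner_apply]
  push_cast
  rw [Finset.sum_div]
  refine Finset.sum_congr rfl fun i _ => ?_
  rw [vec_apply, vec_apply]
  have h : ⟪(v i : ℝ) * (√2 / 4), (w i : ℝ) * (√2 / 4)⟫_ℝ =
      ((v i : ℝ) * w i) * ((√2 / 4) * (√2 / 4)) := by
    simp only [RCLike.inner_apply, conj_trivial]
    ring
  rw [h, sqrt_sq]
  ring

/-- The `D4` part. -/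
def d4 : List (Fin 5 → ℤ) := [
    ![2, 2, 0, 0, 0], ![2, -2, 0, 0, 0], ![-2, 2, 0, 0, 0], ![-2, -2, 0, 0, 0],
    ![2, 0, 2, 0, 0], ![2, 0, -2, 0, 0], ![-2, 0, 2, 0, 0], ![-2, 0, -2, 0, 0],
    ![2, 0, 0, 2, 0], ![2, 0, 0, -2, 0], ![-2, 0, 0, 2, 0], ![-2, 0, 0, -2, 0],
    ![0, 2, 2, 0, 0], ![0, 2, -2, 0, 0], ![0, -2, 2, 0, 0], ![0, -2, -2, 0, 0],
    ![0, 2, 0, 2, 0], ![0, 2, 0, -2, 0], ![0, -2, 0, 2, 0], ![0, -2, 0, -2, 0],
    ![0, 0, 2, 2, 0], ![0, 0, 2, -2, 0], ![0, 0, -2, 2, 0], ![0, 0, -2, -2, 0]]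

/-- The three frames of deep holes of `D4`, at height `2`. -/
def g : Fin 3 → List (Fin 5 → ℤ) := ![[
    ![2, 0, 0, 0, 2], ![-2, 0, 0, 0, 2], ![0, 2, 0, 0, 2], ![0, -2, 0, 0, 2],
    ![0, 0, 2, 0, 2], ![0, 0, -2, 0, 2], ![0, 0, 0, 2, 2], ![0, 0, 0, -2, 2]],
  [
    ![1, 1, 1, 1, 2], ![1, 1, -1, -1, 2], ![1, -1, 1, -1, 2], ![1, -1, -1, 1, 2],
    ![-1, 1, 1, -1, 2], ![-1, 1, -1, 1, 2], ![-1, -1, 1, 1, 2], ![-1, -1, -1, -1, 2]],
  [
    ![1, 1, 1, -1, 2], ![1, 1, -1, 1, 2], ![1, -1, 1, 1, 2], ![1, -1, -1, -1, 2],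
    ![-1, 1, 1, 1, 2], ![-1, 1, -1, -1, 2], ![-1, -1, 1, -1, 2], ![-1, -1, -1, 1, 2]]]

/-- The reflection in the last coordinate. -/
def flip5 (v : Fin 5 → ℤ) : Fin 5 → ℤ := ![v 0, v 1, v 2, v 3, -v 4]

/-- The candidate configurations. -/
def full (a b : Fin 3) : List (Fin 5 → ℤ) := d4 ++ g a ++ (g b).map flip5

/-- The reflection in a vector `u` with `u · u = 4`. -/
def reflZ (u v : Fin 5 → ℤ) : Fin 5 → ℤ := fun i => v i - ((∑ j, u j * v j) / 2) * u i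

theorem full_nodup : ∀ a b, (full a b).Nodup := by decide +kernel

theorem full_length : ∀ a b, (full a b).length = 40 := by decide +kernel

theorem g_nodup : ∀ a, (g a).Nodup := by decide +kernel

theorem g_length : ∀ a, (g a).length = 8 := by decide +kernel

theorem d4_nodup : d4.Nodup := by decide +kernel

theorem d4_length : d4.length = 24 := by decide +kernel

/-- Vectors of different frames are in none of the relations of the case of equality. -/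
theorem g_sep : ∀ a b, ∀ v ∈ g a, ∀ w ∈ g b,
    (w = v ∨ w = ![-v 0, -v 1, -v 2, -v 3, 4 - v 4] ∨ ∑ i, v i * w i = 4) → a = b := by
  decide +kernel

theorem refl11 : ∀ v ∈ full 1 1, 2 ∣ (∑ j, (![1, 1, 1, -1, 0] : Fin 5 → ℤ) j * v j) ∧
    reflZ ![1, 1, 1, -1, 0] v ∈ full 0 0 := by decide +kernel

theorem refl22 : ∀ v ∈ full 2 2, 2 ∣ (∑ j, (![1, 1, 1, 1, 0] : Fin 5 → ℤ) j * v j) ∧
    reflZ ![1, 1, 1, 1, 0] v ∈ full 0 0 := by decide +kernel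

theorem refl02 : ∀ v ∈ full 0 2, 2 ∣ (∑ j, (![2, 0, 0, 0, 0] : Fin 5 → ℤ) j * v j) ∧
    reflZ ![2, 0, 0, 0, 0] v ∈ full 0 1 := by decide +kernel

theorem refl10 : ∀ v ∈ full 1 0, 2 ∣ (∑ j, (![1, 1, 1, -1, 0] : Fin 5 → ℤ) j * v j) ∧
    reflZ ![1, 1, 1, -1, 0] v ∈ full 0 1 := by decide +kernel

theorem refl12 : ∀ v ∈ full 1 2, 2 ∣ (∑ j, (![1, 1, 1, -1, 0] : Fin 5 → ℤ) j * v j) ∧
    reflZ ![1, 1, 1, -1, 0] v ∈ full 0 2 := by decide +kernel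

theorem refl20 : ∀ v ∈ full 2 0, 2 ∣ (∑ j, (![1, 1, 1, 1, 0] : Fin 5 → ℤ) j * v j) ∧
    reflZ ![1, 1, 1, 1, 0] v ∈ full 0 2 := by decide +kernel

theorem refl21 : ∀ v ∈ full 2 1, 2 ∣ (∑ j, (![1, 1, 1, 1, 0] : Fin 5 → ℤ) j * v j) ∧
    reflZ ![1, 1, 1, 1, 0] v ∈ full 0 1 := by decide +kernel

/-- The set of vectors given by a list. -/
noncomputable def pts (l : List (Fin 5 → ℤ)) : Set E5 := vec '' {v | v ∈ l}

theorem encard_pts {l : List (Fin 5 → ℤ)} (h : l.Nodup) : (pts l).encard = l.length := by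
  classical
  rw [pts, vec_injective.encard_image]
  have h1 : {v | v ∈ l} = ((l.toFinset : Finset (Fin 5 → ℤ)) : Set (Fin 5 → ℤ)) := by
    ext v
    simp
  rw [h1, Set.encard_coe_eq_coe_finsetCard, List.toFinset_card_of_nodup h]

/-- Real reflections. -/
theorem refl_vec (u v : Fin 5 → ℤ) (hu : ∑ j, u j * u j = 4) (hv : 2 ∣ ∑ j, u j * v j) :
    (ℝ ∙ vec u)ᗮ.reflection (vec v) = vec (reflZ u v) := by
  obtain ⟨m, hm⟩ := hv
  have h1 : ‖vec u‖ ^ 2 = 1 / 2 := by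
    rw [← real_inner_self_eq_norm_sq, inner_vec, hu]
    norm_num
  rw [Submodule.reflection_orthogonal_apply, Submodule.reflection_singleton_apply]
  ext i
  have h2 : reflZ u v i = v i - m * u i := by
    rw [reflZ, hm]
    norm_num
  simp only [RCLike.ofReal_real_eq_id, id_eq, PiLp.neg_apply, PiLp.sub_apply, PiLp.smul_apply,
    smul_eq_mul, nsmul_eq_mul, vec_apply, h1, inner_vec, hm, h2]
  push_cast
  ring

theorem iso_of_refl (u : Fin 5 → ℤ) (hu : ∑ j, u j * u j = 4) {a b a' b' : Fin 3}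
    (h : ∀ v ∈ full a b, 2 ∣ (∑ j, u j * v j) ∧ reflZ u v ∈ full a' b') :
    ∃ ψ : E5 ≃ₗᵢ[ℝ] E5, pts (full a b) = ψ '' pts (full a' b') := by
  refine ⟨(ℝ ∙ vec u)ᗮ.reflection, ?_⟩
  have h1 : (ℝ ∙ vec u)ᗮ.reflection '' pts (full a b) ⊆ pts (full a' b') := by
    rintro _ ⟨_, ⟨v, hv, rfl⟩, rfl⟩
    rw [refl_vec u v hu (h v hv).1]
    exact ⟨_, (h v hv).2, rfl⟩
  have h2 : (ℝ ∙ vec u)ᗮ.reflection '' pts (full a b) = pts (full a' b') := by
    refine Set.Finite.eq_of_subset_of_encard_le ?_ h1 ?_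
    · rw [← Set.encard_ne_top_iff, ((ℝ ∙ vec u)ᗮ.reflection).injective.encard_image,
        encard_pts (full_nodup _ _)]
      exact WithTop.coe_ne_top
    · rw [((ℝ ∙ vec u)ᗮ.reflection).injective.encard_image, encard_pts (full_nodup _ _),
        encard_pts (full_nodup _ _), full_length, full_length]
  rw [← h2, ← Set.image_comp]
  ext x
  constructor
  · intro hx
    exact ⟨x, hx, Submodule.reflection_reflection _ x⟩
  · rintro ⟨y, hy, rfl⟩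
    simpa [Submodule.reflection_reflection] using hy

theorem iso_trans {A B C : Set E5} (h : ∃ ψ : E5 ≃ₗᵢ[ℝ] E5, A = ψ '' B)
    (h' : ∃ ψ : E5 ≃ₗᵢ[ℝ] E5, B = ψ '' C) : ∃ ψ : E5 ≃ₗᵢ[ℝ] E5, A = ψ '' C := by
  obtain ⟨ψ, rfl⟩ := h
  obtain ⟨ψ', rfl⟩ := h'
  exact ⟨ψ'.trans ψ, by rw [← Set.image_comp]; rfl⟩

/-- Every candidate is isometric to the candidate `(0, 0)` or to the candidate `(0, 1)`. -/
theorem full_iso (a b : Fin 3) : (∃ ψ : E5 ≃ₗᵢ[ℝ] E5, pts (full a b) = ψ '' pts (full 0 0)) ∨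
    ∃ ψ : E5 ≃ₗᵢ[ℝ] E5, pts (full a b) = ψ '' pts (full 0 1) := by
  have h02 := iso_of_refl ![2, 0, 0, 0, 0] (by decide) refl02
  fin_cases a <;> fin_cases b
  · exact Or.inl ⟨LinearIsometryEquiv.refl ℝ E5, by simp⟩
  · exact Or.inr ⟨LinearIsometryEquiv.refl ℝ E5, by simp⟩
  · exact Or.inr h02
  · exact Or.inr (iso_of_refl ![1, 1, 1, -1, 0] (by decide) refl10)
  · exact Or.inl (iso_of_refl ![1, 1, 1, -1, 0] (by decide) refl11)
  · exact Or.inr (iso_trans (iso_of_refl ![1, 1, 1, -1, 0] (by decide) refl12) h02)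
  · exact Or.inr (iso_trans (iso_of_refl ![1, 1, 1, 1, 0] (by decide) refl20) h02)
  · exact Or.inr (iso_of_refl ![1, 1, 1, 1, 0] (by decide) refl21)
  · exact Or.inl (iso_of_refl ![1, 1, 1, 1, 0] (by decide) refl22)

end Pool.Agent.Work.MP_e0d3e3_co
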